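import Mathlib

set_option autoImplicit false

/-! Counting injective tuples. -/

namespace Pool.Agent.V8H36.KL

/-- injective choices avoiding `S` -/
noncomputable def inj {r : ℕ} (J : Fin r → Finset ℕ) (S : Finset ℕ) : Finset (Fin r → ℕ) :=
  open Classical in (Fintype.piFinset J).filter fun f => Function.Injective f ∧ ∀ i, f i ∉ S

theorem mem_inj {r : ℕ} {J : Fin r → Finset ℕ} {S : Finset ℕ} {f : Fin r → ℕ} :
    f ∈ inj J S ↔ (∀ i, f i ∈ J i) ∧ Function.Injective f ∧ ∀ i, f i ∉ S := by
  unfold inj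
  rw [Finset.mem_filter, Fintype.mem_piFinset]

theorem snoc_inj {r : ℕ} (g : Fin (r + 1) → ℕ) : Function.Injective g ↔
    Function.Injective (Fin.init g) ∧ ∀ i, Fin.init g i ≠ g (Fin.last r) := by
  constructor
  · intro h
    refine ⟨fun i j hij => ?_, fun i hi => ?_⟩
    · have := h (show g i.castSucc = g j.castSucc from hij)
      exact Fin.castSucc_injective r this
    · have := h (show g i.castSucc = g (Fin.last r) from hi)
      exact absurd this (Fin.castSucc_lt_last i).ne
  · rintro ⟨h1, h2⟩ i j hij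
    refine Fin.lastCases (motive := fun i => ∀ j, g i = g j → i = j) ?_ ?_ i j hij
    · intro j
      refine Fin.lastCases ?_ ?_ j
      · intro _; rfl
      · intro j hj
        exact absurd hj.symm (h2 j)
    · intro i j
      refine Fin.lastCases ?_ ?_ j
      · intro hj
        exact absurd hj (h2 i)
      · intro j hj
        rw [h1 hj]

theorem inj_succ {r : ℕ} (J : Fin (r + 1) → Finset ℕ) (S : Finset ℕ) :
    (inj J S).card = ∑ f ∈ inj (Fin.init J) S, (J (Fin.last r) \ (S ∪ Finset.univ.image f)).card := by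
  classical
  have h1 : inj J S = (inj (Fin.init J) S).biUnion (fun f =>
      (J (Fin.last r) \ (S ∪ Finset.univ.image f)).image (fun x => (Fin.snoc f x : Fin (r + 1) → ℕ))) := by
    ext g
    rw [Finset.mem_biUnion, mem_inj]
    constructor
    · rintro ⟨a1, a2, a3⟩
      obtain ⟨b1, b2⟩ := (snoc_inj g).1 a2
      refine ⟨Fin.init g, mem_inj.2 ⟨fun i => a1 i.castSucc, b1, fun i => a3 i.castSucc⟩, ?_⟩
      rw [Finset.mem_image]
      refine ⟨g (Fin.last r), ?_, Fin.snoc_init_self g⟩
      rw [Finset.mem_sdiff, Finset.mem_union, not_or]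
      refine ⟨a1 _, a3 _, ?_⟩
      rw [Finset.mem_image]
      rintro ⟨i, -, hi⟩
      exact b2 i hi
    · rintro ⟨f, hf, hg⟩
      rw [Finset.mem_image] at hg
      obtain ⟨x, hx, rfl⟩ := hg
      rw [Finset.mem_sdiff, Finset.mem_union, not_or] at hx
      obtain ⟨x1, x2, x3⟩ := hx
      obtain ⟨f1, f2, f3⟩ := mem_inj.1 hf
      refine ⟨fun i => ?_, ?_, fun i => ?_⟩
      · refine Fin.lastCases ?_ (fun i => ?_) i
        · rw [Fin.snoc_last]; exact x1
        · rw [Fin.snoc_castSucc]; exact f1 i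
      · rw [snoc_inj, Fin.init_snoc, Fin.snoc_last]
        refine ⟨f2, fun i hi => x3 ?_⟩
        rw [Finset.mem_image]
        exact ⟨i, Finset.mem_univ i, hi⟩
      · refine Fin.lastCases ?_ (fun i => ?_) i
        · rw [Fin.snoc_last]; exact x2
        · rw [Fin.snoc_castSucc]; exact f3 i
  rw [h1, Finset.card_biUnion]
  · apply Finset.sum_congr rfl
    intro f _
    rw [Finset.card_image_of_injective]
    intro x y hxy
    have := congrFun hxy (Fin.last r)
    simpa [Fin.snoc_last] using this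
  · intro f _ f' _ hne
    rw [Function.onFun, Finset.disjoint_left]
    intro g hg hg'
    rw [Finset.mem_image] at hg hg'
    obtain ⟨x, -, rfl⟩ := hg
    obtain ⟨x', -, h⟩ := hg'
    apply hne
    have := congrArg Fin.init h
    rw [Fin.init_snoc, Fin.init_snoc] at this
    exact this.symm

theorem card_U_le {r : ℕ} (S : Finset ℕ) (f : Fin r → ℕ) : (S ∪ Finset.univ.image f).card ≤ S.card + r := by
  refine (Finset.card_union_le _ _).trans ?_
  have : (Finset.univ.image f).card ≤ r := by
    refine Finset.card_image_le.trans ?_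
    rw [Finset.card_univ, Fintype.card_fin]
  omega

/-- one more index: upper and lower bounds -/
theorem inj_succ_bd {r : ℕ} (J : Fin (r + 1) → Finset ℕ) (S : Finset ℕ) :
    (inj J S).card ≤ (inj (Fin.init J) S).card * (J (Fin.last r)).card ∧
    (inj (Fin.init J) S).card * ((J (Fin.last r)).card - (S.card + r)) ≤ (inj J S).card := by
  rw [inj_succ]
  constructor
  · rw [← smul_eq_mul, ← Finset.sum_const]
    exact Finset.sum_le_sum fun f _ => Finset.card_le_card Finset.sdiff_subset
  · rw [← smul_eq_mul, ← Finset.sum_const]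
    refine Finset.sum_le_sum fun f _ => ?_
    have h1 := Finset.le_card_sdiff (S ∪ Finset.univ.image f) (J (Fin.last r))
    have h2 := card_U_le S f
    omega

theorem inj_le {r : ℕ} (J : Fin r → Finset ℕ) (S : Finset ℕ) : (inj J S).card ≤ ∏ i, (J i).card := by
  induction r with
  | zero =>
    simp only [Finset.univ_eq_empty, Finset.prod_empty]
    refine (Finset.card_filter_le _ _).trans ?_
    rw [Fintype.card_piFinset]
    simp
  | succ r ih =>
    rw [Fin.prod_univ_castSucc]
    exact (inj_succ_bd J S).1.trans (Nat.mul_le_mul_right _ (ih _))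

theorem inj_ge {r : ℕ} (J : Fin r → Finset ℕ) (S : Finset ℕ) (q : ℕ) (hq : S.card + r ≤ q) :
    ∏ i, ((J i).card - q) ≤ (inj J S).card := by
  induction r with
  | zero =>
    simp only [Finset.univ_eq_empty, Finset.prod_empty]
    rw [Nat.one_le_iff_ne_zero, ← Nat.pos_iff_ne_zero, Finset.card_pos]
    exact ⟨Fin.elim0, mem_inj.2 ⟨fun i => i.elim0, fun i => i.elim0, fun i => i.elim0⟩⟩
  | succ r ih =>
    rw [Fin.prod_univ_castSucc]
    refine (Nat.mul_le_mul (ih (Fin.init J) (by omega)) ?_).trans (inj_succ_bd J S).2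
    omega

/-- tuples whose last entry is in `M` and whose other entries are in the sets `J m i` -/
noncomputable def tup {r : ℕ} (M : Finset ℕ) (J : ℕ → Fin r → Finset ℕ) : Finset (Fin (r + 1) → ℕ) :=
  open Classical in M.biUnion fun m => (inj (J m) {m}).image fun f => (Fin.snoc f m : Fin (r + 1) → ℕ)

theorem mem_tup {r : ℕ} {M : Finset ℕ} {J : ℕ → Fin r → Finset ℕ} {j : Fin (r + 1) → ℕ} :
    j ∈ tup M J ↔ Function.Injective j ∧ j (Fin.last r) ∈ M ∧ ∀ i : Fin r, j i.castSucc ∈ J (j (Fin.last r)) i := by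
  classical
  unfold tup
  rw [Finset.mem_biUnion]
  constructor
  · rintro ⟨m, hm, hj⟩
    rw [Finset.mem_image] at hj
    obtain ⟨f, hf, rfl⟩ := hj
    obtain ⟨f1, f2, f3⟩ := mem_inj.1 hf
    refine ⟨?_, ?_, fun i => ?_⟩
    · rw [snoc_inj, Fin.init_snoc, Fin.snoc_last]
      exact ⟨f2, fun i hi => f3 i (Finset.mem_singleton.2 hi)⟩
    · rw [Fin.snoc_last]; exact hm
    · rw [Fin.snoc_last, Fin.snoc_castSucc]; exact f1 i
  · rintro ⟨h1, h2, h3⟩
    obtain ⟨b1, b2⟩ := (snoc_inj j).1 h1
    refine ⟨j (Fin.last r), h2, ?_⟩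
    rw [Finset.mem_image]
    refine ⟨Fin.init j, mem_inj.2 ⟨fun i => h3 i, b1, fun i hi => b2 i (Finset.mem_singleton.1 hi)⟩, Fin.snoc_init_self j⟩

theorem sum_tup {r : ℕ} (M : Finset ℕ) (J : ℕ → Fin r → Finset ℕ) (g : ℕ → ℝ) :
    ∑ j ∈ tup M J, g (j (Fin.last r)) = ∑ m ∈ M, ((inj (J m) {m}).card : ℝ) * g m := by
  classical
  unfold tup
  rw [Finset.sum_biUnion]
  · apply Finset.sum_congr rfl
    intro m _
    rw [Finset.sum_image]
    · simp only [Fin.snoc_last, Finset.sum_const, nsmul_eq_mul]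
    · intro f _ f' _ h
      have := congrArg Fin.init h
      rwa [Fin.init_snoc, Fin.init_snoc] at this
  · intro m _ m' _ hne
    rw [Function.onFun, Finset.disjoint_left]
    intro g hg hg'
    rw [Finset.mem_image] at hg hg'
    obtain ⟨x, -, rfl⟩ := hg
    obtain ⟨x', -, h⟩ := hg'
    apply hne
    have := congrFun h (Fin.last r)
    rw [Fin.snoc_last, Fin.snoc_last] at this
    exact this.symm

theorem card_tup {r : ℕ} (M : Finset ℕ) (J : ℕ → Fin r → Finset ℕ) :
    ((tup M J).card : ℝ) = ∑ m ∈ M, ((inj (J m) {m}).card : ℝ) := by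
  have := sum_tup M J (fun _ => 1)
  simpa using this

/-- products near 1 -/
theorem prod_sub_one {r : ℕ} (x X : Fin r → ℝ) (hx : ∀ i, 0 ≤ x i) (hX : ∀ i, x i ≤ X i) :
    |∏ i, x i - 1| ≤ ∑ i, |x i - 1| * ∏ j, (1 + X j) := by
  induction r with
  | zero => simp
  | succ r ih =>
    have h1 : ∀ i, 1 ≤ 1 + X i := fun i => by linarith [hx i, hX i]
    have ih' := ih (fun i => x i.castSucc) (fun i => X i.castSucc) (fun i => hx _) (fun i => hX _)
    rw [Fin.prod_univ_castSucc, Fin.sum_univ_castSucc, Fin.prod_univ_castSucc]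
    set P := ∏ i : Fin r, x i.castSucc with hP
    set Q := ∏ i : Fin r, (1 + X i.castSucc) with hQ
    set l := x (Fin.last r) with hl
    have hQ1 : 1 ≤ Q := by
      calc (1 : ℝ) = ∏ _i : Fin r, (1 : ℝ) := by rw [Finset.prod_const_one]
        _ ≤ Q := Finset.prod_le_prod (fun i _ => zero_le_one) (fun i _ => h1 _)
    have hl0 : 0 ≤ l := hx _
    have hll : l ≤ 1 + X (Fin.last r) := by linarith [hX (Fin.last r)]
    have h2 : P * l - 1 = (P - 1) * l + (l - 1) := by ring
    have h3 : |P * l - 1| ≤ |P - 1| * l + |l - 1| := by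
      rw [h2]
      refine (abs_add_le _ _).trans ?_
      rw [abs_mul, abs_of_nonneg hl0]
    have h4 : ∑ i : Fin r, |x i.castSucc - 1| * (Q * (1 + X (Fin.last r))) = (∑ i : Fin r, |x i.castSucc - 1| * Q) * (1 + X (Fin.last r)) := by
      rw [Finset.sum_mul]
      exact Finset.sum_congr rfl fun i _ => by ring
    rw [h4]
    have h5 : |P - 1| * l ≤ (∑ i : Fin r, |x i.castSucc - 1| * Q) * (1 + X (Fin.last r)) :=
      mul_le_mul ih' hll hl0 (Finset.sum_nonneg fun i _ => mul_nonneg (abs_nonneg _) (by linarith))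
    have h6 : |l - 1| ≤ |l - 1| * (Q * (1 + X (Fin.last r))) := by
      have : 1 ≤ Q * (1 + X (Fin.last r)) := one_le_mul_of_one_le_of_one_le hQ1 (h1 _)
      nlinarith [abs_nonneg (l - 1)]
    linarith

end Pool.Agent.V8H36.KL
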