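import Mathlib

set_option autoImplicit false

/-! The sine-kernel determinant: limits. -/

open Filter Topology MeasureTheory

namespace Pool.Agent.V8H36.KL

/-- the matrix of the sine kernel -/
noncomputable def sK {n : ℕ} (v : Fin n → ℝ) : Matrix (Fin n) (Fin n) ℝ := fun i j => Real.sinc (Real.pi * (v i - v j))

/-- `det A(u_1, ..., u_r, 0)` -/
noncomputable def dA (r : ℕ) (u : Fin r → ℝ) : ℝ := (sK (Fin.snoc u 0 : Fin (r + 1) → ℝ)).det

theorem sinc_lim {f : ℝ → ℝ} {l : Filter ℝ} (h : Tendsto (fun x => |f x|) l atTop) : Tendsto (fun x => Real.sinc (Real.pi * f x)) l (𝓝 0) := by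
  have h1 : ∀ᶠ x in l, |Real.sinc (Real.pi * f x)| ≤ (Real.pi * |f x|)⁻¹ := by
    filter_upwards [h.eventually_gt_atTop 0] with x hx
    have h2 : Real.pi * f x ≠ 0 := mul_ne_zero Real.pi_ne_zero (abs_pos.1 hx)
    rw [Real.sinc_of_ne_zero h2, abs_div, abs_mul, abs_of_pos Real.pi_pos, div_eq_mul_inv]
    exact mul_le_of_le_one_left (by positivity) (Real.abs_sin_le_one _)
  have h2 : Tendsto (fun x => (Real.pi * |f x|)⁻¹) l (𝓝 0) := (h.const_mul_atTop Real.pi_pos).inv_tendsto_atTop
  exact squeeze_zero_norm' (by simpa using h1) h2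

theorem sK_bd {n : ℕ} (v : Fin n → ℝ) (i j : Fin n) : |sK v i j| ≤ 1 := Real.abs_sinc_le_one _

theorem sK_cont {n : ℕ} : Continuous (fun v : Fin n → ℝ => (sK v).det) := by
  apply Continuous.matrix_det
  apply continuous_matrix
  intro i j
  unfold sK
  exact Real.continuous_sinc.comp (by fun_prop)

theorem mdet_bd {n : ℕ} (M : Matrix (Fin n) (Fin n) ℝ) (hM : ∀ i j, |M i j| ≤ 1) : |M.det| ≤ n.factorial := by
  rw [Matrix.det_apply]
  refine (Finset.abs_sum_le_sum_abs _ _).trans ?_
  calc ∑ σ : Equiv.Perm (Fin n), |Equiv.Perm.sign σ • ∏ i, M (σ i) i| ≤ ∑ _σ : Equiv.Perm (Fin n), (1 : ℝ) := by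
        refine Finset.sum_le_sum fun σ _ => ?_
        have h1 : |Equiv.Perm.sign σ • ∏ i, M (σ i) i| = |∏ i, M (σ i) i| := by
          rcases Int.units_eq_one_or (Equiv.Perm.sign σ) with h | h <;> rw [h] <;> simp
        rw [h1, Finset.abs_prod]
        exact Finset.prod_le_one (fun i _ => abs_nonneg _) fun i _ => hM _ _
    _ = _ := by rw [Finset.sum_const, Finset.card_univ, Fintype.card_perm, Fintype.card_fin, nsmul_eq_mul, mul_one]

theorem det_bd {n : ℕ} (v : Fin n → ℝ) : |(sK v).det| ≤ n.factorial := mdet_bd _ fun _ _ => sK_bd v _ _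

theorem dA_bd (r : ℕ) (u : Fin r → ℝ) : |dA r u| ≤ (r + 1).factorial := det_bd _

theorem dA_cont (r : ℕ) : Continuous (dA r) := by
  unfold dA
  exact sK_cont.comp (by fun_prop)

theorem sK_diag {n : ℕ} (v : Fin n → ℝ) (i : Fin n) : sK v i i = 1 := by
  unfold sK
  rw [sub_self, mul_zero, Real.sinc_zero]

/-- one point far away -/
theorem lim_far (r : ℕ) (u : Fin r → ℝ) : Tendsto (fun x : ℝ => dA (r + 1) (Fin.snoc u x)) atTop (𝓝 (dA r u)) := by
  set i₀ : Fin (r + 2) := (Fin.last r).castSucc with hi₀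
  set V : ℝ → Fin (r + 2) → ℝ := fun x => Fin.snoc (Fin.snoc u x : Fin (r + 1) → ℝ) 0 with hV
  have hVi : ∀ x, V x i₀ = x := fun x => by
    simp only [hV, hi₀, Fin.snoc_castSucc, Fin.snoc_last]
  have hVj : ∀ j, j ≠ i₀ → ∃ c : ℝ, ∀ x, V x j = c := by
    intro j
    refine Fin.lastCases ?_ (fun k => ?_) j
    · intro _
      exact ⟨0, fun x => by simp only [hV, Fin.snoc_last]⟩
    · refine Fin.lastCases ?_ (fun k => ?_) k
      · intro h
        exact absurd rfl h
      · intro _
        exact ⟨u k, fun x => by simp only [hV, Fin.snoc_castSucc]⟩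
  have hsub : ∀ x, ∀ i, V x (i₀.succAbove i) = (Fin.snoc u 0 : Fin (r + 1) → ℝ) i := by
    intro x i
    refine Fin.lastCases ?_ (fun k => ?_) i
    · have e : i₀.succAbove (Fin.last r) = Fin.last (r + 1) := by
        rw [Fin.succAbove_of_le_castSucc _ _ (le_refl _), Fin.succ_last]
      rw [e]
      simp only [hV, Fin.snoc_last]
    · have e : i₀.succAbove k.castSucc = k.castSucc.castSucc := by
        apply Fin.succAbove_of_castSucc_lt
        rw [hi₀, Fin.castSucc_lt_castSucc_iff]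
        exact Fin.castSucc_lt_last k
      rw [e]
      simp only [hV, Fin.snoc_castSucc]
  have hdet : ∀ x, dA (r + 1) (Fin.snoc u x) = ∑ j : Fin (r + 2), (-1 : ℝ) ^ ((i₀ : ℕ) + (j : ℕ)) * sK (V x) i₀ j *
      ((sK (V x)).submatrix i₀.succAbove j.succAbove).det := by
    intro x
    unfold dA
    exact Matrix.det_succ_row _ i₀
  simp_rw [hdet]
  have hlim : dA r u = ∑ j : Fin (r + 2), if j = i₀ then dA r u else 0 := by
    rw [Finset.sum_ite_eq' Finset.univ i₀, if_pos (Finset.mem_univ _)]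
  rw [hlim]
  refine tendsto_finsetSum _ fun j _ => ?_
  by_cases hj : j = i₀
  · rw [if_pos hj, hj]
    have e : ∀ x, (-1 : ℝ) ^ ((i₀ : ℕ) + (i₀ : ℕ)) * sK (V x) i₀ i₀ * ((sK (V x)).submatrix i₀.succAbove i₀.succAbove).det = dA r u := by
      intro x
      rw [sK_diag, mul_one, ← two_mul, pow_mul, neg_one_sq, one_pow, one_mul]
      unfold dA
      congr 1
      ext i k
      rw [Matrix.submatrix_apply]
      unfold sK
      rw [hsub, hsub]
    simp_rw [e]
    exact tendsto_const_nhds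
  · rw [if_neg hj]
    obtain ⟨c, hc⟩ := hVj j hj
    have h1 : Tendsto (fun x => sK (V x) i₀ j) atTop (𝓝 0) := by
      unfold sK
      simp_rw [hVi, hc]
      apply sinc_lim (f := fun x => x - c)
      exact tendsto_abs_atTop_atTop.comp (tendsto_atTop_add_const_right _ (-c) tendsto_id)
    have h2 : Tendsto (fun x => (r + 1).factorial * |sK (V x) i₀ j|) atTop (𝓝 0) := by
      have := (h1.abs).const_mul ((r + 1).factorial : ℝ)
      simpa using this
    refine squeeze_zero_norm (fun x => ?_) h2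
    rw [Real.norm_eq_abs, abs_mul, abs_mul, abs_pow, abs_neg, abs_one, one_pow, one_mul, mul_comm]
    apply mul_le_mul_of_nonneg_right _ (abs_nonneg _)
    exact mdet_bd _ fun a b => sK_bd _ _ _

/-- separated points -/
theorem lim_sep (r : ℕ) (u : Fin r → ℝ) (h : ∀ i j : Fin (r + 1), i ≠ j → (Fin.snoc u 0 : Fin (r + 1) → ℝ) i ≠ (Fin.snoc u 0 : Fin (r + 1) → ℝ) j) :
    Tendsto (fun x : ℝ => dA r (fun i => x * u i)) atTop (𝓝 1) := by
  set w : Fin (r + 1) → ℝ := Fin.snoc u 0 with hw
  have e1 : ∀ x : ℝ, (Fin.snoc (fun i => x * u i) 0 : Fin (r + 1) → ℝ) = fun i => x * w i := by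
    intro x
    funext i
    refine Fin.lastCases ?_ (fun k => ?_) i
    · rw [hw, Fin.snoc_last, Fin.snoc_last, mul_zero]
    · rw [hw, Fin.snoc_castSucc, Fin.snoc_castSucc]
  have h1 : Tendsto (fun x : ℝ => sK (fun i => x * w i)) atTop (𝓝 (1 : Matrix (Fin (r + 1)) (Fin (r + 1)) ℝ)) := by
    refine tendsto_pi_nhds.2 fun i => tendsto_pi_nhds.2 fun j => ?_
    by_cases hij : i = j
    · rw [hij, Matrix.one_apply_eq]
      simp_rw [sK_diag]
      exact tendsto_const_nhds
    · rw [Matrix.one_apply_ne hij]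
      unfold sK
      apply sinc_lim (f := fun x => x * w i - x * w j)
      have h2 : w i - w j ≠ 0 := sub_ne_zero.2 (h i j hij)
      have h3 : (fun x : ℝ => |x * w i - x * w j|) = fun x => |x| * |w i - w j| := by
        funext x
        rw [← mul_sub, abs_mul]
      rw [h3]
      exact tendsto_abs_atTop_atTop.atTop_mul_const (abs_pos.2 h2)
  have h2 : Continuous (fun M : Matrix (Fin (r + 1)) (Fin (r + 1)) ℝ => M.det) := Continuous.matrix_det continuous_id
  have h3 := (h2.tendsto 1).comp h1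
  rw [Matrix.det_one] at h3
  refine h3.congr fun x => ?_
  simp only [Function.comp]
  unfold dA
  rw [e1]

/-- Cesàro means -/
theorem cesaro {G : ℝ → ℝ} (hG : Continuous G) {M l : ℝ} (hM : ∀ x, |G x| ≤ M) (h : Tendsto G atTop (𝓝 l)) :
    Tendsto (fun R : ℝ => (∫ x in (0 : ℝ)..R, G x) / R) atTop (𝓝 l) := by
  have e : ∀ᶠ R : ℝ in atTop, ∫ w in (0 : ℝ)..1, G (R * w) = (∫ x in (0 : ℝ)..R, G x) / R := by
    filter_upwards [eventually_gt_atTop (0 : ℝ)] with R hR
    have := intervalIntegral.integral_comp_mul_left (a := 0) (b := 1) G hR.ne'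
    rw [this, mul_zero, mul_one, smul_eq_mul]
    field_simp
  refine Tendsto.congr' e ?_
  have h1 : Tendsto (fun R : ℝ => ∫ w in (0 : ℝ)..1, G (R * w)) atTop (𝓝 (∫ _w in (0 : ℝ)..1, l)) := by
    refine intervalIntegral.tendsto_integral_filter_of_dominated_convergence (fun _ => M) ?_ ?_ ?_ ?_
    · exact Eventually.of_forall fun R => (hG.comp (continuous_const.mul continuous_id)).aestronglyMeasurable
    · exact Eventually.of_forall fun R => Eventually.of_forall fun w _ => by rw [Real.norm_eq_abs]; exact hM _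
    · exact intervalIntegrable_const
    · refine Eventually.of_forall fun w hw => ?_
      rw [Set.uIoc_of_le zero_le_one] at hw
      exact h.comp (tendsto_id.atTop_mul_const hw.1)
  rw [intervalIntegral.integral_const, sub_zero, one_smul] at h1
  exact h1

/-- splitting off the last coordinate -/
theorem int_snoc {r : ℕ} {F : (Fin (r + 1) → ℝ) → ℝ} (hF : Continuous F) (a b : Fin r → ℝ) {R : ℝ} (hR : 0 ≤ R) :
    ∫ v in Set.Icc (Fin.snoc a 0 : Fin (r + 1) → ℝ) (Fin.snoc b R), F v =
      ∫ x in (0 : ℝ)..R, ∫ u in Set.Icc a b, F (Fin.snoc u x) := by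
  set e := (MeasurableEquiv.piFinSuccAbove (fun _ : Fin (r + 1) => ℝ) (Fin.last r)).symm with he
  have hmp : MeasurePreserving e := (volume_preserving_piFinSuccAbove (fun _ : Fin (r + 1) => ℝ) (Fin.last r)).symm _
  have hes : ∀ p : ℝ × (Fin r → ℝ), e p = Fin.snoc p.2 p.1 := by
    intro p
    rw [he]
    simp only [MeasurableEquiv.piFinSuccAbove_symm_apply]
    exact Fin.insertNth_last' p.1 p.2
  have h1 := hmp.setIntegral_preimage_emb e.measurableEmbedding F (Set.Icc (Fin.snoc a 0 : Fin (r + 1) → ℝ) (Fin.snoc b R))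
  have h2 : e ⁻¹' Set.Icc (Fin.snoc a 0 : Fin (r + 1) → ℝ) (Fin.snoc b R) = Set.Icc 0 R ×ˢ Set.Icc a b := by
    ext p
    rw [Set.mem_preimage, hes, Set.mem_Icc, Pi.le_def, Pi.le_def, Set.mem_prod, Set.mem_Icc, Set.mem_Icc, Pi.le_def, Pi.le_def]
    constructor
    · rintro ⟨g1, g2⟩
      refine ⟨⟨?_, ?_⟩, fun i => ?_, fun i => ?_⟩
      · have := g1 (Fin.last r); rwa [Fin.snoc_last, Fin.snoc_last] at this
      · have := g2 (Fin.last r); rwa [Fin.snoc_last, Fin.snoc_last] at this
      · have := g1 i.castSucc; rwa [Fin.snoc_castSucc, Fin.snoc_castSucc] at this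
      · have := g2 i.castSucc; rwa [Fin.snoc_castSucc, Fin.snoc_castSucc] at this
    · rintro ⟨⟨g1, g2⟩, g3, g4⟩
      refine ⟨fun i => ?_, fun i => ?_⟩
      · refine Fin.lastCases ?_ (fun k => ?_) i
        · rw [Fin.snoc_last, Fin.snoc_last]; exact g1
        · rw [Fin.snoc_castSucc, Fin.snoc_castSucc]; exact g3 k
      · refine Fin.lastCases ?_ (fun k => ?_) i
        · rw [Fin.snoc_last, Fin.snoc_last]; exact g2
        · rw [Fin.snoc_castSucc, Fin.snoc_castSucc]; exact g4 k
  rw [← h1, h2]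
  have hc : Continuous (fun p : ℝ × (Fin r → ℝ) => F (e p)) := by
    have : (fun p : ℝ × (Fin r → ℝ) => F (e p)) = fun p => F (Fin.snoc p.2 p.1) := by
      funext p; rw [hes]
    rw [this]
    exact hF.comp (by fun_prop)
  rw [MeasureTheory.Measure.volume_eq_prod, setIntegral_prod _ ((hc.continuousOn).integrableOn_compact (isCompact_Icc.prod isCompact_Icc)),
    intervalIntegral.integral_of_le hR, ← integral_Icc_eq_integral_Ioc]
  simp_rw [hes]

/-- **the determinants are consistent** -/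
theorem det_consistent (r : ℕ) (a b : Fin r → ℝ) :
    Tendsto (fun R : ℝ => (∫ v in Set.Icc (Fin.snoc a 0 : Fin (r + 1) → ℝ) (Fin.snoc b R), dA (r + 1) v) / R) atTop
      (𝓝 (∫ u in Set.Icc a b, dA r u)) := by
  set G : ℝ → ℝ := fun x => ∫ u in Set.Icc a b, dA (r + 1) (Fin.snoc u x) with hG
  have hc : Continuous (fun p : ℝ × (Fin r → ℝ) => dA (r + 1) (Fin.snoc p.2 p.1)) := (dA_cont (r + 1)).comp (by fun_prop)
  have hGc : Continuous G := continuous_parametric_integral_of_continuous
    (f := fun (x : ℝ) (u : Fin r → ℝ) => dA (r + 1) (Fin.snoc u x)) hc isCompact_Icc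
  have hvol : volume (Set.Icc a b) < ⊤ := isCompact_Icc.measure_lt_top
  have hGb : ∀ x, |G x| ≤ ((r + 1) + 1).factorial * (volume (Set.Icc a b)).toReal := by
    intro x
    have := norm_setIntegral_le_of_norm_le_const (f := fun u => dA (r + 1) (Fin.snoc u x)) (s := Set.Icc a b) (μ := volume)
      (C := (((r + 1) + 1).factorial : ℝ)) hvol (fun u _ => by rw [Real.norm_eq_abs]; exact dA_bd _ _)
    rw [Real.norm_eq_abs] at this
    exact this
  have hlim : Tendsto G atTop (𝓝 (∫ u in Set.Icc a b, dA r u)) := by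
    refine tendsto_integral_filter_of_dominated_convergence (fun _ => (((r + 1) + 1).factorial : ℝ)) ?_ ?_ ?_ ?_
    · exact Eventually.of_forall fun x => ((dA_cont (r + 1)).comp (by fun_prop)).aestronglyMeasurable
    · exact Eventually.of_forall fun x => Eventually.of_forall fun u => by rw [Real.norm_eq_abs]; exact dA_bd _ _
    · exact integrableOn_const hvol.ne
    · exact Eventually.of_forall fun u => lim_far r u
  have h1 := cesaro hGc hGb hlim
  refine h1.congr' ?_
  filter_upwards [eventually_ge_atTop (0 : ℝ)] with R hR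
  rw [int_snoc (dA_cont (r + 1)) a b hR]

end Pool.Agent.V8H36.KL
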