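import Pool.Agent.V8H36.KL.Mes
import Pool.Agent.Q61.UM.SAMPb

set_option autoImplicit false

/-! From sums over the zeros to integrals. -/

open Filter Topology MeasureTheory Complex
open scoped ComplexConjugate

namespace Pool.Agent.V8H36.KL

open Pool.Agent.Q97.UM
open Pool.Agent.Q210.UM (gint V_cont nz_mono Zw_sub nz_eq)
open Pool.Agent.Q61.UM (dp_var bd N2_bd ind_in)

/-- a crude bound for the number of zeros in a window -/
theorem nz_crude : ∃ C : ℝ, 1 ≤ C ∧ ∀ T t r : ℝ, 16 ≤ T → T / 2 ≤ t → t ≤ 4 * T → r ≤ 1 / 2 →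
    (nz t r : ℝ) ≤ C * Real.log T := by
  obtain ⟨C, hC, h⟩ := H370.zcount H370.good_zeta
  refine ⟨2 * C + 1, by linarith, fun T t r hT h1 h2 hr => ?_⟩
  have hlog : 1 < Real.log T := by
    rw [Real.lt_log_iff_exp_lt (by linarith)]
    have := Real.exp_one_lt_d9
    linarith
  have h3 := h t (by linarith)
  have hfin := H370.zset_finite H370.good_zeta (t - 1) (t + 1) (by linarith)
  have hsub : Zw t r ⊆ H370.zset riemannZeta (t - 1) (t + 1) := by
    rintro ρ ⟨a0, a1, a2, a3⟩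
    have a5 := abs_le.1 a3
    exact ⟨a1, a2, by linarith [a5.1], by linarith [a5.2], a0⟩
  have hfinZ := hfin.subset hsub
  have h4 : nz t r ≤ H370.NN riemannZeta (t - 1) (t + 1) := by
    unfold nz H370.NN H370.mult
    rw [finsum_mem_eq_finite_toFinset_sum _ hfinZ, finsum_mem_eq_finite_toFinset_sum _ hfin]
    apply Finset.sum_le_sum_of_subset
    intro x hx
    rw [Set.Finite.mem_toFinset] at hx ⊢
    exact hsub hx
  have h5 : Real.log t ≤ 2 * Real.log T := by
    calc Real.log t ≤ Real.log (T ^ 2) := Real.log_le_log (by linarith) (by nlinarith)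
      _ = 2 * Real.log T := by rw [Real.log_pow]; norm_num
  calc (nz t r : ℝ) ≤ (H370.NN riemannZeta (t - 1) (t + 1) : ℝ) := by exact_mod_cast h4
    _ ≤ C * Real.log t := h3
    _ ≤ C * (2 * Real.log T) := by gcongr
    _ = 2 * C * Real.log T := by ring
    _ ≤ (2 * C + 1) * Real.log T := by nlinarith

lemma sum_union_le [DecidableEq ℂ] (s t : Finset ℂ) (f : ℂ → ℕ) :
    ∑ x ∈ s ∪ t, f x ≤ ∑ x ∈ s, f x + ∑ x ∈ t, f x := by
  have h : ∑ x ∈ s ∪ t, f x + ∑ x ∈ s ∩ t, f x = ∑ x ∈ s, f x + ∑ x ∈ t, f x := Finset.sum_union_inter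
  omega

/-- counts in nearby windows -/
theorem nz_union {c h c' h' d e δ : ℝ} (hsub : Zw c h ⊆ Zw c' h' ∪ (Zw d δ ∪ Zw e δ)) :
    nz c h ≤ nz c' h' + (nz d δ + nz e δ) := by
  classical
  rw [nz_eq hZ2, nz_eq hZ2, nz_eq hZ2, nz_eq hZ2]
  have h1 : (hZ2.1 c h).toFinset ⊆ (hZ2.1 c' h').toFinset ∪ ((hZ2.1 d δ).toFinset ∪ (hZ2.1 e δ).toFinset) := by
    intro x hx
    rw [Set.Finite.mem_toFinset] at hx
    have := hsub hx
    simp only [Finset.mem_union, Set.Finite.mem_toFinset]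
    exact this
  refine (Finset.sum_le_sum_of_subset h1).trans ?_
  refine (sum_union_le _ _ _).trans ?_
  exact Nat.add_le_add_left (sum_union_le _ _ _) _

/-- moving a window -/
theorem nz_shift {t γ c h δ : ℝ} (hd : |t - γ| ≤ δ) :
    nz (γ + c) h ≤ nz (t + c) h + (nz (t + (c - h)) δ + nz (t + (c + h)) δ) ∧
    nz (t + c) h ≤ nz (γ + c) h + (nz (t + (c - h)) δ + nz (t + (c + h)) δ) := by
  obtain ⟨d1, d2⟩ := abs_le.1 hd
  constructor
  · apply nz_union
    rintro ρ ⟨a0, a1, a2, a3⟩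
    obtain ⟨b1, b2⟩ := abs_le.1 a3
    by_cases h1 : |ρ.im - (t + c)| ≤ h
    · exact Or.inl ⟨a0, a1, a2, h1⟩
    right
    rw [abs_le, not_and_or, not_le, not_le] at h1
    rcases h1 with h1 | h1
    · exact Or.inl ⟨a0, a1, a2, by rw [abs_le]; constructor <;> linarith⟩
    · exact Or.inr ⟨a0, a1, a2, by rw [abs_le]; constructor <;> linarith⟩
  · apply nz_union
    rintro ρ ⟨a0, a1, a2, a3⟩
    obtain ⟨b1, b2⟩ := abs_le.1 a3
    by_cases h1 : |ρ.im - (γ + c)| ≤ h
    · exact Or.inl ⟨a0, a1, a2, h1⟩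
    right
    rw [abs_le, not_and_or, not_le, not_le] at h1
    rcases h1 with h1 | h1
    · exact Or.inl ⟨a0, a1, a2, by rw [abs_le]; constructor <;> linarith⟩
    · exact Or.inr ⟨a0, a1, a2, by rw [abs_le]; constructor <;> linarith⟩

/-- Sobolev's inequality -/
theorem sob (N : ℕ) (b : ℕ → ℂ) {L : ℝ} (hL : 0 < L) (γ : ℝ) :
    ‖dp N b γ‖ ^ 2 ≤ ∫ t in (γ - 1 / L)..(γ + 1 / L), (3 / 2 * L * ‖dp N b t‖ ^ 2 + L⁻¹ * ‖dp N (bd b) t‖ ^ 2) := by
  set r := 1 / L with hr
  have hr0 : 0 < r := by positivity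
  have hVc : Continuous (fun t : ℝ => ‖dp N b t‖ ^ 2) := V_cont hDPM N b
  have hVc' : Continuous (fun t : ℝ => ‖dp N (bd b) t‖ ^ 2) := V_cont hDPM N (bd b)
  set k : ℝ → ℝ := fun t => L * ‖dp N b t‖ ^ 2 + L⁻¹ * ‖dp N (bd b) t‖ ^ 2 with hk
  have hkc : Continuous k := by fun_prop
  have hk0 : ∀ t, 0 ≤ k t := fun t => by positivity
  have h1 : ∀ t ∈ Set.Icc (γ - r) (γ + r), ‖dp N b γ‖ ^ 2 ≤ ‖dp N b t‖ ^ 2 + ∫ u in (γ - r)..(γ + r), k u := by
    intro t ht
    have h2 := dp_var hDPM N b hL t γ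
    have h3 : |∫ u in t..γ, k u| ≤ ∫ u in (γ - r)..(γ + r), k u := by
      rw [intervalIntegral.abs_integral_eq_abs_integral_uIoc, abs_of_nonneg (setIntegral_nonneg measurableSet_uIoc fun u _ => hk0 u),
        intervalIntegral.integral_of_le (by linarith)]
      apply setIntegral_mono_set
      · exact (hkc.integrableOn_Icc (a := γ - r) (b := γ + r)).mono_set Set.Ioc_subset_Icc_self
      · exact Eventually.of_forall hk0
      · have hss : Set.uIoc t γ ⊆ Set.Ioc (γ - r) (γ + r) := by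
          rw [Set.uIoc]
          apply Set.Ioc_subset_Ioc
          · exact le_min ht.1 (by linarith)
          · exact max_le ht.2 (by linarith)
        exact Eventually.of_forall hss
    have h4 := abs_le.1 h2
    linarith [h4.2]
  have h2 := intervalIntegral.integral_mono_on (a := γ - r) (b := γ + r) (by linarith)
    (continuous_const.intervalIntegrable _ _ : IntervalIntegrable (fun _ : ℝ => ‖dp N b γ‖ ^ 2) volume (γ - r) (γ + r))
    ((hVc.add continuous_const).intervalIntegrable _ _ : IntervalIntegrable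
      (fun t : ℝ => ‖dp N b t‖ ^ 2 + ∫ u in (γ - r)..(γ + r), k u) volume (γ - r) (γ + r)) h1
  simp only [Pi.add_apply] at h2
  rw [intervalIntegral.integral_const, intervalIntegral.integral_add (hVc.intervalIntegrable _ _)
    (continuous_const.intervalIntegrable _ _), intervalIntegral.integral_const, smul_eq_mul, smul_eq_mul] at h2
  have e1 : γ + r - (γ - r) = 2 * r := by ring
  rw [e1] at h2
  have h3 : ∫ t in (γ - r)..(γ + r), (3 / 2 * L * ‖dp N b t‖ ^ 2 + L⁻¹ * ‖dp N (bd b) t‖ ^ 2) =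
      L / 2 * (∫ t in (γ - r)..(γ + r), ‖dp N b t‖ ^ 2) + ∫ u in (γ - r)..(γ + r), k u := by
    rw [← intervalIntegral.integral_const_mul, ← intervalIntegral.integral_add
      ((hVc.intervalIntegrable _ _).const_mul _) (hkc.intervalIntegrable _ _)]
    apply intervalIntegral.integral_congr
    intro t _
    simp only [hk]
    ring
  rw [h3]
  have h4 := mul_le_mul_of_nonneg_left h2 (by positivity : 0 ≤ L / 2)
  have e2 : L / 2 * (2 * r * ‖dp N b γ‖ ^ 2) = ‖dp N b γ‖ ^ 2 := by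
    rw [hr]; field_simp
  have e3 : L / 2 * ((∫ t in (γ - r)..(γ + r), ‖dp N b t‖ ^ 2) + 2 * r * ∫ u in (γ - r)..(γ + r), k u) =
      L / 2 * (∫ t in (γ - r)..(γ + r), ‖dp N b t‖ ^ 2) + ∫ u in (γ - r)..(γ + r), k u := by
    rw [hr]; field_simp
  rw [e2, e3] at h4
  exact h4

open Classical in
/-- sums over the inner zeros against integrals -/
theorem disc_cont {T L M : ℝ} (hT : 4 ≤ T) (hL : 0 < L) (hL1 : 1 / L ≤ T / 2) (N : ℕ) (b : ℕ → ℂ) {G0 F : ℝ → ℝ} (hF : Measurable F)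
    (hF0 : ∀ t, 0 ≤ F t) (hFM : ∀ t, T ≤ t → t ≤ 2 * T → F t ≤ M) (hG0 : ∀ γ, 0 ≤ G0 γ)
    (hle : ∀ γ t, |t - γ| ≤ 1 / L → G0 γ ≤ F t) :
    ∑ s ∈ (H370.Zf riemannZeta T (2 * T)).filter (fun s => T + 1 / L ≤ s.im ∧ s.im ≤ 2 * T - 1 / L),
      (mz s : ℝ) * (G0 s.im * ‖dp N b s.im‖ ^ 2) ≤
    ∫ t in T..(2 * T), ((nz t (1 / L) : ℝ) * F t) * (3 / 2 * L * ‖dp N b t‖ ^ 2 + L⁻¹ * ‖dp N (bd b) t‖ ^ 2) := by
  set r := 1 / L with hr
  have hr0 : 0 < r := by positivity
  have hVc : Continuous (fun t : ℝ => ‖dp N b t‖ ^ 2) := V_cont hDPM N b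
  have hVc' : Continuous (fun t : ℝ => ‖dp N (bd b) t‖ ^ 2) := V_cont hDPM N (bd b)
  set W : ℝ → ℝ := fun t => 3 / 2 * L * ‖dp N b t‖ ^ 2 + L⁻¹ * ‖dp N (bd b) t‖ ^ 2 with hW
  have hWc : Continuous W := by fun_prop
  have hW0 : ∀ t, 0 ≤ W t := fun t => by positivity
  have hFW : ∀ x y : ℝ, T ≤ x → x ≤ y → y ≤ 2 * T → IntervalIntegrable (fun t => F t * W t) volume x y :=
    fun x y h1 h2 h3 => gint hF h2 hF0 (fun s a1 a2 => hFM s (by linarith) (by linarith)) hWc hW0
  set S := (H370.Zf riemannZeta T (2 * T)).filter (fun s => T + r ≤ s.im ∧ s.im ≤ 2 * T - r) with hS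
  have hind : ∀ s : ℂ, IntervalIntegrable (Set.indicator (Set.Icc (s.im - r) (s.im + r)) (fun t => F t * W t)) volume T (2 * T) := by
    intro s
    rw [intervalIntegrable_iff]
    exact (intervalIntegrable_iff.1 (hFW T (2 * T) le_rfl (by linarith) le_rfl)).indicator measurableSet_Icc
  have h1 : ∀ s ∈ S, (mz s : ℝ) * (G0 s.im * ‖dp N b s.im‖ ^ 2) ≤
      ∫ t in T..(2 * T), (mz s : ℝ) * Set.indicator (Set.Icc (s.im - r) (s.im + r)) (fun t => F t * W t) t := by
    intro s hs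
    rw [hS, Finset.mem_filter] at hs
    obtain ⟨-, hs1, hs2⟩ := hs
    rw [intervalIntegral.integral_const_mul]
    apply mul_le_mul_of_nonneg_left _ (Nat.cast_nonneg _)
    rw [ind_in (by linarith) (by linarith) (by linarith)]
    calc G0 s.im * ‖dp N b s.im‖ ^ 2 ≤ G0 s.im * ∫ t in (s.im - r)..(s.im + r), W t :=
          mul_le_mul_of_nonneg_left (sob N b hL s.im) (hG0 _)
      _ = ∫ t in (s.im - r)..(s.im + r), G0 s.im * W t := by rw [intervalIntegral.integral_const_mul]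
      _ ≤ _ := by
          refine intervalIntegral.integral_mono_on (by linarith) ((hWc.intervalIntegrable _ _).const_mul _)
            (hFW _ _ (by linarith) (by linarith) (by linarith)) fun t ht => ?_
          refine mul_le_mul_of_nonneg_right (hle _ _ ?_) (hW0 t)
          rw [abs_le]
          constructor <;> linarith [ht.1, ht.2]
  refine (Finset.sum_le_sum h1).trans ?_
  rw [← intervalIntegral.integral_finsetSum fun s _ => (hind s).const_mul _]
  have mnz : Measurable (fun t : ℝ => (nz t r : ℝ)) := nz_meas r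
  refine intervalIntegral.integral_mono_on (by linarith) ?_ ?_ fun t ht => ?_
  · have := IntervalIntegrable.sum S (f := fun s x => (mz s : ℝ) *
      Set.indicator (Set.Icc (s.im - r) (s.im + r)) (fun t => F t * W t) x) fun s _ => (hind s).const_mul _
    refine this.congr (fun x _ => ?_)
    rw [Finset.sum_apply]
  · refine gint (g := fun t => (nz t r : ℝ) * F t) (M := (nz 0 (4 * T) : ℝ) * M) (mnz.mul hF) (by linarith)
      (fun s => mul_nonneg (Nat.cast_nonneg _) (hF0 s)) (fun s s1 s2 => ?_) hWc hW0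
    have h2 : (nz s r : ℝ) ≤ nz 0 (4 * T) := by
      have := nz_mono hZ2 (Zw_sub (t := s) (r := r) (t' := 0) (r' := 4 * T)
        (by rw [sub_zero, abs_of_nonneg (by linarith)]; linarith))
      exact_mod_cast this
    exact mul_le_mul h2 (hFM s s1 s2) (hF0 s) (Nat.cast_nonneg _)
  · have e1 : ∑ s ∈ S, (mz s : ℝ) * Set.indicator (Set.Icc (s.im - r) (s.im + r)) (fun t => F t * W t) t =
        (∑ s ∈ S.filter (fun s => |s.im - t| ≤ r), (mz s : ℝ)) * (F t * W t) := by
      rw [Finset.sum_filter (s := S) (p := fun s : ℂ => |s.im - t| ≤ r), Finset.sum_mul]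
      refine Finset.sum_congr rfl fun s _ => ?_
      by_cases h : |s.im - t| ≤ r
      · rw [if_pos h, Set.indicator_of_mem ((Pool.Agent.Q61.UM.mem_win _ _ _).2 h)]
      · rw [if_neg h, Set.indicator_of_notMem (fun h' => h ((Pool.Agent.Q61.UM.mem_win _ _ _).1 h'))]
        ring
    have e2 : (∑ s ∈ S.filter (fun s => |s.im - t| ≤ r), (mz s : ℝ)) ≤ (nz t r : ℝ) := by
      rw [nz_eq hZ2]
      push_cast
      apply Finset.sum_le_sum_of_subset_of_nonneg
      · intro s hs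
        rw [Finset.mem_filter, hS, Finset.mem_filter, H370.mem_Zf H370.good_zeta (by linarith)] at hs
        rw [Set.Finite.mem_toFinset]
        obtain ⟨⟨⟨a1, a2, a3, a4, a5⟩, -⟩, a6⟩ := hs
        exact ⟨a5, a1, a2, a6⟩
      · intro s _ _
        exact Nat.cast_nonneg _
    rw [e1]
    calc _ ≤ (nz t r : ℝ) * (F t * W t) := mul_le_mul_of_nonneg_right e2 (mul_nonneg (hF0 t) (hW0 t))
      _ = _ := by ring

end Pool.Agent.V8H36.KL
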