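import Pool.Agent.H382R2.Final0
import Pool.Agent.Q97.UM.Base3

set_option autoImplicit false

/-! Index bookkeeping: ordinates listed with multiplicity against counts of zeros. -/

open Complex Filter Topology Set

namespace Pool.Agent.V8H36.KL

open Pool.Agent.Q97.UM (Zw nz)

theorem hZ : Pool.Agent.Q97.UM.S_ZF2 := Pool.Agent.Q178.UM.ZF2.t_ZF2

/-- the zeros with ordinates in `(0, t]` -/
noncomputable def Z0 (t : ℝ) : Finset ℂ := (SG.ZS_finite t).toFinset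

theorem mem_Z0 {t : ℝ} {s : ℂ} : s ∈ Z0 t ↔ riemannZeta s = 0 ∧ 0 < s.re ∧ s.re < 1 ∧ 0 < s.im ∧ s.im ≤ t := by
  unfold Z0
  rw [Set.Finite.mem_toFinset]
  rfl

theorem NZ_Z0 (t : ℝ) : SG.NZ t = ∑ s ∈ Z0 t, SG.zmult s := SG.NZ_eq t

/-- number of zeros with ordinate smaller than `g` -/
noncomputable def NZlt (g : ℝ) : ℕ := ∑ s ∈ (Z0 g).filter (fun s => s.im < g), SG.zmult s

theorem NZ_le_lt {t g : ℝ} (h : t < g) : SG.NZ t ≤ NZlt g := by
  rw [NZ_Z0]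
  unfold NZlt
  apply Finset.sum_le_sum_of_subset
  intro s hs
  rw [mem_Z0] at hs
  rw [Finset.mem_filter, mem_Z0]
  exact ⟨⟨hs.1, hs.2.1, hs.2.2.1, hs.2.2.2.1, by linarith [hs.2.2.2.2]⟩, by linarith [hs.2.2.2.2]⟩

theorem lt_exists (g : ℝ) : ∃ t : ℝ, t < g ∧ NZlt g ≤ SG.NZ t := by
  classical
  set A := (Z0 g).filter (fun s => s.im < g) with hA
  obtain ⟨t, ht, htA⟩ : ∃ t : ℝ, t < g ∧ ∀ s ∈ A, s.im ≤ t := by
    by_cases hne : A.Nonempty
    · obtain ⟨s0, hs0, hmax⟩ := A.exists_max_image (fun s => s.im) hne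
      exact ⟨s0.im, (Finset.mem_filter.1 hs0).2, hmax⟩
    · refine ⟨g - 1, by linarith, fun s hs => ?_⟩
      exact absurd ⟨s, hs⟩ hne
  refine ⟨t, ht, ?_⟩
  rw [NZ_Z0]
  unfold NZlt
  apply Finset.sum_le_sum_of_subset
  intro s hs
  have h2 := htA s hs
  rw [Finset.mem_filter, mem_Z0] at hs
  rw [mem_Z0]
  exact ⟨hs.1.1, hs.1.2.1, hs.1.2.2.1, hs.1.2.2.2.1, h2⟩

theorem NZ_split (g : ℝ) : SG.NZ g = NZlt g + ∑ s ∈ (Z0 g).filter (fun s => s.im = g), SG.zmult s := by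
  classical
  rw [NZ_Z0]
  unfold NZlt
  rw [← Finset.sum_filter_add_sum_filter_not (Z0 g) (fun s => s.im < g)]
  congr 1
  apply Finset.sum_congr _ (fun _ _ => rfl)
  ext s
  simp only [Finset.mem_filter, mem_Z0]
  constructor
  · rintro ⟨⟨a, b, c, d, e⟩, f⟩
    exact ⟨⟨a, b, c, d, e⟩, le_antisymm e (not_lt.1 f)⟩
  · rintro ⟨⟨a, b, c, d, e⟩, f⟩
    exact ⟨⟨a, b, c, d, e⟩, by rw [f]; exact lt_irrefl g⟩

theorem ord_eq_iff {n : ℕ} (hn : 1 ≤ n) (g : ℝ) : SG.ord n = g ↔ NZlt g < n ∧ n ≤ SG.NZ g := by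
  constructor
  · rintro rfl
    refine ⟨?_, SG.le_NZ_ord hn⟩
    by_contra h
    push Not at h
    obtain ⟨t, ht, h2⟩ := lt_exists (SG.ord n)
    have := (SG.ord_le_iff hn t).2 (h.trans h2)
    linarith
  · rintro ⟨h1, h2⟩
    apply le_antisymm ((SG.ord_le_iff hn g).2 h2)
    by_contra h
    push Not at h
    have h3 := NZ_le_lt h
    have h4 := SG.le_NZ_ord hn
    omega

/-- the number of indices with a given ordinate -/
theorem fiber_card {T g : ℝ} (hg : g ≤ T) :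
    ((Finset.Icc 1 (SG.NZ T)).filter (fun n => SG.ord n = g)).card =
      ∑ s ∈ (Z0 T).filter (fun s => s.im = g), SG.zmult s := by
  classical
  have h1 : (Finset.Icc 1 (SG.NZ T)).filter (fun n => SG.ord n = g) = Finset.Ioc (NZlt g) (SG.NZ g) := by
    ext n
    rw [Finset.mem_filter, Finset.mem_Icc, Finset.mem_Ioc]
    constructor
    · rintro ⟨⟨h1, h2⟩, h3⟩
      exact (ord_eq_iff h1 g).1 h3
    · rintro ⟨h1, h2⟩
      have hn : 1 ≤ n := by omega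
      exact ⟨⟨hn, h2.trans (SG.NZ_mono hg)⟩, (ord_eq_iff hn g).2 ⟨h1, h2⟩⟩
  rw [h1, Nat.card_Ioc, NZ_split g, Nat.add_sub_cancel_left]
  apply Finset.sum_congr _ (fun _ _ => rfl)
  ext s
  simp only [Finset.mem_filter, mem_Z0]
  constructor
  · rintro ⟨⟨a, b, c, d, e⟩, f⟩
    exact ⟨⟨a, b, c, d, e.trans hg⟩, f⟩
  · rintro ⟨⟨a, b, c, d, e⟩, f⟩
    exact ⟨⟨a, b, c, d, f.le⟩, f⟩

/-- every ordinate `ord n` is the ordinate of a zero -/
theorem ord_mem {T : ℝ} {n : ℕ} (hn : n ∈ Finset.Icc 1 (SG.NZ T)) : SG.ord n ∈ (Z0 T).image (fun s => s.im) := by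
  classical
  rw [Finset.mem_Icc] at hn
  have hT : SG.ord n ≤ T := (SG.ord_le_iff hn.1 T).2 hn.2
  have h1 := fiber_card hT
  have h2 : 0 < ((Finset.Icc 1 (SG.NZ T)).filter (fun m => SG.ord m = SG.ord n)).card := by
    apply Finset.card_pos.2
    exact ⟨n, Finset.mem_filter.2 ⟨Finset.mem_Icc.2 hn, rfl⟩⟩
  rw [h1] at h2
  obtain ⟨s, hs, -⟩ := Finset.exists_ne_zero_of_sum_ne_zero h2.ne'
  rw [Finset.mem_filter] at hs
  exact Finset.mem_image.2 ⟨s, hs.1, hs.2⟩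

/-- sums over indices are sums over zeros with multiplicity -/
theorem sum_ord (T : ℝ) (f : ℝ → ℝ) : ∑ n ∈ Finset.Icc 1 (SG.NZ T), f (SG.ord n) =
    ∑ s ∈ Z0 T, (SG.zmult s : ℝ) * f s.im := by
  classical
  rw [← Finset.sum_fiberwise_of_maps_to (s := Finset.Icc 1 (SG.NZ T)) (t := (Z0 T).image (fun s => s.im))
    (g := SG.ord) (fun n hn => ord_mem hn)]
  rw [← Finset.sum_fiberwise_of_maps_to (s := Z0 T) (t := (Z0 T).image (fun s => s.im))
    (g := fun s => s.im) (fun s hs => Finset.mem_image_of_mem _ hs)]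
  apply Finset.sum_congr rfl
  intro g hg
  rw [Finset.mem_image] at hg
  obtain ⟨s0, hs0, rfl⟩ := hg
  have hT : s0.im ≤ T := (mem_Z0.1 hs0).2.2.2.2
  have h1 : ∑ n ∈ (Finset.Icc 1 (SG.NZ T)).filter (fun n => SG.ord n = s0.im), f (SG.ord n) =
      (((Finset.Icc 1 (SG.NZ T)).filter (fun n => SG.ord n = s0.im)).card : ℝ) * f s0.im := by
    rw [Finset.sum_congr rfl (fun n hn => by rw [(Finset.mem_filter.1 hn).2]),
      Finset.sum_const, nsmul_eq_mul]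
  have h2 : ∑ s ∈ (Z0 T).filter (fun s => s.im = s0.im), (SG.zmult s : ℝ) * f s.im =
      (∑ s ∈ (Z0 T).filter (fun s => s.im = s0.im), (SG.zmult s : ℝ)) * f s0.im := by
    rw [Finset.sum_mul]
    exact Finset.sum_congr rfl (fun n hn => by rw [(Finset.mem_filter.1 hn).2])
  rw [h1, h2, fiber_card hT]
  push_cast
  rfl

theorem Ioc_eq {x y : ℝ} (hxy : x ≤ y) (n : ℕ) :
    n ∈ Finset.Ioc (SG.NZ x) (SG.NZ y) ↔ 1 ≤ n ∧ x < SG.ord n ∧ SG.ord n ≤ y := by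
  rw [Finset.mem_Ioc]
  constructor
  · rintro ⟨h1, h2⟩
    have hn : 1 ≤ n := by omega
    refine ⟨hn, ?_, (SG.ord_le_iff hn y).2 h2⟩
    by_contra h
    push Not at h
    have := (SG.ord_le_iff hn x).1 h
    omega
  · rintro ⟨hn, h1, h2⟩
    refine ⟨?_, (SG.ord_le_iff hn y).1 h2⟩
    by_contra h
    push Not at h
    have := (SG.ord_le_iff hn x).2 h
    linarith

/-- sums over the indices of a window -/
theorem sum_ord_Ioc {x y : ℝ} (hxy : x ≤ y) (f : ℝ → ℝ) : ∑ n ∈ Finset.Ioc (SG.NZ x) (SG.NZ y), f (SG.ord n) =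
    ∑ s ∈ (Z0 y).filter (fun s => x < s.im), (SG.zmult s : ℝ) * f s.im := by
  classical
  have h := sum_ord y (fun g => if x < g then f g else 0)
  have e1 : ∑ n ∈ Finset.Icc 1 (SG.NZ y), (fun g => if x < g then f g else 0) (SG.ord n) =
      ∑ n ∈ Finset.Ioc (SG.NZ x) (SG.NZ y), f (SG.ord n) := by
    simp only
    rw [← Finset.sum_filter]
    apply Finset.sum_congr _ (fun _ _ => rfl)
    ext n
    rw [Finset.mem_filter, Finset.mem_Icc, Ioc_eq hxy]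
    constructor
    · rintro ⟨⟨h1, h2⟩, h3⟩
      exact ⟨h1, h3, (SG.ord_le_iff h1 y).2 h2⟩
    · rintro ⟨h1, h2, h3⟩
      exact ⟨⟨h1, (SG.ord_le_iff h1 y).1 h3⟩, h2⟩
  have e2 : ∑ s ∈ Z0 y, (SG.zmult s : ℝ) * (fun g => if x < g then f g else 0) s.im =
      ∑ s ∈ (Z0 y).filter (fun s => x < s.im), (SG.zmult s : ℝ) * f s.im := by
    rw [Finset.sum_filter]
    apply Finset.sum_congr rfl
    intro s _
    simp only
    split_ifs <;> simp
  rw [← e1, ← e2]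
  exact h

/-- the indices with ordinate in `[u, v]` -/
noncomputable def ix (u v : ℝ) : Finset ℕ := (Finset.Icc 1 (SG.NZ v)).filter (fun n => u ≤ SG.ord n)

theorem mem_ix {u v : ℝ} {n : ℕ} : n ∈ ix u v ↔ 1 ≤ n ∧ u ≤ SG.ord n ∧ SG.ord n ≤ v := by
  unfold ix
  rw [Finset.mem_filter, Finset.mem_Icc]
  constructor
  · rintro ⟨⟨h1, h2⟩, h3⟩
    exact ⟨h1, h3, (SG.ord_le_iff h1 v).2 h2⟩
  · rintro ⟨h1, h2, h3⟩
    exact ⟨⟨h1, (SG.ord_le_iff h1 v).1 h3⟩, h2⟩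

/-- counts of indices are counts of zeros -/
theorem ix_card {u v : ℝ} (hu : 0 < u) : (ix u v).card = nz ((u + v) / 2) ((v - u) / 2) := by
  classical
  have h := sum_ord v (fun g => if u ≤ g then 1 else 0)
  have e1 : ∑ n ∈ Finset.Icc 1 (SG.NZ v), (fun g => if u ≤ g then (1 : ℝ) else 0) (SG.ord n) = ((ix u v).card : ℝ) := by
    simp only
    rw [Finset.sum_boole]
    rfl
  have e2 : ∑ s ∈ Z0 v, (SG.zmult s : ℝ) * (fun g => if u ≤ g then (1 : ℝ) else 0) s.im =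
      (nz ((u + v) / 2) ((v - u) / 2) : ℝ) := by
    rw [Pool.Agent.Q210.UM.nz_eq hZ]
    push_cast
    simp only [mul_ite, mul_one, mul_zero]
    rw [← Finset.sum_filter]
    apply Finset.sum_congr _ (fun _ _ => rfl)
    ext s
    rw [Finset.mem_filter, mem_Z0, Set.Finite.mem_toFinset]
    have e3 : |s.im - (u + v) / 2| ≤ (v - u) / 2 ↔ u ≤ s.im ∧ s.im ≤ v := by
      rw [abs_le]
      constructor
      · rintro ⟨h1, h2⟩
        constructor <;> linarith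
      · rintro ⟨h1, h2⟩
        constructor <;> linarith
    constructor
    · rintro ⟨⟨a, b, c, d, e⟩, f⟩
      exact ⟨a, b, c, e3.2 ⟨f, e⟩⟩
    · rintro ⟨a, b, c, d⟩
      obtain ⟨d1, d2⟩ := e3.1 d
      exact ⟨⟨a, b, c, by linarith, d2⟩, d1⟩
  rw [e1, e2] at h
  exact_mod_cast h

end Pool.Agent.V8H36.KL
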