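import Pool.Agent.V8H36.KL.Gen4
import Pool.Agent.V8H36.KL.Idx
import Pool.Agent.V8H36.KL.Cnt

set_option autoImplicit false

/-! Dyadic blocks: tuples of indices. -/

open Filter Topology MeasureTheory Complex
open scoped ComplexConjugate

namespace Pool.Agent.V8H36.KL

open Pool.Agent.Q97.UM
open Pool.Agent.Q210.UM (gint V_cont nz_mono Zw_sub nz_eq)
open Pool.Agent.Q61.UM (dp_var bd N2_bd ind_in)

/-- sums over the indices of a dyadic block -/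
theorem sum_blk {T : ℝ} (hT : 1 ≤ T) (f : ℝ → ℝ) : ∑ n ∈ Finset.Ioc (SG.NZ T) (SG.NZ (2 * T)), f (SG.ord n) =
    ∑ s ∈ H370.Zf riemannZeta T (2 * T), (mz s : ℝ) * f s.im := by
  classical
  rw [sum_ord_Ioc (by linarith)]
  have e : (Z0 (2 * T)).filter (fun s => T < s.im) = H370.Zf riemannZeta T (2 * T) := by
    ext s
    rw [Finset.mem_filter, mem_Z0, H370.mem_Zf H370.good_zeta hT]
    constructor
    · rintro ⟨⟨a, b, c, d, e⟩, f⟩
      exact ⟨b, c, f, e, a⟩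
    · rintro ⟨a, b, c, d, e⟩
      exact ⟨⟨e, a, b, by linarith, d⟩, c⟩
  rw [e]
  rfl

/-- the counts are at most the numbers of zeros -/
theorem ix_card_le (u v : ℝ) : (ix u v).card ≤ nz ((u + v) / 2) ((v - u) / 2) := by
  classical
  have h := sum_ord v (fun g => if u ≤ g then 1 else 0)
  have e1 : ∑ n ∈ Finset.Icc 1 (SG.NZ v), (fun g => if u ≤ g then (1 : ℝ) else 0) (SG.ord n) = ((ix u v).card : ℝ) := by
    simp only
    rw [Finset.sum_boole]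
    rfl
  have e2 : ∑ s ∈ Z0 v, (SG.zmult s : ℝ) * (fun g => if u ≤ g then (1 : ℝ) else 0) s.im ≤
      (nz ((u + v) / 2) ((v - u) / 2) : ℝ) := by
    rw [Pool.Agent.Q210.UM.nz_eq hZ]
    push_cast
    simp only [mul_ite, mul_one, mul_zero]
    rw [← Finset.sum_filter]
    apply Finset.sum_le_sum_of_subset_of_nonneg
    · intro s hs
      rw [Finset.mem_filter, mem_Z0] at hs
      obtain ⟨⟨a, b, c, d, e⟩, f⟩ := hs
      rw [Set.Finite.mem_toFinset]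
      exact ⟨a, b, c, by rw [abs_le]; constructor <;> linarith⟩
    · intro s _ _
      positivity
  rw [← h, e1] at e2
  exact_mod_cast e2

/-- **the mesoscopic law at the zeros**, uniformly -/
theorem t_G' : ∃ θ : ℝ, 0 < θ ∧ θ ≤ 1 / 40 ∧ ∀ p : ℕ, ∃ C : ℝ, 1 ≤ C ∧ ∀ S0 : ℝ, 1 ≤ S0 → ∀ᶠ T : ℝ in atTop,
    ∀ R' : ℝ, 1 ≤ R' → R' ≤ S0 → ∀ x : ℝ, |x| ≤ Real.sqrt T →
    ∀ y S : Fin p → ℝ, (∀ j, |y j| ≤ Real.sqrt T) → (∀ j, 1 ≤ S j ∧ S j ≤ S0) → ∀ N : ℕ, (N : ℝ) ≤ T ^ θ → ∀ b : ℕ → ℂ,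
      ∑ s ∈ H370.Zf riemannZeta T (2 * T), (mz s : ℝ) *
        ((|(nz (s.im + x) (R' / Real.log T) : ℝ) - R' / Real.pi| * PW T y S s.im) * ‖dp N b s.im‖ ^ 2) ≤
        C * R' ^ (3 / 4 : ℝ) * Real.log T * T * N2 N b := by
  obtain ⟨θ, hθ0, hθ1, h⟩ := t_G
  refine ⟨θ, hθ0, hθ1, fun p => ?_⟩
  obtain ⟨C, hC, h⟩ := h p
  refine ⟨2 * C, by linarith, fun S0 hS0 => ?_⟩
  obtain ⟨K, hK⟩ : ∃ K : ℕ, S0 ≤ 2 ^ K := pow_unbounded_of_one_lt S0 (by norm_num) |>.imp fun _ h => h.le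
  have ev : ∀ᶠ T : ℝ in atTop, ∀ k ∈ Finset.range (K + 1), ∀ R' : ℝ, 1 ≤ R' → R' ≤ 2 ^ (k + 1) → ∀ x : ℝ, |x| ≤ Real.sqrt T →
    ∀ y S : Fin p → ℝ, (∀ j, |y j| ≤ Real.sqrt T) → (∀ j, 1 ≤ S j ∧ S j ≤ S0) → ∀ N : ℕ, (N : ℝ) ≤ T ^ θ → ∀ b : ℕ → ℂ,
      ∑ s ∈ H370.Zf riemannZeta T (2 * T), (mz s : ℝ) *
        ((|(nz (s.im + x) (R' / Real.log T) : ℝ) - R' / Real.pi| * PW T y S s.im) * ‖dp N b s.im‖ ^ 2) ≤
        C * (2 ^ (k + 1) : ℝ) ^ (3 / 4 : ℝ) * Real.log T * T * N2 N b := by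
    rw [Filter.eventually_all_finset]
    intro k _
    exact h (2 ^ (k + 1)) S0 (one_le_pow₀ (by norm_num)) hS0
  filter_upwards [ev, eventually_ge_atTop (1 : ℝ)] with T ev hT R' h1 h2 x hx y S hy hS N hN b
  obtain ⟨k, hk1, hk2⟩ : ∃ k : ℕ, (2 : ℝ) ^ k ≤ R' ∧ R' < 2 ^ (k + 1) := exists_nat_pow_near h1 (by norm_num)
  have hkK : k ∈ Finset.range (K + 1) := by
    rw [Finset.mem_range]
    by_contra hcon
    push Not at hcon
    have h3 : (2 : ℝ) ^ (K + 1) ≤ 2 ^ k := pow_le_pow_right₀ (by norm_num) hcon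
    have h4 : (2 : ℝ) ^ (K + 1) = 2 ^ K * 2 := pow_succ 2 K
    have h5 : (0 : ℝ) < 2 ^ K := by positivity
    linarith
  refine (ev k hkK R' h1 hk2.le x hx y S hy hS N hN b).trans ?_
  have hW : 0 ≤ Real.log T * (T * N2 N b) := by
    have := Real.log_nonneg hT
    have := N2_nonneg N b
    positivity
  have h3 : (2 ^ (k + 1) : ℝ) ^ (3 / 4 : ℝ) ≤ 2 * R' ^ (3 / 4 : ℝ) := by
    calc (2 ^ (k + 1) : ℝ) ^ (3 / 4 : ℝ) ≤ (2 * R') ^ (3 / 4 : ℝ) := by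
          apply Real.rpow_le_rpow (by positivity) _ (by norm_num)
          rw [pow_succ]
          linarith
      _ = 2 ^ (3 / 4 : ℝ) * R' ^ (3 / 4 : ℝ) := Real.mul_rpow (by norm_num) (by linarith)
      _ ≤ 2 * R' ^ (3 / 4 : ℝ) := by
          apply mul_le_mul_of_nonneg_right _ (by positivity)
          calc (2 : ℝ) ^ (3 / 4 : ℝ) ≤ 2 ^ (1 : ℝ) := Real.rpow_le_rpow_of_exponent_le (by norm_num) (by norm_num)
            _ = 2 := Real.rpow_one 2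
  calc C * (2 ^ (k + 1) : ℝ) ^ (3 / 4 : ℝ) * Real.log T * T * N2 N b = C * (2 ^ (k + 1) : ℝ) ^ (3 / 4 : ℝ) * (Real.log T * (T * N2 N b)) := by ring
    _ ≤ C * (2 * R' ^ (3 / 4 : ℝ)) * (Real.log T * (T * N2 N b)) := by gcongr
    _ = _ := by ring

/-- the sets of indices in the windows -/
noncomputable def JJ {r : ℕ} (T : ℝ) (c ρ : Fin r → ℝ) (m : ℕ) (i : Fin r) : Finset ℕ :=
  ix (SG.ord m + c i - ρ i / Real.log T) (SG.ord m + c i + ρ i / Real.log T)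

theorem JJ_card {r : ℕ} {T : ℝ} {c ρ : Fin r → ℝ} {m : ℕ} {i : Fin r} (h : 0 < SG.ord m + c i - ρ i / Real.log T) :
    (JJ T c ρ m i).card = nz (SG.ord m + c i) (ρ i / Real.log T) := by
  unfold JJ
  rw [ix_card h]
  congr 1 <;> ring

theorem JJ_card_le {r : ℕ} (T : ℝ) (c ρ : Fin r → ℝ) (m : ℕ) (i : Fin r) :
    (JJ T c ρ m i).card ≤ nz (SG.ord m + c i) (ρ i / Real.log T) := by
  unfold JJ
  refine (ix_card_le _ _).trans (le_of_eq ?_)
  congr 1 <;> ring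

theorem one_add_pi (z : ℝ) (hz : 0 ≤ z) : 1 + Real.pi * z ≤ 4 * (1 + z) := by
  have := Real.pi_lt_four
  nlinarith

/-- the deviation of the number of tuples with a given last index -/
theorem dev_pt {r : ℕ} {T : ℝ} {c ρ : Fin r → ℝ} {m : ℕ} (hρ : ∀ i, 1 ≤ ρ i) (h : ∀ i, 0 < SG.ord m + c i - ρ i / Real.log T) :
    |((inj (JJ T c ρ m) {m}).card : ℝ) - ∏ i, (ρ i / Real.pi)| ≤ (∏ i, (ρ i / Real.pi)) * (4 ^ r *
      ∑ i, (Real.pi / ρ i) * ((|(nz (SG.ord m + c i) (ρ i / Real.log T) : ℝ) - ρ i / Real.pi| + (r + 1)) * PW T c ρ (SG.ord m))) := by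
  have hpi := Real.pi_pos
  set n : Fin r → ℕ := fun i => nz (SG.ord m + c i) (ρ i / Real.log T) with hn
  set e : Fin r → ℝ := fun i => ρ i / Real.pi with he
  have he0 : ∀ i, 0 < e i := fun i => by
    have := hρ i
    simp only [he]
    positivity
  set E := ∏ i, e i with hE
  have hE0 : 0 < E := Finset.prod_pos fun i _ => he0 i
  set X : Fin r → ℝ := fun i => n i / e i with hX
  have hX0 : ∀ i, 0 ≤ X i := fun i => div_nonneg (Nat.cast_nonneg _) (he0 i).le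
  set cd : ℝ := ((inj (JJ T c ρ m) {m}).card : ℝ) with hcd
  have hcn : ∀ i, (JJ T c ρ m i).card = n i := fun i => JJ_card (h i)
  -- upper
  have up : cd ≤ E * ∏ i, X i := by
    have h1 := inj_le (JJ T c ρ m) {m}
    have h2 : cd ≤ ∏ i, (n i : ℝ) := by
      rw [hcd]
      have : ((inj (JJ T c ρ m) {m}).card : ℝ) ≤ ((∏ i, (JJ T c ρ m i).card : ℕ) : ℝ) := by exact_mod_cast h1
      refine this.trans (le_of_eq ?_)
      push_cast
      exact Finset.prod_congr rfl fun i _ => by rw [hcn i]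
    refine h2.trans (le_of_eq ?_)
    rw [hE, ← Finset.prod_mul_distrib]
    refine Finset.prod_congr rfl fun i _ => ?_
    rw [hX]
    simp only
    rw [mul_div_cancel₀ _ (he0 i).ne']
  -- lower
  set x : Fin r → ℝ := fun i => ((n i - (r + 1) : ℕ) : ℝ) / e i with hx
  have hx0 : ∀ i, 0 ≤ x i := fun i => div_nonneg (Nat.cast_nonneg _) (he0 i).le
  have hxX : ∀ i, x i ≤ X i := fun i => by
    simp only [hx, hX]
    apply div_le_div_of_nonneg_right _ (he0 i).le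
    exact_mod_cast Nat.sub_le _ _
  have low : E * ∏ i, x i ≤ cd := by
    have h1 := inj_ge (JJ T c ρ m) {m} (r + 1) (by rw [Finset.card_singleton]; omega)
    have h2 : ((∏ i, ((JJ T c ρ m i).card - (r + 1)) : ℕ) : ℝ) ≤ cd := Nat.cast_le.2 h1
    refine le_trans (le_of_eq ?_) h2
    rw [hE, ← Finset.prod_mul_distrib, Nat.cast_prod]
    refine Finset.prod_congr rfl fun i _ => ?_
    rw [hx]
    simp only
    rw [mul_div_cancel₀ _ (he0 i).ne', hcn i]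
  have hxs : ∀ i, |x i - 1| ≤ |X i - 1| + (r + 1) / e i := by
    intro i
    have h1 : (n i : ℝ) - (r + 1) ≤ ((n i - (r + 1) : ℕ) : ℝ) := by
      have : n i ≤ (n i - (r + 1)) + (r + 1) := by omega
      have h2 : (n i : ℝ) ≤ ((n i - (r + 1) : ℕ) : ℝ) + ((r + 1 : ℕ) : ℝ) := by exact_mod_cast this
      push_cast at h2
      linarith
    have h2 : X i - (r + 1) / e i ≤ x i := by
      simp only [hx, hX]
      rw [← sub_div]
      exact div_le_div_of_nonneg_right h1 (he0 i).le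
    have h3 := hxX i
    have h4 : 0 ≤ ((r : ℝ) + 1) / e i := div_nonneg (by positivity) (he0 i).le
    have h5 := le_abs_self (X i - 1)
    have h6 := neg_abs_le (X i - 1)
    rw [abs_le]
    constructor <;> linarith
  have b1 := prod_sub_one X X hX0 (fun i => le_rfl)
  have b2 := prod_sub_one x X hx0 hxX
  have hP : ∏ j, (1 + X j) ≤ 4 ^ r * PW T c ρ (SG.ord m) := by
    unfold PW
    calc ∏ j, (1 + X j) ≤ ∏ j, (4 * (1 + zc T (c j) (ρ j) (SG.ord m))) := by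
          refine Finset.prod_le_prod (fun j _ => by linarith [hX0 j]) fun j _ => ?_
          have h1 : X j = Real.pi * zc T (c j) (ρ j) (SG.ord m) := by
            simp only [hX, hn, he]
            unfold zc
            field_simp
          rw [h1]
          exact one_add_pi _ (zc_nonneg (by linarith [hρ j]))
      _ = _ := by rw [Finset.prod_mul_distrib, Finset.prod_const, Finset.card_univ, Fintype.card_fin]
  have hP0 : 0 ≤ ∏ j, (1 + X j) := Finset.prod_nonneg fun j _ => by linarith [hX0 j]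
  set G := ∑ i, (|X i - 1| + (r + 1) / e i) * ∏ j, (1 + X j) with hG
  have c1 : |∏ i, X i - 1| ≤ G := by
    refine b1.trans (Finset.sum_le_sum fun i _ => mul_le_mul_of_nonneg_right ?_ hP0)
    have : 0 ≤ ((r : ℝ) + 1) / e i := div_nonneg (by positivity) (he0 i).le
    linarith
  have c2 : |∏ i, x i - 1| ≤ G := b2.trans (Finset.sum_le_sum fun i _ => mul_le_mul_of_nonneg_right (hxs i) hP0)
  have c3 : |cd - E| ≤ E * G := by
    have d1 := (abs_le.1 c1).2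
    have d2 := (abs_le.1 c2).1
    rw [abs_le]
    constructor
    · have := mul_le_mul_of_nonneg_left d2 hE0.le
      nlinarith
    · have := mul_le_mul_of_nonneg_left d1 hE0.le
      nlinarith
  refine c3.trans (mul_le_mul_of_nonneg_left ?_ hE0.le)
  rw [hG, Finset.mul_sum]
  refine Finset.sum_le_sum fun i _ => ?_
  have h1 : |X i - 1| + (r + 1) / e i = (Real.pi / ρ i) * (|(n i : ℝ) - ρ i / Real.pi| + (r + 1)) := by
    have h2 : X i - 1 = (Real.pi / ρ i) * ((n i : ℝ) - ρ i / Real.pi) := by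
      have := hρ i
      simp only [hX, he]
      field_simp
    have h3 : ((r : ℝ) + 1) / e i = (Real.pi / ρ i) * (r + 1) := by
      have := hρ i
      simp only [he]
      field_simp
    have h4 : 0 ≤ Real.pi / ρ i := by
      have := hρ i
      positivity
    rw [h2, h3, abs_mul, abs_of_nonneg h4]
    ring
  rw [h1]
  have h2 : 0 ≤ (Real.pi / ρ i) * (|(n i : ℝ) - ρ i / Real.pi| + (r + 1)) := by
    have := hρ i
    positivity
  calc _ ≤ (Real.pi / ρ i) * (|(n i : ℝ) - ρ i / Real.pi| + (r + 1)) * (4 ^ r * PW T c ρ (SG.ord m)) :=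
        mul_le_mul_of_nonneg_left hP h2
    _ = _ := by ring

theorem ord_blk {T : ℝ} (hT : 0 ≤ T) {m : ℕ} (hm : m ∈ Finset.Ioc (SG.NZ T) (SG.NZ (2 * T))) :
    T < SG.ord m ∧ SG.ord m ≤ 2 * T := ((Ioc_eq (by linarith) m).1 hm).2

theorem pos_blk {r : ℕ} {T S0 : ℝ} {c ρ : Fin r → ℝ} (hT : 16 ≤ T) (hsq : Real.sqrt T + 1 ≤ T / 8) (hL : 2 * S0 ≤ Real.log T)
    (hL2 : 2 ≤ Real.log T) (hc : ∀ i, |c i| ≤ Real.sqrt T) (hρ : ∀ i, ρ i ≤ S0) {m : ℕ}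
    (hm : m ∈ Finset.Ioc (SG.NZ T) (SG.NZ (2 * T))) (i : Fin r) : 0 < SG.ord m + c i - ρ i / Real.log T := by
  have h1 := (ord_blk (by linarith) hm).1
  have h2 := (abs_le.1 (hc i)).1
  have h3 : ρ i / Real.log T ≤ 1 / 2 := by
    rw [div_le_iff₀ (by linarith)]
    linarith [hρ i]
  linarith

/-- **the number of tuples on a dyadic block** -/
theorem blk_dev : ∃ θ : ℝ, 0 < θ ∧ θ ≤ 1 / 40 ∧ ∀ r : ℕ, ∃ C : ℝ, 1 ≤ C ∧ ∀ S0 : ℝ, 1 ≤ S0 → ∀ᶠ T : ℝ in atTop,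
    ∀ c ρ : Fin r → ℝ, (∀ i, |c i| ≤ Real.sqrt T) → (∀ i, 1 ≤ ρ i ∧ ρ i ≤ S0) → ∀ N : ℕ, (N : ℝ) ≤ T ^ θ → ∀ b : ℕ → ℂ,
      ∑ m ∈ Finset.Ioc (SG.NZ T) (SG.NZ (2 * T)), |((inj (JJ T c ρ m) {m}).card : ℝ) - ∏ i, (ρ i / Real.pi)| *
        ‖dp N b (SG.ord m)‖ ^ 2 ≤
      C * (∏ i, (ρ i / Real.pi)) * (∑ i, ρ i ^ (-(1 / 4) : ℝ)) * Real.log T * T * N2 N b := by
  obtain ⟨θ₁, hθ1, hθ1', hG⟩ := t_G'
  obtain ⟨θ₂, hθ2, hθ2', hG0⟩ := t_G0
  refine ⟨min θ₁ θ₂, by positivity, (min_le_left _ _).trans hθ1', fun r => ?_⟩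
  obtain ⟨C₁, hC₁, hG⟩ := hG r
  obtain ⟨C₂, hC₂, hG0⟩ := hG0 r
  refine ⟨4 ^ r * (4 * (C₁ + (r + 1) * C₂)), ?_, fun S0 hS0 => ?_⟩
  · have h1 : (1 : ℝ) ≤ 4 ^ r := one_le_pow₀ (by norm_num)
    have h2 : 1 ≤ 4 * (C₁ + (r + 1) * C₂) := by
      have : (0 : ℝ) ≤ r := Nat.cast_nonneg r
      nlinarith
    exact one_le_mul_of_one_le_of_one_le h1 h2
  filter_upwards [hG S0 hS0, hG0 S0 hS0, ev_setup S0 hS0] with T hG hG0 hT c ρ hc hρ N hN b
  obtain ⟨hT16, hLS, hL2, hsq, hST⟩ := hT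
  have hT1 : 1 ≤ T := by linarith
  have hT0 : 0 < T := by linarith
  have hL0 : 0 < Real.log T := by linarith
  have hpi := Real.pi_pos
  have hN1 : (N : ℝ) ≤ T ^ θ₁ := hN.trans (Real.rpow_le_rpow_of_exponent_le hT1 (min_le_left _ _))
  have hN2 : (N : ℝ) ≤ T ^ θ₂ := hN.trans (Real.rpow_le_rpow_of_exponent_le hT1 (min_le_right _ _))
  have hρ1 : ∀ i, 1 ≤ ρ i := fun i => (hρ i).1
  set E := ∏ i, (ρ i / Real.pi) with hE
  have hE0 : 0 ≤ E := Finset.prod_nonneg fun i _ => by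
    have := hρ1 i
    positivity
  set W := Real.log T * (T * N2 N b) with hW
  have hW0 : 0 ≤ W := by
    have := N2_nonneg N b
    positivity
  set g : Fin r → ℝ → ℝ := fun i γ => (Real.pi / ρ i) *
    ((|(nz (γ + c i) (ρ i / Real.log T) : ℝ) - ρ i / Real.pi| + (r + 1)) * PW T c ρ γ) with hg
  calc ∑ m ∈ Finset.Ioc (SG.NZ T) (SG.NZ (2 * T)), |((inj (JJ T c ρ m) {m}).card : ℝ) - E| * ‖dp N b (SG.ord m)‖ ^ 2
      ≤ ∑ m ∈ Finset.Ioc (SG.NZ T) (SG.NZ (2 * T)), (E * (4 ^ r * ∑ i, g i (SG.ord m))) * ‖dp N b (SG.ord m)‖ ^ 2 := by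
        refine Finset.sum_le_sum fun m hm => ?_
        apply mul_le_mul_of_nonneg_right _ (sq_nonneg _)
        exact dev_pt hρ1 (fun i => pos_blk hT16 hsq hLS hL2 hc (fun i => (hρ i).2) hm i)
    _ = E * 4 ^ r * ∑ i, ∑ s ∈ H370.Zf riemannZeta T (2 * T), (mz s : ℝ) * (g i s.im * ‖dp N b s.im‖ ^ 2) := by
        rw [sum_blk hT1 (fun γ => (E * (4 ^ r * ∑ i, g i γ)) * ‖dp N b γ‖ ^ 2), Finset.sum_comm, Finset.mul_sum]
        refine Finset.sum_congr rfl fun s _ => ?_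
        rw [← Finset.mul_sum, ← Finset.sum_mul]
        ring
    _ ≤ E * 4 ^ r * ∑ i, (4 * (C₁ + (r + 1) * C₂)) * ρ i ^ (-(1 / 4) : ℝ) * W := by
        apply mul_le_mul_of_nonneg_left _ (by positivity)
        refine Finset.sum_le_sum fun i _ => ?_
        have h1 := hG (ρ i) (hρ1 i) (hρ i).2 (c i) (hc i) c ρ hc hρ N hN1 b
        have h2 := hG0 c ρ hc hρ N hN2 b
        have e : ∑ s ∈ H370.Zf riemannZeta T (2 * T), (mz s : ℝ) * (g i s.im * ‖dp N b s.im‖ ^ 2) =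
            (Real.pi / ρ i) * (∑ s ∈ H370.Zf riemannZeta T (2 * T), (mz s : ℝ) *
              ((|(nz (s.im + c i) (ρ i / Real.log T) : ℝ) - ρ i / Real.pi| * PW T c ρ s.im) * ‖dp N b s.im‖ ^ 2) +
            (r + 1) * ∑ s ∈ H370.Zf riemannZeta T (2 * T), (mz s : ℝ) * (PW T c ρ s.im * ‖dp N b s.im‖ ^ 2)) := by
          rw [Finset.mul_sum (a := ((r : ℝ) + 1)), ← Finset.sum_add_distrib, Finset.mul_sum]
          refine Finset.sum_congr rfl fun s _ => ?_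
          rw [hg]
          ring
        rw [e]
        have hρ0 : 0 < ρ i := by linarith [hρ1 i]
        have h3 : ρ i ^ (-(1 / 4) : ℝ) * ρ i = ρ i ^ (3 / 4 : ℝ) := by
          nth_rewrite 2 [← Real.rpow_one (ρ i)]
          rw [← Real.rpow_add hρ0]; norm_num
        have h4 : 1 ≤ ρ i ^ (3 / 4 : ℝ) := Real.one_le_rpow (hρ1 i) (by norm_num)
        have h5 : (0 : ℝ) ≤ r := Nat.cast_nonneg r
        calc _ ≤ (Real.pi / ρ i) * (C₁ * ρ i ^ (3 / 4 : ℝ) * Real.log T * T * N2 N b + (r + 1) * (C₂ * Real.log T * T * N2 N b)) := by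
              apply mul_le_mul_of_nonneg_left _ (by positivity)
              exact add_le_add h1 (mul_le_mul_of_nonneg_left h2 (by positivity))
          _ = (Real.pi / ρ i) * ((C₁ * ρ i ^ (3 / 4 : ℝ) + (r + 1) * C₂ * 1) * W) := by rw [hW]; ring
          _ ≤ (Real.pi / ρ i) * ((C₁ * ρ i ^ (3 / 4 : ℝ) + (r + 1) * C₂ * ρ i ^ (3 / 4 : ℝ)) * W) := by gcongr
          _ = Real.pi * (C₁ + (r + 1) * C₂) * (ρ i ^ (3 / 4 : ℝ) / ρ i) * W := by field_simp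
          _ = Real.pi * (C₁ + (r + 1) * C₂) * ρ i ^ (-(1 / 4) : ℝ) * W := by
              rw [← h3, mul_div_assoc, div_self hρ0.ne', mul_one]
          _ ≤ 4 * (C₁ + (r + 1) * C₂) * ρ i ^ (-(1 / 4) : ℝ) * W := by
              have := Real.pi_lt_four
              gcongr
    _ = _ := by
        rw [← Finset.sum_mul, ← Finset.mul_sum, hW]
        ring

/-- the crude majorant of the number of tuples -/
theorem inj_PW {r : ℕ} {T : ℝ} {c ρ : Fin r → ℝ} (hL : 0 < Real.log T) (m : ℕ) :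
    ((inj (JJ T c ρ m) {m}).card : ℝ) ≤ (∏ i, max (ρ i) 1) * PW T c (fun i => max (ρ i) 1) (SG.ord m) := by
  have h1 : ((inj (JJ T c ρ m) {m}).card : ℝ) ≤ ((∏ i, (JJ T c ρ m i).card : ℕ) : ℝ) := by exact_mod_cast inj_le _ _
  refine h1.trans ?_
  unfold PW
  rw [← Finset.prod_mul_distrib]
  push_cast
  refine Finset.prod_le_prod (fun i _ => Nat.cast_nonneg _) fun i _ => ?_
  have h2 := JJ_card_le T c ρ m i
  have h3 : nz (SG.ord m + c i) (ρ i / Real.log T) ≤ nz (SG.ord m + c i) (max (ρ i) 1 / Real.log T) := by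
    refine nz_mono hZ2 (Zw_sub ?_)
    rw [sub_self, abs_zero, zero_add]
    exact div_le_div_of_nonneg_right (le_max_left _ _) hL.le
  have h4 : (((JJ T c ρ m i).card : ℕ) : ℝ) ≤ nz (SG.ord m + c i) (max (ρ i) 1 / Real.log T) := by exact_mod_cast h2.trans h3
  have h5 : (1 : ℝ) ≤ max (ρ i) 1 := le_max_right _ _
  unfold zc
  have e : max (ρ i) 1 * (1 + (nz (SG.ord m + c i) (max (ρ i) 1 / Real.log T) : ℝ) / max (ρ i) 1) =
      max (ρ i) 1 + nz (SG.ord m + c i) (max (ρ i) 1 / Real.log T) := by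
    field_simp
  rw [e]
  linarith

/-- **one more index, on a dyadic block** -/
theorem blk_ext : ∃ θ : ℝ, 0 < θ ∧ θ ≤ 1 / 40 ∧ ∀ r : ℕ, ∃ C : ℝ, 1 ≤ C ∧ ∀ S0 : ℝ, 1 ≤ S0 → ∀ᶠ T : ℝ in atTop,
    ∀ c ρ : Fin r → ℝ, (∀ i, |c i| ≤ Real.sqrt T) → (∀ i, ρ i ≤ S0) → ∀ N : ℕ, (N : ℝ) ≤ T ^ θ → ∀ b : ℕ → ℂ,
      (∀ x R' : ℝ, |x| ≤ Real.sqrt T → 1 ≤ R' → R' ≤ S0 →
        ∑ m ∈ Finset.Ioc (SG.NZ T) (SG.NZ (2 * T)), (((inj (JJ T c ρ m) {m}).card : ℝ) *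
          (|(nz (SG.ord m + x) (R' / Real.log T) : ℝ) - R' / Real.pi| + (r + 1))) * ‖dp N b (SG.ord m)‖ ^ 2 ≤
        C * (∏ i, max (ρ i) 1) * R' ^ (3 / 4 : ℝ) * Real.log T * T * N2 N b) ∧
      ∑ m ∈ Finset.Ioc (SG.NZ T) (SG.NZ (2 * T)), ((inj (JJ T c ρ m) {m}).card : ℝ) * ‖dp N b (SG.ord m)‖ ^ 2 ≤
        C * (∏ i, max (ρ i) 1) * Real.log T * T * N2 N b := by
  obtain ⟨θ₁, hθ1, hθ1', hG⟩ := t_G'
  obtain ⟨θ₂, hθ2, hθ2', hG0⟩ := t_G0
  refine ⟨min θ₁ θ₂, by positivity, (min_le_left _ _).trans hθ1', fun r => ?_⟩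
  obtain ⟨C₁, hC₁, hG⟩ := hG r
  obtain ⟨C₂, hC₂, hG0⟩ := hG0 r
  refine ⟨C₁ + (r + 1) * C₂, ?_, fun S0 hS0 => ?_⟩
  · have : (0 : ℝ) ≤ r := Nat.cast_nonneg r
    nlinarith
  filter_upwards [hG S0 hS0, hG0 S0 hS0, ev_setup S0 hS0] with T hG hG0 hT c ρ hc hρ N hN b
  obtain ⟨hT16, hLS, hL2, hsq, hST⟩ := hT
  have hT1 : 1 ≤ T := by linarith
  have hT0 : 0 < T := by linarith
  have hL0 : 0 < Real.log T := by linarith
  have hN1 : (N : ℝ) ≤ T ^ θ₁ := hN.trans (Real.rpow_le_rpow_of_exponent_le hT1 (min_le_left _ _))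
  have hN2 : (N : ℝ) ≤ T ^ θ₂ := hN.trans (Real.rpow_le_rpow_of_exponent_le hT1 (min_le_right _ _))
  set ρ' : Fin r → ℝ := fun i => max (ρ i) 1 with hρ'
  have hρ1 : ∀ i, 1 ≤ ρ' i ∧ ρ' i ≤ S0 := fun i => ⟨le_max_right _ _, max_le (hρ i) hS0⟩
  set E := ∏ i, max (ρ i) 1 with hE
  have hE0 : 0 ≤ E := Finset.prod_nonneg fun i _ => (zero_le_one.trans (le_max_right _ _))
  set W := Real.log T * (T * N2 N b) with hW
  have hW0 : 0 ≤ W := by
    have := N2_nonneg N b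
    positivity
  have h2 := hG0 c ρ' hc hρ1 N hN2 b
  have hr : (0 : ℝ) ≤ r := Nat.cast_nonneg r
  constructor
  · intro x R' hx hR1 hR2
    have h1 := hG R' hR1 hR2 x hx c ρ' hc hρ1 N hN1 b
    have h4 : 1 ≤ R' ^ (3 / 4 : ℝ) := Real.one_le_rpow hR1 (by norm_num)
    calc _ ≤ ∑ m ∈ Finset.Ioc (SG.NZ T) (SG.NZ (2 * T)), ((E * PW T c ρ' (SG.ord m)) *
          (|(nz (SG.ord m + x) (R' / Real.log T) : ℝ) - R' / Real.pi| + (r + 1))) * ‖dp N b (SG.ord m)‖ ^ 2 := by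
          refine Finset.sum_le_sum fun m _ => ?_
          apply mul_le_mul_of_nonneg_right _ (sq_nonneg _)
          exact mul_le_mul_of_nonneg_right (inj_PW hL0 m) (by positivity)
      _ = E * (∑ s ∈ H370.Zf riemannZeta T (2 * T), (mz s : ℝ) *
              ((|(nz (s.im + x) (R' / Real.log T) : ℝ) - R' / Real.pi| * PW T c ρ' s.im) * ‖dp N b s.im‖ ^ 2) +
            (r + 1) * ∑ s ∈ H370.Zf riemannZeta T (2 * T), (mz s : ℝ) * (PW T c ρ' s.im * ‖dp N b s.im‖ ^ 2)) := by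
          rw [sum_blk hT1 (fun γ => ((E * PW T c ρ' γ) * (|(nz (γ + x) (R' / Real.log T) : ℝ) - R' / Real.pi| + (r + 1))) * ‖dp N b γ‖ ^ 2),
            Finset.mul_sum (a := ((r : ℝ) + 1)), ← Finset.sum_add_distrib, Finset.mul_sum]
          refine Finset.sum_congr rfl fun s _ => ?_
          ring
      _ ≤ E * (C₁ * R' ^ (3 / 4 : ℝ) * Real.log T * T * N2 N b + (r + 1) * (C₂ * Real.log T * T * N2 N b)) := by
          apply mul_le_mul_of_nonneg_left _ hE0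
          exact add_le_add h1 (mul_le_mul_of_nonneg_left h2 (by positivity))
      _ = E * ((C₁ * R' ^ (3 / 4 : ℝ) + (r + 1) * C₂ * 1) * W) := by rw [hW]; ring
      _ ≤ E * ((C₁ * R' ^ (3 / 4 : ℝ) + (r + 1) * C₂ * R' ^ (3 / 4 : ℝ)) * W) := by gcongr
      _ = _ := by rw [hW]; ring
  · calc _ ≤ ∑ m ∈ Finset.Ioc (SG.NZ T) (SG.NZ (2 * T)), (E * PW T c ρ' (SG.ord m)) * ‖dp N b (SG.ord m)‖ ^ 2 := by
          refine Finset.sum_le_sum fun m _ => ?_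
          exact mul_le_mul_of_nonneg_right (inj_PW hL0 m) (sq_nonneg _)
      _ = E * ∑ s ∈ H370.Zf riemannZeta T (2 * T), (mz s : ℝ) * (PW T c ρ' s.im * ‖dp N b s.im‖ ^ 2) := by
          rw [sum_blk hT1 (fun γ => (E * PW T c ρ' γ) * ‖dp N b γ‖ ^ 2), Finset.mul_sum]
          refine Finset.sum_congr rfl fun s _ => ?_
          ring
      _ ≤ E * (C₂ * Real.log T * T * N2 N b) := mul_le_mul_of_nonneg_left h2 hE0
      _ = (C₂ * E) * W := by rw [hW]; ring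
      _ ≤ ((C₁ + (r + 1) * C₂) * E) * W := by
          apply mul_le_mul_of_nonneg_right _ hW0
          apply mul_le_mul_of_nonneg_right _ hE0
          nlinarith
      _ = _ := by rw [hW]; ring

end Pool.Agent.V8H36.KL
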