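import Pool.Agent.V8H36.KL.Dya

set_option autoImplicit false

/-! From dyadic blocks to `(0, T]`. -/

open Filter Topology MeasureTheory Complex

namespace Pool.Agent.V8H36.KL

open Pool.Agent.Q97.UM
open Pool.Agent.Q210.UM (gint V_cont nz_mono Zw_sub nz_eq nz_cover)

/-- a crude bound for the number of zeros in a window, all heights -/
theorem nz_crude2 : ∃ C : ℝ, 1 ≤ C ∧ ∀ T t r : ℝ, 16 ≤ T → -1 ≤ t → t ≤ 3 * T → r ≤ 1 / 2 →
    (nz t r : ℝ) ≤ C * Real.log T := by
  obtain ⟨C, hC, h⟩ := nz_crude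
  obtain ⟨C', hC', h'⟩ := H370.zcount H370.good_zeta
  refine ⟨2 * C' + (nz 0 4 : ℝ) + 1, by have : (0 : ℝ) ≤ nz 0 4 := Nat.cast_nonneg _; linarith, fun T t r hT h1 h2 hr => ?_⟩
  have hlog : 1 < Real.log T := by
    rw [Real.lt_log_iff_exp_lt (by linarith)]
    have := Real.exp_one_lt_d9
    linarith
  have h0 : (0 : ℝ) ≤ nz 0 4 := Nat.cast_nonneg _
  by_cases ht : 3 ≤ t
  · have h3 := h' t (by linarith)
    have hfin := H370.zset_finite H370.good_zeta (t - 1) (t + 1) (by linarith)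
    have hsub : Zw t r ⊆ H370.zset riemannZeta (t - 1) (t + 1) := by
      rintro ρ ⟨a0, a1, a2, a3⟩
      have a5 := abs_le.1 a3
      exact ⟨a1, a2, by linarith [a5.1], by linarith [a5.2], a0⟩
    have hfinZ := hfin.subset hsub
    have h4 : nz t r ≤ H370.NN riemannZeta (t - 1) (t + 1) := by
      unfold nz H370.NN H370.mult
      rw [finsum_mem_eq_finite_toFinset_sum _ hfinZ, finsum_mem_eq_finite_toFinset_sum _ hfin]
      apply Finset.sum_le_sum_of_subset
      intro x hx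
      rw [Set.Finite.mem_toFinset] at hx ⊢
      exact hsub hx
    have h5 : Real.log t ≤ 2 * Real.log T := by
      calc Real.log t ≤ Real.log (T ^ 2) := Real.log_le_log (by linarith) (by nlinarith)
        _ = 2 * Real.log T := by rw [Real.log_pow]; norm_num
    calc (nz t r : ℝ) ≤ (H370.NN riemannZeta (t - 1) (t + 1) : ℝ) := by exact_mod_cast h4
      _ ≤ C' * Real.log t := h3
      _ ≤ C' * (2 * Real.log T) := by gcongr
      _ ≤ _ := by nlinarith
  · push Not at ht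
    have h3 : nz t r ≤ nz 0 4 := nz_mono hZ2 (Zw_sub (by
      rw [sub_zero]
      have : |t| ≤ 3 := abs_le.2 ⟨by linarith, ht.le⟩
      linarith))
    have h4 : (nz t r : ℝ) ≤ nz 0 4 := by exact_mod_cast h3
    nlinarith

/-- a crude bound for the number of zeros up to `x ≤ T` -/
theorem NZ_crude : ∃ C : ℝ, 1 ≤ C ∧ ∀ T x : ℝ, 16 ≤ T → 0 ≤ x → x ≤ T → (SG.NZ x : ℝ) ≤ C * ((x + 2) * Real.log T) := by
  obtain ⟨C, hC, h⟩ := nz_crude2
  refine ⟨C, hC, fun T x hT hx hxT => ?_⟩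
  have e1 : SG.NZ x ≤ (ix 0 x).card := by
    have : Finset.Icc 1 (SG.NZ x) ⊆ ix 0 x := by
      intro n hn
      rw [Finset.mem_Icc] at hn
      rw [mem_ix]
      refine ⟨hn.1, ?_, (SG.ord_le_iff hn.1 x).2 hn.2⟩
      have h2 := ord_mem (T := x) (Finset.mem_Icc.2 hn)
      rw [Finset.mem_image] at h2
      obtain ⟨s, hs, hs'⟩ := h2
      rw [← hs']
      exact (mem_Z0.1 hs).2.2.2.1.le
    calc SG.NZ x = (Finset.Icc 1 (SG.NZ x)).card := by rw [Nat.card_Icc]; omega
      _ ≤ _ := Finset.card_le_card this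
  have e2 := ix_card_le 0 x
  have e3 := nz_cover hZ2 (t := (0 + x) / 2) (r := 1 / 2) (w := (x - 0) / 2) (by norm_num) (by linarith)
  have e4 : (SG.NZ x : ℝ) ≤ ((∑ j ∈ Finset.range (⌈(x - 0) / 2 / (1 / 2)⌉₊ + 1),
      nz ((0 + x) / 2 + (-((x - 0) / 2) + 1 / 2 + 2 * (1 / 2) * j)) (1 / 2) : ℕ) : ℝ) := by
    exact_mod_cast e1.trans (e2.trans e3)
  refine e4.trans ?_
  push_cast
  have hc : ((⌈(x - 0) / 2 / (1 / 2)⌉₊ : ℕ) : ℝ) < x + 1 := by
    have := Nat.ceil_lt_add_one (show 0 ≤ (x - 0) / 2 / (1 / 2) by rw [sub_zero]; positivity)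
    have e : (x - 0) / 2 / (1 / 2) = x := by ring
    rw [e] at this ⊢
    exact this
  calc ∑ j ∈ Finset.range (⌈(x - 0) / 2 / (1 / 2)⌉₊ + 1), (nz ((0 + x) / 2 + (-((x - 0) / 2) + 1 / 2 + 2 * (1 / 2) * j)) (1 / 2) : ℝ)
      ≤ ∑ _j ∈ Finset.range (⌈(x - 0) / 2 / (1 / 2)⌉₊ + 1), C * Real.log T := by
        refine Finset.sum_le_sum fun j hj => ?_
        have h1 : (j : ℝ) ≤ ⌈(x - 0) / 2 / (1 / 2)⌉₊ := by
          have := Finset.mem_range.1 hj
          exact_mod_cast Nat.lt_succ_iff.1 this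
        have h2 : (0 : ℝ) ≤ j := Nat.cast_nonneg j
        have e : (0 + x) / 2 + (-((x - 0) / 2) + 1 / 2 + 2 * (1 / 2) * (j : ℝ)) = 1 / 2 + j := by ring
        rw [e]
        exact h T _ _ hT (by linarith) (by linarith) le_rfl
    _ = (((⌈(x - 0) / 2 / (1 / 2)⌉₊ : ℕ) : ℝ) + 1) * (C * Real.log T) := by
        rw [Finset.sum_const, Finset.card_range, nsmul_eq_mul]
        push_cast
        ring
    _ ≤ (x + 2) * (C * Real.log T) := by
        have := Real.log_nonneg (by linarith : 1 ≤ T)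
        apply mul_le_mul_of_nonneg_right _ (by positivity)
        linarith
    _ = _ := by ring

/-- summation over dyadic blocks -/
theorem blocks {T α β : ℝ} (hT : 4 ≤ T) (hα : 0 ≤ α) (hβ : 0 ≤ β) (w : ℕ → ℝ) (hw : ∀ m, 0 ≤ w m)
    (h : ∀ T' : ℝ, Real.sqrt T ≤ T' → T' ≤ T / 2 → ∑ m ∈ Finset.Ioc (SG.NZ T') (SG.NZ (2 * T')), w m ≤
      α * (T' * Real.log T') + β * (T' * Real.log (T / T'))) :
    ∑ m ∈ Finset.Ioc (SG.NZ (2 * Real.sqrt T)) (SG.NZ T), w m ≤ α * (T * Real.log T) + 2 * β * T := by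
  have hT0 : 0 < T := by linarith
  have hs0 : 0 < Real.sqrt T := Real.sqrt_pos.2 hT0
  have hs1 : 1 ≤ Real.sqrt T := by rw [← Real.sqrt_one]; exact Real.sqrt_le_sqrt (by linarith)
  have hL0 : 0 ≤ Real.log T := Real.log_nonneg (by linarith)
  have hl2 : 0 < Real.log 2 := Real.log_pos (by norm_num)
  have hl2' : Real.log 2 ≤ 1 := by have := Real.log_two_lt_d9; linarith
  have key : ∀ n : ℕ, Real.sqrt T ≤ T / 2 ^ n → ∑ m ∈ Finset.Ioc (SG.NZ (T / 2 ^ n)) (SG.NZ T), w m ≤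
      α * ((T - T / 2 ^ n) * Real.log T) + β * Real.log 2 * (2 * T - (n + 2) * (T / 2 ^ n)) := by
    intro n
    induction n with
    | zero =>
      intro _
      simp only [pow_zero, div_one, Finset.Ioc_self, Finset.sum_empty, sub_self, zero_mul, mul_zero, Nat.cast_zero, zero_add, le_refl]
    | succ n ih =>
      intro hn
      set x := T / 2 ^ (n + 1) with hx
      have hx2 : T / 2 ^ n = 2 * x := by rw [hx, pow_succ]; field_simp
      have hx0 : 0 < x := by rw [hx]; positivity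
      have hxT : x ≤ T / 2 := by
        rw [hx, pow_succ, div_le_div_iff₀ (by positivity) (by norm_num)]
        have : (1 : ℝ) ≤ 2 ^ n := one_le_pow₀ (by norm_num)
        nlinarith
      have ih' := ih (by rw [hx2]; linarith)
      rw [hx2] at ih'
      have h1 := h x hn hxT
      have h2 : Finset.Ioc (SG.NZ x) (SG.NZ T) = Finset.Ioc (SG.NZ x) (SG.NZ (2 * x)) ∪ Finset.Ioc (SG.NZ (2 * x)) (SG.NZ T) :=
        (Finset.Ioc_union_Ioc_eq_Ioc (SG.NZ_mono (by linarith)) (SG.NZ_mono (by linarith))).symm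
      have h3 : Disjoint (Finset.Ioc (SG.NZ x) (SG.NZ (2 * x))) (Finset.Ioc (SG.NZ (2 * x)) (SG.NZ T)) := by
        rw [Finset.disjoint_left]
        intro m hm hm'
        rw [Finset.mem_Ioc] at hm hm'
        omega
      rw [h2, Finset.sum_union h3]
      have h4 : Real.log (T / x) = (n + 1) * Real.log 2 := by
        have : T / x = 2 ^ (n + 1) := by rw [hx]; field_simp
        rw [this, Real.log_pow]
        push_cast
        ring
      rw [h4] at h1
      have h5 : x * Real.log x ≤ x * Real.log T := by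
        apply mul_le_mul_of_nonneg_left _ hx0.le
        exact Real.log_le_log hx0 (by linarith)
      have h6 := mul_le_mul_of_nonneg_left h5 hα
      push_cast
      nlinarith
  -- choose `n`
  obtain ⟨n, hn1, hn2⟩ : ∃ n : ℕ, Real.sqrt T ≤ T / 2 ^ n ∧ T / 2 ^ n < 2 * Real.sqrt T := by
    have h1 : 1 ≤ Real.sqrt T := hs1
    obtain ⟨n, hn1, hn2⟩ := exists_nat_pow_near h1 (by norm_num : (1 : ℝ) < 2)
    have hss : Real.sqrt T * Real.sqrt T = T := Real.mul_self_sqrt hT0.le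
    refine ⟨n, ?_, ?_⟩
    · rw [le_div_iff₀ (by positivity)]
      nlinarith
    · rw [div_lt_iff₀ (by positivity)]
      rw [pow_succ] at hn2
      nlinarith
  have h1 : Finset.Ioc (SG.NZ (2 * Real.sqrt T)) (SG.NZ T) ⊆ Finset.Ioc (SG.NZ (T / 2 ^ n)) (SG.NZ T) :=
    Finset.Ioc_subset_Ioc_left (SG.NZ_mono hn2.le)
  refine (Finset.sum_le_sum_of_subset_of_nonneg h1 (fun m _ _ => hw m)).trans ((key n hn1).trans ?_)
  have hx0 : 0 < T / 2 ^ n := by positivity
  have h2 : α * ((T - T / 2 ^ n) * Real.log T) ≤ α * (T * Real.log T) := by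
    apply mul_le_mul_of_nonneg_left _ hα
    apply mul_le_mul_of_nonneg_right _ hL0
    linarith
  have h3 : β * Real.log 2 * (2 * T - (n + 2) * (T / 2 ^ n)) ≤ 2 * β * T := by
    have h4 : 0 ≤ β * Real.log 2 := by positivity
    have h5 : 2 * T - (n + 2) * (T / 2 ^ n) ≤ 2 * T := by
      have : 0 ≤ ((n : ℝ) + 2) * (T / 2 ^ n) := by positivity
      linarith
    calc _ ≤ β * Real.log 2 * (2 * T) := mul_le_mul_of_nonneg_left h5 h4
      _ ≤ β * 1 * (2 * T) := by gcongr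
      _ = _ := by ring
  linarith

/-- the index windows of a box -/
noncomputable def JB {r : ℕ} (T : ℝ) (a b : Fin r → ℝ) (m : ℕ) (i : Fin r) : Finset ℕ :=
  ix (SG.ord m + 2 * Real.pi * a i / Real.log T) (SG.ord m + 2 * Real.pi * b i / Real.log T)

theorem JB_eq {r : ℕ} {T T' : ℝ} (hT : 0 < Real.log T) (hT' : 0 < Real.log T') (a b : Fin r → ℝ) (m : ℕ) :
    JB T a b m = JJ T' (fun i => Real.pi * (a i + b i) / Real.log T)
      (fun i => Real.pi * (b i - a i) * (Real.log T' / Real.log T)) m := by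
  funext i
  unfold JB JJ
  congr 1
  · field_simp
    ring
  · field_simp
    ring

/-- membership in terms of normalised differences -/
theorem mem_JB {r : ℕ} {T : ℝ} (hT : 0 < Real.log T) {a b : Fin r → ℝ} {m n : ℕ} {i : Fin r} :
    n ∈ JB T a b m i ↔ 1 ≤ n ∧ (SG.ord n - SG.ord m) * (Real.log T / (2 * Real.pi)) ∈ Set.Icc (a i) (b i) := by
  have hpi := Real.pi_pos
  unfold JB
  rw [mem_ix, Set.mem_Icc]
  have e1 : SG.ord m + 2 * Real.pi * a i / Real.log T ≤ SG.ord n ↔ a i ≤ (SG.ord n - SG.ord m) * (Real.log T / (2 * Real.pi)) := by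
    rw [← mul_div_assoc, le_div_iff₀ (by positivity), ← le_sub_iff_add_le', div_le_iff₀ hT]
    constructor <;> intro h <;> linarith
  have e2 : SG.ord n ≤ SG.ord m + 2 * Real.pi * b i / Real.log T ↔ (SG.ord n - SG.ord m) * (Real.log T / (2 * Real.pi)) ≤ b i := by
    rw [← mul_div_assoc, div_le_iff₀ (by positivity), ← sub_le_iff_le_add', le_div_iff₀ hT]
    constructor <;> intro h <;> linarith
  rw [e1, e2]

/-- crude bound for the windows -/
theorem JB_crude {C T A : ℝ} (hcr : ∀ T t r : ℝ, 16 ≤ T → -1 ≤ t → t ≤ 3 * T → r ≤ 1 / 2 → (nz t r : ℝ) ≤ C * Real.log T)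
    (hT : 16 ≤ T) (hL : 16 * A ≤ Real.log T) {r : ℕ} {a b : Fin r → ℝ} (ha : ∀ i, |a i| ≤ A) (hb : ∀ i, |b i| ≤ A) {m : ℕ}
    (hm0 : 0 ≤ SG.ord m) (hm : SG.ord m ≤ T) (i : Fin r) : ((JB T a b m i).card : ℝ) ≤ C * Real.log T := by
  have hL0 : 0 < Real.log T := Real.log_pos (by linarith)
  have hpi := Real.pi_lt_four
  have hpi0 := Real.pi_pos
  obtain ⟨a1, a2⟩ := abs_le.1 (ha i)
  obtain ⟨b1, b2⟩ := abs_le.1 (hb i)
  unfold JB
  have h1 := ix_card_le (SG.ord m + 2 * Real.pi * a i / Real.log T) (SG.ord m + 2 * Real.pi * b i / Real.log T)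
  have h2 : ((ix (SG.ord m + 2 * Real.pi * a i / Real.log T) (SG.ord m + 2 * Real.pi * b i / Real.log T)).card : ℝ) ≤
      nz ((SG.ord m + 2 * Real.pi * a i / Real.log T + (SG.ord m + 2 * Real.pi * b i / Real.log T)) / 2)
        ((SG.ord m + 2 * Real.pi * b i / Real.log T - (SG.ord m + 2 * Real.pi * a i / Real.log T)) / 2) := by exact_mod_cast h1
  refine h2.trans (hcr T _ _ hT ?_ ?_ ?_)
  · have e : (SG.ord m + 2 * Real.pi * a i / Real.log T + (SG.ord m + 2 * Real.pi * b i / Real.log T)) / 2 =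
      SG.ord m + Real.pi * (a i + b i) / Real.log T := by ring
    rw [e]
    have : -1 ≤ Real.pi * (a i + b i) / Real.log T := by
      rw [le_div_iff₀ hL0]
      nlinarith
    linarith
  · have e : (SG.ord m + 2 * Real.pi * a i / Real.log T + (SG.ord m + 2 * Real.pi * b i / Real.log T)) / 2 =
      SG.ord m + Real.pi * (a i + b i) / Real.log T := by ring
    rw [e]
    have : Real.pi * (a i + b i) / Real.log T ≤ 1 := by
      rw [div_le_iff₀ hL0]
      nlinarith
    linarith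
  · have e : (SG.ord m + 2 * Real.pi * b i / Real.log T - (SG.ord m + 2 * Real.pi * a i / Real.log T)) / 2 =
      Real.pi * (b i - a i) / Real.log T := by ring
    rw [e, div_le_iff₀ hL0]
    nlinarith

theorem ord_nonneg {m : ℕ} (hm : 1 ≤ m) : 0 < SG.ord m := by
  have h1 := SG.le_NZ_ord hm
  have h2 := ord_mem (T := SG.ord m) (Finset.mem_Icc.2 ⟨hm, h1⟩)
  rw [Finset.mem_image] at h2
  obtain ⟨s, hs, hs'⟩ := h2
  rw [← hs']
  exact (mem_Z0.1 hs).2.2.2.1

end Pool.Agent.V8H36.KL
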