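import Pool.Agent.V8H36.KL.Full

set_option autoImplicit false

/-! From dyadic blocks to `(0, T]`: the main estimates. -/

open Filter Topology MeasureTheory Complex

namespace Pool.Agent.V8H36.KL

open Pool.Agent.Q97.UM
open Pool.Agent.Q210.UM (gint V_cont nz_mono Zw_sub nz_eq nz_cover)

/-- the constant polynomial -/
theorem dp_one (t : ℝ) : ‖dp 1 (fun _ => 1) t‖ ^ 2 = 1 := by
  unfold dp
  simp

theorem N2_one : N2 1 (fun _ => 1) = 1 := by
  unfold N2
  simp

theorem one_le_cast_rpow {T θ : ℝ} (hT : 1 ≤ T) (hθ : 0 ≤ θ) : ((1 : ℕ) : ℝ) ≤ T ^ θ := by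
  rw [Nat.cast_one]
  exact Real.one_le_rpow hT hθ

/-- polylogarithmic factors times `√T` -/
theorem ev_polylog (K : ℕ) (M δ : ℝ) (hM : 0 ≤ M) (hδ : 0 < δ) :
    ∀ᶠ T : ℝ in atTop, M * (Real.log T ^ K * (2 * Real.sqrt T + 2)) ≤ δ * T := by
  have h1 := (isLittleO_log_rpow_rpow_atTop (K : ℝ) (by norm_num : (0 : ℝ) < 1 / 2)).bound
    (show (0 : ℝ) < δ / (4 * (M + 1)) by positivity)
  filter_upwards [h1, eventually_ge_atTop (1 : ℝ)] with T h1 hT1
  have hT0 : 0 < T := by linarith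
  have hL : 0 ≤ Real.log T := Real.log_nonneg hT1
  rw [Real.rpow_natCast, Real.norm_of_nonneg (by positivity), Real.norm_of_nonneg (by positivity), ← Real.sqrt_eq_rpow] at h1
  have hs : Real.sqrt T * Real.sqrt T = T := Real.mul_self_sqrt hT0.le
  have hs1 : 1 ≤ Real.sqrt T := by rw [← Real.sqrt_one]; exact Real.sqrt_le_sqrt hT1
  calc M * (Real.log T ^ K * (2 * Real.sqrt T + 2)) ≤ (M + 1) * ((δ / (4 * (M + 1)) * Real.sqrt T) * (4 * Real.sqrt T)) := by
        gcongr
        · linarith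
        · linarith
    _ = δ * (Real.sqrt T * Real.sqrt T) := by field_simp
    _ = δ * T := by rw [hs]

/-- the low part -/
theorem low_part (K : ℕ) (M δ : ℝ) (hM : 0 ≤ M) (hδ : 0 < δ) : ∀ᶠ T : ℝ in atTop, ∀ w : ℕ → ℝ,
    (∀ m, 1 ≤ m → SG.ord m ≤ T → w m ≤ M * Real.log T ^ K) →
    ∑ m ∈ Finset.Ioc 0 (SG.NZ (2 * Real.sqrt T)), w m ≤ δ * T := by
  obtain ⟨C, hC, hN⟩ := NZ_crude
  filter_upwards [ev_polylog (K + 1) (M * C) δ (by positivity) hδ, eventually_ge_atTop (16 : ℝ)] with T h1 hT w hw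
  have hT0 : 0 < T := by linarith
  have hL : 0 ≤ Real.log T := Real.log_nonneg (by linarith)
  have hsT : 2 * Real.sqrt T ≤ T := by
    have : Real.sqrt T ≤ T / 2 := by
      rw [Real.sqrt_le_left (by linarith)]
      nlinarith
    linarith
  have hs0 : 0 ≤ Real.sqrt T := Real.sqrt_nonneg T
  have h2 := hN T (2 * Real.sqrt T) hT (by linarith) hsT
  calc ∑ m ∈ Finset.Ioc 0 (SG.NZ (2 * Real.sqrt T)), w m ≤ ∑ _m ∈ Finset.Ioc 0 (SG.NZ (2 * Real.sqrt T)), M * Real.log T ^ K := by
        refine Finset.sum_le_sum fun m hm => ?_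
        rw [Finset.mem_Ioc] at hm
        have hm1 : 1 ≤ m := by omega
        exact hw m hm1 (((SG.ord_le_iff hm1 _).2 hm.2).trans hsT)
    _ = (SG.NZ (2 * Real.sqrt T) : ℝ) * (M * Real.log T ^ K) := by
        rw [Finset.sum_const, Nat.card_Ioc, Nat.sub_zero, nsmul_eq_mul]
    _ ≤ (C * ((2 * Real.sqrt T + 2) * Real.log T)) * (M * Real.log T ^ K) := mul_le_mul_of_nonneg_right h2 (by positivity)
    _ = (M * C) * (Real.log T ^ (K + 1) * (2 * Real.sqrt T + 2)) := by rw [pow_succ]; ring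
    _ ≤ δ * T := h1

/-- the number of zeros -/
theorem NZ_asymp (δ : ℝ) (hδ : 0 < δ) : ∀ᶠ T : ℝ in atTop, |(SG.NZ T : ℝ) - T * Real.log T / (2 * Real.pi)| ≤ δ * (T * Real.log T) := by
  obtain ⟨θ, hθ0, hθ1, hS⟩ := b_SAMP (δ / 8) (by positivity)
  obtain ⟨T₀, hS⟩ := eventually_atTop.1 hS
  have hlowev := low_part 0 1 (δ / 8) (by norm_num) (by positivity)
  have hpi := Real.pi_gt_three
  filter_upwards [hlowev, eventually_ge_atTop (16 : ℝ), Real.tendsto_log_atTop.eventually_ge_atTop (8 / δ + 2),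
    (Real.tendsto_sqrt_atTop).eventually_ge_atTop T₀, (Real.tendsto_sqrt_atTop).eventually_ge_atTop (16 / δ)] with T hlow hT hL hsT hsd
  have hT0 : 0 < T := by linarith
  have hs0 : 0 < Real.sqrt T := Real.sqrt_pos.2 hT0
  have hs1 : 1 ≤ Real.sqrt T := by rw [← Real.sqrt_one]; exact Real.sqrt_le_sqrt (by linarith)
  have hss : Real.sqrt T * Real.sqrt T = T := Real.mul_self_sqrt hT0.le
  have hl2 : 0 < Real.log 2 := Real.log_pos (by norm_num)
  have hl2' : Real.log 2 ≤ 1 := by have := Real.log_two_lt_d9; linarith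
  have hLd : 8 / δ ≤ Real.log T := by linarith
  have hL2 : 2 ≤ Real.log T := by
    have : 0 < 8 / δ := by positivity
    linarith
  have hblk : ∀ x : ℝ, Real.sqrt T ≤ x → x ≤ T / 2 →
      |((SG.NZ (2 * x) : ℝ) - SG.NZ x) - (2 * x * Real.log (2 * x) / (2 * Real.pi) - x * Real.log x / (2 * Real.pi))| ≤
        δ / 4 * (x * Real.log T) := by
    intro x hx1 hx2
    have hx0 : 0 < x := by linarith
    have hx1' : 1 ≤ x := by linarith
    have h1 := (hS x (hsT.trans hx1) 1 (one_le_cast_rpow hx1' hθ0.le) (fun _ => 1)).2.2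
    rw [N2_one, mul_one] at h1
    have e1 : ∑ s ∈ H370.Zf riemannZeta x (2 * x), (mz s : ℝ) * ‖dp 1 (fun _ => 1) s.im‖ ^ 2 = (SG.NZ (2 * x) : ℝ) - SG.NZ x := by
      rw [← sum_blk hx1' (fun t => ‖dp 1 (fun _ => 1) t‖ ^ 2)]
      simp only [dp_one, Finset.sum_const, Nat.card_Ioc, nsmul_eq_mul, mul_one]
      rw [Nat.cast_sub (SG.NZ_mono (by linarith))]
    rw [e1] at h1
    have h2 : 2 * x * Real.log (2 * x) / (2 * Real.pi) - x * Real.log x / (2 * Real.pi) =
        Real.log x / (2 * Real.pi) * x + x * Real.log 2 / Real.pi := by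
      rw [Real.log_mul (by norm_num) hx0.ne']
      field_simp
      ring
    rw [h2]
    have h3 : Real.log x ≤ Real.log T := Real.log_le_log hx0 (by linarith)
    have h4 : 0 ≤ Real.log x := Real.log_nonneg hx1'
    have h5 : x * Real.log 2 / Real.pi ≤ δ / 8 * (x * Real.log T) := by
      rw [div_le_iff₀ (by linarith)]
      have h6 : 1 ≤ δ / 8 * Real.log T := by
        rw [div_le_iff₀ hδ] at hLd
        linarith
      calc x * Real.log 2 ≤ x * 1 := by gcongr
        _ ≤ x * (δ / 8 * Real.log T) := by gcongr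
        _ = δ / 8 * (x * Real.log T) * 1 := by ring
        _ ≤ δ / 8 * (x * Real.log T) * Real.pi := by
            apply mul_le_mul_of_nonneg_left _ (by positivity)
            linarith
    have h6 : 0 ≤ x * Real.log 2 / Real.pi := by positivity
    have h7 : δ / 8 * Real.log x * x ≤ δ / 8 * (x * Real.log T) := by
      have := mul_le_mul_of_nonneg_left h3 (by positivity : 0 ≤ δ / 8 * x)
      linarith
    obtain ⟨a1, a2⟩ := abs_le.1 h1
    rw [abs_le]
    constructor <;> linarith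
  have key : ∀ n : ℕ, Real.sqrt T ≤ T / 2 ^ n →
      |((SG.NZ T : ℝ) - SG.NZ (T / 2 ^ n)) - (T * Real.log T / (2 * Real.pi) - (T / 2 ^ n) * Real.log (T / 2 ^ n) / (2 * Real.pi))| ≤
        δ / 4 * ((T - T / 2 ^ n) * Real.log T) := by
    intro n
    induction n with
    | zero =>
      intro _
      simp
    | succ n ih =>
      intro hn
      set x := T / 2 ^ (n + 1) with hx
      have hx2 : T / 2 ^ n = 2 * x := by rw [hx, pow_succ]; field_simp
      have hx0 : 0 < x := by rw [hx]; positivity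
      have hxT : x ≤ T / 2 := by
        rw [hx, pow_succ, div_le_div_iff₀ (by positivity) (by norm_num)]
        have : (1 : ℝ) ≤ 2 ^ n := one_le_pow₀ (by norm_num)
        nlinarith
      have ih' := ih (by rw [hx2]; linarith)
      rw [hx2] at ih'
      have h1 := hblk x hn hxT
      have e : ((SG.NZ T : ℝ) - SG.NZ x) - (T * Real.log T / (2 * Real.pi) - x * Real.log x / (2 * Real.pi)) =
          (((SG.NZ T : ℝ) - SG.NZ (2 * x)) - (T * Real.log T / (2 * Real.pi) - (2 * x) * Real.log (2 * x) / (2 * Real.pi))) +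
          (((SG.NZ (2 * x) : ℝ) - SG.NZ x) - (2 * x * Real.log (2 * x) / (2 * Real.pi) - x * Real.log x / (2 * Real.pi))) := by ring
      rw [e]
      refine (abs_add_le _ _).trans ((add_le_add ih' h1).trans (le_of_eq ?_))
      ring
  obtain ⟨n, hn1, hn2⟩ : ∃ n : ℕ, Real.sqrt T ≤ T / 2 ^ n ∧ T / 2 ^ n < 2 * Real.sqrt T := by
    obtain ⟨n, hn1, hn2⟩ := exists_nat_pow_near hs1 (by norm_num : (1 : ℝ) < 2)
    refine ⟨n, ?_, ?_⟩
    · rw [le_div_iff₀ (by positivity)]
      nlinarith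
    · rw [div_lt_iff₀ (by positivity)]
      rw [pow_succ] at hn2
      nlinarith
  have h1 := key n hn1
  set x := T / 2 ^ n with hx
  have hx0 : 0 < x := by linarith
  have hx1 : 1 ≤ x := by linarith
  have h2 : (SG.NZ x : ℝ) ≤ δ / 8 * T := by
    have h3 := hlow (fun _ => 1) (fun m _ _ => by norm_num)
    rw [Finset.sum_const, Nat.card_Ioc, Nat.sub_zero, nsmul_eq_mul, mul_one] at h3
    have h4 : (SG.NZ x : ℝ) ≤ SG.NZ (2 * Real.sqrt T) := by exact_mod_cast SG.NZ_mono hn2.le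
    linarith
  have h3 : x * Real.log x / (2 * Real.pi) ≤ δ / 8 * (T * Real.log T) := by
    have h4 : Real.log x ≤ Real.log T := Real.log_le_log hx0 (by rw [hx]; exact div_le_self hT0.le (one_le_pow₀ (by norm_num)))
    have h5 : x ≤ δ / 8 * T := by
      have : 2 * Real.sqrt T ≤ δ / 8 * T := by
        rw [div_le_iff₀ hδ] at hsd
        calc 2 * Real.sqrt T = (1 / 8) * (16 * Real.sqrt T) := by ring
          _ ≤ (1 / 8) * ((Real.sqrt T * δ) * Real.sqrt T) := by gcongr
          _ = δ / 8 * (Real.sqrt T * Real.sqrt T) := by ring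
          _ = δ / 8 * T := by rw [hss]
      linarith
    have h6 : 0 ≤ Real.log x := Real.log_nonneg hx1
    calc x * Real.log x / (2 * Real.pi) ≤ x * Real.log x := div_le_self (by positivity) (by linarith)
      _ ≤ (δ / 8 * T) * Real.log T := by gcongr
      _ = _ := by ring
  have h4 : 0 ≤ x * Real.log x / (2 * Real.pi) := by
    have : 0 ≤ Real.log x := Real.log_nonneg hx1
    positivity
  have h5 : (0 : ℝ) ≤ SG.NZ x := Nat.cast_nonneg _
  have h6 : δ / 8 * T ≤ δ / 8 * (T * Real.log T) := by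
    have : T ≤ T * Real.log T := by nlinarith
    have := mul_le_mul_of_nonneg_left this (by positivity : 0 ≤ δ / 8)
    linarith
  have h7 : δ / 4 * ((T - x) * Real.log T) ≤ δ / 4 * (T * Real.log T) := by
    apply mul_le_mul_of_nonneg_left _ (by positivity)
    apply mul_le_mul_of_nonneg_right _ (by linarith)
    linarith
  obtain ⟨a1, a2⟩ := abs_le.1 h1
  have hTL : 0 ≤ δ * (T * Real.log T) := by positivity
  rw [abs_le]
  constructor <;> linarith

end Pool.Agent.V8H36.KL
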