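import Pool.Agent.V8H36.KL.Full2

set_option autoImplicit false

/-! From dyadic blocks to `(0, T]`: tuples. -/

open Filter Topology MeasureTheory Complex

namespace Pool.Agent.V8H36.KL

open Pool.Agent.Q97.UM
open Pool.Agent.Q210.UM (gint V_cont nz_mono Zw_sub nz_eq nz_cover)

theorem one_sub_pow_le {κ : ℝ} (h0 : 0 ≤ κ) (r : ℕ) : 1 - κ ^ r ≤ r * (1 - κ) := by
  have h := one_add_mul_le_pow (show (-2 : ℝ) ≤ κ - 1 by linarith) r
  have e : 1 + (κ - 1) = κ := by ring
  rw [e] at h
  linarith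

/-- the number of injective choices is polylogarithmic -/
theorem inj_crude {C T A : ℝ} (hC : 1 ≤ C) (hcr : ∀ T t r : ℝ, 16 ≤ T → -1 ≤ t → t ≤ 3 * T → r ≤ 1 / 2 → (nz t r : ℝ) ≤ C * Real.log T)
    (hT : 16 ≤ T) (hL : 16 * A ≤ Real.log T) {r : ℕ} {a b : Fin r → ℝ} (ha : ∀ i, |a i| ≤ A) (hb : ∀ i, |b i| ≤ A) {m : ℕ}
    (hm0 : 0 ≤ SG.ord m) (hm : SG.ord m ≤ T) : ((inj (JB T a b m) {m}).card : ℝ) ≤ C ^ r * Real.log T ^ r := by
  have h1 : ((inj (JB T a b m) {m}).card : ℝ) ≤ ((∏ i, (JB T a b m i).card : ℕ) : ℝ) := by exact_mod_cast inj_le _ _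
  refine h1.trans ?_
  push_cast
  calc ∏ i, ((JB T a b m i).card : ℝ) ≤ ∏ _i : Fin r, (C * Real.log T) :=
        Finset.prod_le_prod (fun i _ => Nat.cast_nonneg _) fun i _ => JB_crude hcr hT hL ha hb hm0 hm i
    _ = _ := by rw [Finset.prod_const, Finset.card_univ, Fintype.card_fin, mul_pow]

/-- the number of indices of a block -/
theorem blk_card {C T T' : ℝ} (hN : ∀ T x : ℝ, 16 ≤ T → 0 ≤ x → x ≤ T → (SG.NZ x : ℝ) ≤ C * ((x + 2) * Real.log T)) (hC : 1 ≤ C)
    (hT : 16 ≤ T) (h1 : 1 ≤ T') (h2 : T' ≤ T / 2) :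
    ((Finset.Ioc (SG.NZ T') (SG.NZ (2 * T'))).card : ℝ) ≤ 4 * C * (T' * Real.log T) := by
  have h3 := hN T (2 * T') hT (by linarith) (by linarith)
  have hL : 0 ≤ Real.log T := Real.log_nonneg (by linarith)
  rw [Nat.card_Ioc]
  have h4 : ((SG.NZ (2 * T') - SG.NZ T' : ℕ) : ℝ) ≤ SG.NZ (2 * T') := by exact_mod_cast Nat.sub_le _ _
  calc _ ≤ C * ((2 * T' + 2) * Real.log T) := h4.trans h3
    _ ≤ C * ((4 * T') * Real.log T) := by gcongr; linarith
    _ = _ := by ring

/-- common set-up for blocks -/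
theorem kap {T T' : ℝ} (hT : 16 ≤ T) (h1 : Real.sqrt T ≤ T') (h2 : T' ≤ T / 2) :
    1 / 2 ≤ Real.log T' / Real.log T ∧ Real.log T' / Real.log T ≤ 1 ∧ 1 - Real.log T' / Real.log T = Real.log (T / T') / Real.log T ∧
    0 ≤ Real.log (T / T') := by
  have hT0 : 0 < T := by linarith
  have hs0 : 0 < Real.sqrt T := Real.sqrt_pos.2 hT0
  have hT'0 : 0 < T' := by linarith
  have hL : 0 < Real.log T := Real.log_pos (by linarith)
  refine ⟨?_, ?_, ?_, Real.log_nonneg ?_⟩
  · rw [le_div_iff₀ hL]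
    have := Real.log_le_log hs0 h1
    rw [Real.log_sqrt hT0.le] at this
    linarith
  · rw [div_le_one hL]
    exact Real.log_le_log hT'0 (by linarith)
  · rw [Real.log_div hT0.ne' hT'0.ne', sub_div, div_self hL.ne']
  · rw [le_div_iff₀ hT'0]
    linarith

/-- **the deviation of the number of tuples** -/
theorem full_dev : ∀ r : ℕ, ∃ C : ℝ, 1 ≤ C ∧ ∀ a b : Fin r → ℝ, (∀ i, 1 ≤ b i - a i) → ∀ δ : ℝ, 0 < δ → ∀ᶠ T : ℝ in atTop,
    ∑ m ∈ Finset.Ioc 0 (SG.NZ T), |((inj (JB T a b m) {m}).card : ℝ) - ∏ i, (b i - a i)| ≤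
      (C * (∏ i, (b i - a i)) * (∑ i, (b i - a i) ^ (-(1 / 4) : ℝ)) + δ) * (T * Real.log T) := by
  obtain ⟨θ, hθ0, hθ1, hB⟩ := blk_dev
  obtain ⟨Cc, hCc, hcr⟩ := nz_crude2
  obtain ⟨Cn, hCn, hN⟩ := NZ_crude
  intro r
  obtain ⟨C, hC, hB⟩ := hB r
  refine ⟨C, hC, fun a b hab δ hδ => ?_⟩
  set s : Fin r → ℝ := fun i => b i - a i with hs
  have hs1 : ∀ i, 1 ≤ s i := hab
  set E := ∏ i, s i with hE
  have hE0 : 0 ≤ E := Finset.prod_nonneg fun i _ => by linarith [hs1 i]
  set A := ∑ i, (|a i| + |b i|) with hA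
  have hA0 : 0 ≤ A := Finset.sum_nonneg fun i _ => by positivity
  have haA : ∀ i, |a i| ≤ A := fun i => by
    have := Finset.single_le_sum (f := fun i => |a i| + |b i|) (fun i _ => by positivity) (Finset.mem_univ i)
    have h2 := abs_nonneg (b i)
    linarith
  have hbA : ∀ i, |b i| ≤ A := fun i => by
    have := Finset.single_le_sum (f := fun i => |a i| + |b i|) (fun i _ => by positivity) (Finset.mem_univ i)
    have h2 := abs_nonneg (a i)
    linarith
  set S0 := 1 + 8 * A with hS0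
  obtain ⟨T₀, hB⟩ := eventually_atTop.1 (hB S0 (by linarith))
  have hlow := low_part r (Cc ^ r + E) (δ / 2) (by positivity) (by positivity)
  set Q := ∑ i, s i ^ (-(1 / 4) : ℝ) with hQ
  have hQ0 : 0 ≤ Q := Finset.sum_nonneg fun i _ => by
    have := hs1 i
    positivity
  filter_upwards [hlow, eventually_ge_atTop (16 : ℝ), Real.tendsto_log_atTop.eventually_ge_atTop (16 * A + 2),
    (Real.tendsto_sqrt_atTop).eventually_ge_atTop T₀,
    Real.tendsto_log_atTop.eventually_ge_atTop (2 * (2 * (4 * Cn * E * r)) / δ)] with T hlow hT hL hsT hLd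
  have hT0 : 0 < T := by linarith
  have hT1 : 1 ≤ T := by linarith
  have hL0 : 0 < Real.log T := by linarith
  have hL1 : 1 ≤ Real.log T := by linarith
  have hpi := Real.pi_gt_three
  have hpi4 := Real.pi_lt_four
  have hs1T : 1 ≤ Real.sqrt T := by rw [← Real.sqrt_one]; exact Real.sqrt_le_sqrt (by linarith)
  have hsTT : 2 * Real.sqrt T ≤ T := by
    have : Real.sqrt T ≤ T / 2 := by
      rw [Real.sqrt_le_left (by linarith)]
      nlinarith
    linarith
  have hsplit : Finset.Ioc 0 (SG.NZ T) = Finset.Ioc 0 (SG.NZ (2 * Real.sqrt T)) ∪ Finset.Ioc (SG.NZ (2 * Real.sqrt T)) (SG.NZ T) :=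
    (Finset.Ioc_union_Ioc_eq_Ioc (Nat.zero_le _) (SG.NZ_mono hsTT)).symm
  have hdis : Disjoint (Finset.Ioc 0 (SG.NZ (2 * Real.sqrt T))) (Finset.Ioc (SG.NZ (2 * Real.sqrt T)) (SG.NZ T)) := by
    rw [Finset.disjoint_left]
    intro m hm hm'
    rw [Finset.mem_Ioc] at hm hm'
    omega
  rw [hsplit, Finset.sum_union hdis]
  have p1 := hlow (fun m => |((inj (JB T a b m) {m}).card : ℝ) - E|) (fun m hm1 hm2 => by
    have h1 := inj_crude hCc hcr hT (by linarith : 16 * A ≤ Real.log T) haA hbA (ord_nonneg hm1).le hm2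
    have h2 : (1 : ℝ) ≤ Real.log T ^ r := one_le_pow₀ hL1
    refine (abs_sub_le' _ _ (Nat.cast_nonneg _) hE0).trans ?_
    nlinarith)
  have p2 := blocks (T := T) (α := C * E * Q) (β := 4 * Cn * E * r) (by linarith) (by positivity) (by positivity)
    (fun m => |((inj (JB T a b m) {m}).card : ℝ) - E|) (fun m => abs_nonneg _) (fun T' h1 h2 => by
    obtain ⟨k1, k2, k3, k4⟩ := kap hT h1 h2
    set κ := Real.log T' / Real.log T with hκ
    have hT'1 : 1 ≤ T' := by linarith
    have hT'0 : 0 < T' := by linarith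
    have hL'0 : 0 < Real.log T' := by
      have : 0 < κ := by linarith
      rw [hκ, div_pos_iff_of_pos_right hL0] at this
      exact this
    have hJ : ∀ m, JB T a b m = JJ T' (fun i => Real.pi * (a i + b i) / Real.log T) (fun i => Real.pi * (b i - a i) * κ) m :=
      fun m => JB_eq hL0 hL'0 a b m
    set c : Fin r → ℝ := fun i => Real.pi * (a i + b i) / Real.log T with hc
    set ρ : Fin r → ℝ := fun i => Real.pi * (b i - a i) * κ with hρ
    have hc1 : ∀ i, |c i| ≤ Real.sqrt T' := by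
      intro i
      have h3 : |c i| ≤ 1 := by
        simp only [hc]
        rw [abs_div, abs_mul, abs_of_pos (by linarith : 0 < Real.pi), abs_of_pos hL0, div_le_one hL0]
        have h4 : |a i + b i| ≤ 2 * A := (abs_add_le _ _).trans (by linarith [haA i, hbA i])
        nlinarith [abs_nonneg (a i + b i)]
      refine h3.trans ?_
      rw [← Real.sqrt_one]
      exact Real.sqrt_le_sqrt hT'1
    have hρ1 : ∀ i, s i ≤ ρ i := fun i => by
      simp only [hρ]
      have h3 := hs1 i
      have h4 : 1 ≤ Real.pi * κ := by nlinarith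
      calc s i = s i * 1 := by ring
        _ ≤ s i * (Real.pi * κ) := by gcongr
        _ = _ := by rw [hs]; ring
    have hρ2 : ∀ i, ρ i ≤ S0 := fun i => by
      simp only [hρ]
      have h3 := hs1 i
      have h4 : b i - a i ≤ 2 * A := by
        have := abs_le.1 (haA i)
        have := abs_le.1 (hbA i)
        linarith
      have h5 : 0 ≤ b i - a i := by linarith [hab i]
      calc Real.pi * (b i - a i) * κ ≤ 4 * (2 * A) * 1 := by gcongr
        _ ≤ S0 := by rw [hS0]; linarith
    have hb := hB T' (hsT.trans h1) c ρ hc1 (fun i => ⟨(hs1 i).trans (hρ1 i), hρ2 i⟩) 1 (one_le_cast_rpow hT'1 hθ0.le) (fun _ => 1)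
    simp only [dp_one, N2_one, mul_one] at hb
    have hE' : ∏ i, (ρ i / Real.pi) = E * κ ^ r := by
      have : ∀ i, ρ i / Real.pi = s i * κ := fun i => by
        simp only [hρ, hs]
        field_simp
      simp only [this]
      rw [Finset.prod_mul_distrib, Finset.prod_const, Finset.card_univ, Fintype.card_fin]
    rw [hE'] at hb
    have hκ0 : 0 ≤ κ := by linarith
    have hκr : κ ^ r ≤ 1 := pow_le_one₀ hκ0 k2
    have hκr0 : 0 ≤ κ ^ r := by positivity
    have hQ' : ∑ i, ρ i ^ (-(1 / 4) : ℝ) ≤ Q := by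
      refine Finset.sum_le_sum fun i _ => ?_
      exact Real.rpow_le_rpow_of_nonpos (by linarith [hs1 i]) (hρ1 i) (by norm_num)
    have hdiff : |E * κ ^ r - E| ≤ E * (r * (Real.log (T / T') / Real.log T)) := by
      have h3 := one_sub_pow_le hκ0 r
      rw [k3] at h3
      rw [abs_sub_comm, abs_of_nonneg (by nlinarith)]
      calc E - E * κ ^ r = E * (1 - κ ^ r) := by ring
        _ ≤ _ := mul_le_mul_of_nonneg_left h3 hE0
    have hcard := blk_card hN hCn hT hT'1 h2
    have hbd0 : 0 ≤ E * (r * (Real.log (T / T') / Real.log T)) := by positivity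
    calc ∑ m ∈ Finset.Ioc (SG.NZ T') (SG.NZ (2 * T')), |((inj (JB T a b m) {m}).card : ℝ) - E|
        ≤ ∑ m ∈ Finset.Ioc (SG.NZ T') (SG.NZ (2 * T')), (|((inj (JJ T' c ρ m) {m}).card : ℝ) - E * κ ^ r| +
            E * (r * (Real.log (T / T') / Real.log T))) := by
          refine Finset.sum_le_sum fun m _ => ?_
          rw [hJ m]
          have e : ((inj (JJ T' c ρ m) {m}).card : ℝ) - E = (((inj (JJ T' c ρ m) {m}).card : ℝ) - E * κ ^ r) + (E * κ ^ r - E) := by ring
          rw [e]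
          exact (abs_add_le _ _).trans (by linarith)
      _ ≤ C * (E * κ ^ r) * (∑ i, ρ i ^ (-(1 / 4) : ℝ)) * Real.log T' * T' +
            (4 * Cn * (T' * Real.log T)) * (E * (r * (Real.log (T / T') / Real.log T))) := by
          rw [Finset.sum_add_distrib]
          apply add_le_add hb
          rw [Finset.sum_const, nsmul_eq_mul]
          exact mul_le_mul_of_nonneg_right hcard hbd0
      _ ≤ C * (E * 1) * Q * Real.log T' * T' + 4 * Cn * E * r * (T' * Real.log (T / T')) := by
          apply add_le_add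
          · have hq0 : 0 ≤ ∑ i, ρ i ^ (-(1 / 4) : ℝ) := Finset.sum_nonneg fun i _ => by
              have h3 := (hs1 i).trans (hρ1 i)
              positivity
            gcongr
          · apply le_of_eq
            field_simp
      _ = _ := by ring)
  have h3 : 2 * (4 * Cn * E * r) * T ≤ δ / 2 * (T * Real.log T) := by
    rw [div_le_iff₀ hδ] at hLd
    nlinarith
  have h4 : δ / 2 * T ≤ δ / 2 * (T * Real.log T) := by
    apply mul_le_mul_of_nonneg_left _ (by positivity)
    nlinarith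
  calc _ ≤ δ / 2 * T + (C * E * Q * (T * Real.log T) + 2 * (4 * Cn * E * r) * T) := add_le_add p1 p2
    _ ≤ _ := by linarith

/-- the index window of one more coordinate in `[0, R]` -/
noncomputable def KR (T R : ℝ) (m : ℕ) : Finset ℕ := ix (SG.ord m) (SG.ord m + 2 * Real.pi * R / Real.log T)

/-- **one more index** -/
theorem full_ext (r : ℕ) (a b : Fin r → ℝ) (hab : ∀ i, a i ≤ b i) : ∃ C : ℝ, 1 ≤ C ∧ ∀ R : ℝ, 1 ≤ R → ∀ᶠ T : ℝ in atTop,
    ∑ m ∈ Finset.Ioc 0 (SG.NZ T), ((inj (JB T a b m) {m}).card : ℝ) * (|((KR T R m).card : ℝ) - R| + (r + 1)) ≤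
      C * R ^ (3 / 4 : ℝ) * (T * Real.log T) := by
  obtain ⟨θ, hθ0, hθ1, hB⟩ := blk_ext
  obtain ⟨Cc, hCc, hcr⟩ := nz_crude2
  obtain ⟨C, hC, hB⟩ := hB r
  have hpi := Real.pi_gt_three
  have hpi4 := Real.pi_lt_four
  set E := ∏ i, max (Real.pi * (b i - a i)) 1 with hE
  have hE1 : 1 ≤ E := by
    calc (1 : ℝ) = ∏ _i : Fin r, (1 : ℝ) := by rw [Finset.prod_const_one]
      _ ≤ E := Finset.prod_le_prod (fun i _ => zero_le_one) (fun i _ => le_max_right _ _)
  refine ⟨4 * C * E + 2, by nlinarith, fun R hR => ?_⟩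
  have hr : (0 : ℝ) ≤ r := Nat.cast_nonneg r
  set A := ∑ i, (|a i| + |b i|) + R with hA
  have hA0 : 0 ≤ ∑ i, (|a i| + |b i|) := Finset.sum_nonneg fun i _ => by positivity
  have hRA : R ≤ A := by linarith
  have haA : ∀ i, |a i| ≤ A := fun i => by
    have := Finset.single_le_sum (f := fun i => |a i| + |b i|) (fun i _ => by positivity) (Finset.mem_univ i)
    have h2 := abs_nonneg (b i)
    linarith
  have hbA : ∀ i, |b i| ≤ A := fun i => by
    have := Finset.single_le_sum (f := fun i => |a i| + |b i|) (fun i _ => by positivity) (Finset.mem_univ i)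
    have h2 := abs_nonneg (a i)
    linarith
  set S0 := 1 + 8 * A with hS0
  obtain ⟨T₀, hB⟩ := eventually_atTop.1 (hB S0 (by linarith))
  have hlow := low_part (r + 1) (Cc ^ r * (Cc + R + (r + 1))) 1 (by positivity) (by positivity)
  filter_upwards [hlow, eventually_ge_atTop (16 : ℝ), Real.tendsto_log_atTop.eventually_ge_atTop (16 * A + 2),
    (Real.tendsto_sqrt_atTop).eventually_ge_atTop T₀,
    Real.tendsto_log_atTop.eventually_ge_atTop (2 * (R * C * E))] with T hlow hT hL hsT hLd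
  have hT0 : 0 < T := by linarith
  have hT1 : 1 ≤ T := by linarith
  have hL0 : 0 < Real.log T := by linarith
  have hL1 : 1 ≤ Real.log T := by linarith
  have hs1T : 1 ≤ Real.sqrt T := by rw [← Real.sqrt_one]; exact Real.sqrt_le_sqrt (by linarith)
  have hsTT : 2 * Real.sqrt T ≤ T := by
    have : Real.sqrt T ≤ T / 2 := by
      rw [Real.sqrt_le_left (by linarith)]
      nlinarith
    linarith
  have hsplit : Finset.Ioc 0 (SG.NZ T) = Finset.Ioc 0 (SG.NZ (2 * Real.sqrt T)) ∪ Finset.Ioc (SG.NZ (2 * Real.sqrt T)) (SG.NZ T) :=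
    (Finset.Ioc_union_Ioc_eq_Ioc (Nat.zero_le _) (SG.NZ_mono hsTT)).symm
  have hdis : Disjoint (Finset.Ioc 0 (SG.NZ (2 * Real.sqrt T))) (Finset.Ioc (SG.NZ (2 * Real.sqrt T)) (SG.NZ T)) := by
    rw [Finset.disjoint_left]
    intro m hm hm'
    rw [Finset.mem_Ioc] at hm hm'
    omega
  rw [hsplit, Finset.sum_union hdis]
  have hKR : ∀ m, 1 ≤ m → (KR T R m).card = nz (SG.ord m + Real.pi * R / Real.log T) (Real.pi * R / Real.log T) := by
    intro m hm
    unfold KR
    rw [ix_card (ord_nonneg hm)]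
    congr 1 <;> ring
  have hR34 : 1 ≤ R ^ (3 / 4 : ℝ) := Real.one_le_rpow hR (by norm_num)
  have p1 := hlow (fun m => ((inj (JB T a b m) {m}).card : ℝ) * (|((KR T R m).card : ℝ) - R| + (r + 1))) (fun m hm1 hm2 => by
    have h1 := inj_crude hCc hcr hT (by linarith : 16 * A ≤ Real.log T) haA hbA (ord_nonneg hm1).le hm2
    have h2 : |((KR T R m).card : ℝ) - R| ≤ (Cc + R) * Real.log T := by
      refine (abs_sub_le' _ _ (Nat.cast_nonneg _) (by linarith)).trans ?_
      rw [hKR m hm1]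
      have h3 := (ord_nonneg hm1).le
      have h4 : Real.pi * R / Real.log T ≤ 1 / 2 := by
        rw [div_le_iff₀ hL0]
        nlinarith
      have h5 : 0 ≤ Real.pi * R / Real.log T := by positivity
      have h6 := hcr T (SG.ord m + Real.pi * R / Real.log T) (Real.pi * R / Real.log T) hT (by linarith) (by linarith) h4
      nlinarith
    have h3 : |((KR T R m).card : ℝ) - R| + (r + 1) ≤ (Cc + R + (r + 1)) * Real.log T := by nlinarith
    calc _ ≤ (Cc ^ r * Real.log T ^ r) * ((Cc + R + (r + 1)) * Real.log T) :=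
          mul_le_mul h1 h3 (by positivity) (by positivity)
      _ = _ := by rw [pow_succ]; ring)
  have p2 := blocks (T := T) (α := 4 * C * E * R ^ (3 / 4 : ℝ)) (β := R * C * E) (by linarith) (by positivity) (by positivity)
    (fun m => ((inj (JB T a b m) {m}).card : ℝ) * (|((KR T R m).card : ℝ) - R| + (r + 1))) (fun m => by positivity) (fun T' h1 h2 => by
    obtain ⟨k1, k2, k3, k4⟩ := kap hT h1 h2
    set κ := Real.log T' / Real.log T with hκ
    have hT'1 : 1 ≤ T' := by linarith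
    have hT'0 : 0 < T' := by linarith
    have hκ0 : 0 < κ := by linarith
    have hL'0 : 0 < Real.log T' := by
      have : 0 < κ := by linarith
      rw [hκ, div_pos_iff_of_pos_right hL0] at this
      exact this
    have hL'κ : Real.log T' = κ * Real.log T := by rw [hκ]; field_simp
    have hJ : ∀ m, JB T a b m = JJ T' (fun i => Real.pi * (a i + b i) / Real.log T) (fun i => Real.pi * (b i - a i) * κ) m :=
      fun m => JB_eq hL0 hL'0 a b m
    set c : Fin r → ℝ := fun i => Real.pi * (a i + b i) / Real.log T with hc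
    set ρ : Fin r → ℝ := fun i => Real.pi * (b i - a i) * κ with hρ
    have h1s : 1 ≤ Real.sqrt T' := by
      rw [← Real.sqrt_one]
      exact Real.sqrt_le_sqrt hT'1
    have hc1 : ∀ i, |c i| ≤ Real.sqrt T' := by
      intro i
      have h3 : |c i| ≤ 1 := by
        simp only [hc]
        rw [abs_div, abs_mul, abs_of_pos (by linarith : 0 < Real.pi), abs_of_pos hL0, div_le_one hL0]
        have h4 : |a i + b i| ≤ 2 * A := (abs_add_le _ _).trans (by linarith [haA i, hbA i])
        nlinarith [abs_nonneg (a i + b i)]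
      exact h3.trans h1s
    have hρ2 : ∀ i, ρ i ≤ S0 := fun i => by
      simp only [hρ]
      have h4 : b i - a i ≤ 2 * A := by
        have := abs_le.1 (haA i)
        have := abs_le.1 (hbA i)
        linarith
      have h5 : 0 ≤ b i - a i := by linarith [hab i]
      calc Real.pi * (b i - a i) * κ ≤ 4 * (2 * A) * 1 := by gcongr
        _ ≤ S0 := by rw [hS0]; linarith
    obtain ⟨hb1, hb2⟩ := hB T' (hsT.trans h1) c ρ hc1 hρ2 1 (one_le_cast_rpow hT'1 hθ0.le) (fun _ => 1)
    set R' := Real.pi * R * κ with hR'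
    have hR'1 : 1 ≤ R' := by
      have : 3 * 1 * (1 / 2) ≤ Real.pi * R * κ := by gcongr
      linarith
    have hR'2 : R' ≤ 4 * R := by
      calc Real.pi * R * κ ≤ 4 * R * 1 := by gcongr
        _ = 4 * R := by ring
    have hR'S : R' ≤ S0 := by linarith
    have hxx : |Real.pi * R / Real.log T| ≤ Real.sqrt T' := by
      rw [abs_of_nonneg (by positivity)]
      refine le_trans ?_ h1s
      rw [div_le_one hL0]
      nlinarith
    have hb1' := hb1 (Real.pi * R / Real.log T) R' hxx hR'1 hR'S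
    simp only [dp_one, N2_one, mul_one] at hb1' hb2
    have hE' : ∏ i, max (ρ i) 1 ≤ E := by
      refine Finset.prod_le_prod (fun i _ => zero_le_one.trans (le_max_right _ _)) fun i _ => ?_
      apply max_le_max_right
      simp only [hρ]
      have h5 : 0 ≤ Real.pi * (b i - a i) := by
        have := hab i
        apply mul_nonneg (by linarith) (by linarith)
      nlinarith
    have hE'0 : 0 ≤ ∏ i, max (ρ i) 1 := Finset.prod_nonneg fun i _ => zero_le_one.trans (le_max_right _ _)
    have hK : ∀ m ∈ Finset.Ioc (SG.NZ T') (SG.NZ (2 * T')), |((KR T R m).card : ℝ) - R| ≤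
        |(nz (SG.ord m + Real.pi * R / Real.log T) (R' / Real.log T') : ℝ) - R' / Real.pi| + R * (Real.log (T / T') / Real.log T) := by
      intro m hm
      have hm1 : 1 ≤ m := by
        rw [Finset.mem_Ioc] at hm
        omega
      rw [hKR m hm1]
      have e1 : Real.pi * R / Real.log T = R' / Real.log T' := by
        rw [hR', hL'κ]
        field_simp
      have e2 : (nz (SG.ord m + Real.pi * R / Real.log T) (Real.pi * R / Real.log T) : ℝ) - R =
          ((nz (SG.ord m + Real.pi * R / Real.log T) (R' / Real.log T') : ℝ) - R' / Real.pi) + -(R * (1 - κ)) := by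
        nth_rewrite 2 [e1]
        rw [hR']
        field_simp
        ring
      rw [e2, ← k3]
      refine (abs_add_le _ _).trans ?_
      rw [abs_neg, abs_of_nonneg (by nlinarith : 0 ≤ R * (1 - κ))]
    set D := R * (Real.log (T / T') / Real.log T) with hD
    have hD0 : 0 ≤ D := by positivity
    have hRR : R' ^ (3 / 4 : ℝ) ≤ 4 * R ^ (3 / 4 : ℝ) := by
      calc R' ^ (3 / 4 : ℝ) ≤ (4 * R) ^ (3 / 4 : ℝ) := Real.rpow_le_rpow (by linarith) hR'2 (by norm_num)
        _ = 4 ^ (3 / 4 : ℝ) * R ^ (3 / 4 : ℝ) := Real.mul_rpow (by norm_num) (by linarith)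
        _ ≤ 4 * R ^ (3 / 4 : ℝ) := by
            apply mul_le_mul_of_nonneg_right _ (by positivity)
            calc (4 : ℝ) ^ (3 / 4 : ℝ) ≤ 4 ^ (1 : ℝ) := Real.rpow_le_rpow_of_exponent_le (by norm_num) (by norm_num)
              _ = 4 := Real.rpow_one 4
    calc ∑ m ∈ Finset.Ioc (SG.NZ T') (SG.NZ (2 * T')), ((inj (JB T a b m) {m}).card : ℝ) * (|((KR T R m).card : ℝ) - R| + (r + 1))
        ≤ ∑ m ∈ Finset.Ioc (SG.NZ T') (SG.NZ (2 * T')), (((inj (JJ T' c ρ m) {m}).card : ℝ) *
            (|(nz (SG.ord m + Real.pi * R / Real.log T) (R' / Real.log T') : ℝ) - R' / Real.pi| + (r + 1)) +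
            ((inj (JJ T' c ρ m) {m}).card : ℝ) * D) := by
          refine Finset.sum_le_sum fun m hm => ?_
          rw [hJ m, ← mul_add]
          apply mul_le_mul_of_nonneg_left _ (Nat.cast_nonneg _)
          linarith [hK m hm]
      _ ≤ C * (∏ i, max (ρ i) 1) * R' ^ (3 / 4 : ℝ) * Real.log T' * T' + (C * (∏ i, max (ρ i) 1) * Real.log T' * T') * D := by
          rw [Finset.sum_add_distrib, ← Finset.sum_mul]
          exact add_le_add hb1' (mul_le_mul_of_nonneg_right hb2 hD0)
      _ ≤ C * E * (4 * R ^ (3 / 4 : ℝ)) * Real.log T' * T' + (C * E * Real.log T * T') * D := by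
          have : Real.log T' ≤ Real.log T := by
            rw [hL'κ]
            nlinarith
          gcongr
      _ = _ := by
          rw [hD]
          field_simp)
  have h3 : 2 * (R * C * E) * T ≤ R ^ (3 / 4 : ℝ) * (T * Real.log T) := by
    calc 2 * (R * C * E) * T ≤ Real.log T * T := by gcongr
      _ = 1 * (T * Real.log T) := by ring
      _ ≤ _ := by gcongr
  have h4 : 1 * T ≤ R ^ (3 / 4 : ℝ) * (T * Real.log T) := by
    have h5 : T ≤ T * Real.log T := by nlinarith
    calc 1 * T ≤ 1 * (T * Real.log T) := by linarith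
      _ ≤ _ := by gcongr
  calc _ ≤ 1 * T + (4 * C * E * R ^ (3 / 4 : ℝ) * (T * Real.log T) + 2 * (R * C * E) * T) := add_le_add p1 p2
    _ ≤ _ := by linarith

end Pool.Agent.V8H36.KL
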