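import Pool.Agent.V8H36.KL.Dis

set_option autoImplicit false

/-! Moments of several counts; the uniform mesoscopic law; sums over zeros. -/

open Filter Topology MeasureTheory Complex
open scoped ComplexConjugate

namespace Pool.Agent.V8H36.KL

open Pool.Agent.Q97.UM
open Pool.Agent.Q210.UM (gint V_cont nz_mono Zw_sub nz_eq)
open Pool.Agent.Q61.UM (dp_var bd N2_bd ind_in)

theorem hMVL : S_MVL := Pool.Agent.Q84.UM.t_MVL

/-- one normalised count -/
noncomputable def zc (T c ρ t : ℝ) : ℝ := (nz (t + c) (ρ / Real.log T) : ℝ) / ρ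

theorem zc_nonneg {T c ρ t : ℝ} (hρ : 0 ≤ ρ) : 0 ≤ zc T c ρ t := by unfold zc; positivity

theorem zc_meas (T c ρ : ℝ) : Measurable (fun t => zc T c ρ t) :=
  ((nz_meas _).comp (measurable_id.add_const c)).div_const _

theorem nz_bd {T c r s : ℝ} (hT : 1 ≤ T) (hc : |c| ≤ T / 8) (hr : r ≤ T) (h2 : s ≤ 2 * T) (h1 : T ≤ s) :
    (nz (s + c) r : ℝ) ≤ nz 0 (4 * T) := by
  obtain ⟨c1, c2⟩ := abs_le.1 hc
  have := nz_mono hZ2 (Zw_sub (t := s + c) (r := r) (t' := 0) (r' := 4 * T)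
    (by rw [sub_zero, abs_of_nonneg (by linarith)]; linarith))
  exact_mod_cast this

/-- the sum of several counts -/
noncomputable def ZZ {ι : Type} [Fintype ι] (T : ℝ) (c ρ : ι → ℝ) (t : ℝ) : ℝ := 1 + ∑ i, zc T (c i) (ρ i) t

theorem ZZ_meas {ι : Type} [Fintype ι] (T : ℝ) (c ρ : ι → ℝ) : Measurable (ZZ T c ρ) := by
  unfold ZZ
  exact measurable_const.add (Finset.measurable_sum _ fun i _ => zc_meas T (c i) (ρ i))

theorem ZZ_one {ι : Type} [Fintype ι] {T : ℝ} {c ρ : ι → ℝ} (hρ : ∀ i, 1 ≤ ρ i) (t : ℝ) : 1 ≤ ZZ T c ρ t := by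
  unfold ZZ
  have : 0 ≤ ∑ i, zc T (c i) (ρ i) t := Finset.sum_nonneg fun i _ => zc_nonneg (by linarith [hρ i])
  linarith

theorem zc_le_ZZ {ι : Type} [Fintype ι] {T : ℝ} {c ρ : ι → ℝ} (hρ : ∀ i, 1 ≤ ρ i) (t : ℝ) (i : ι) :
    1 + zc T (c i) (ρ i) t ≤ ZZ T c ρ t := by
  unfold ZZ
  have := Finset.single_le_sum (f := fun i => zc T (c i) (ρ i) t) (fun i _ => zc_nonneg (by linarith [hρ i]))
    (Finset.mem_univ i)
  linarith

/-- **moments of several counts** -/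
theorem t_zm : ∃ θ : ℝ, 0 < θ ∧ θ ≤ 1 / 8 ∧ ∀ (ι : Type) [Fintype ι] (q : ℕ), ∃ C : ℝ, 1 ≤ C ∧ ∀ᶠ T : ℝ in atTop,
    ∀ c ρ : ι → ℝ, (∀ i, |c i| ≤ T / 8) → (∀ i, 1 ≤ ρ i ∧ ρ i ≤ T) → ∀ N : ℕ, (N : ℝ) ≤ T ^ θ → ∀ b : ℕ → ℂ,
      ∫ t in T..(2 * T), ZZ T c ρ t ^ q * ‖dp N b t‖ ^ 2 ≤ C * T * N2 N b := by
  obtain ⟨θ, hθ0, hθ1, hmom⟩ := t_mom
  refine ⟨θ, hθ0, hθ1, fun ι _ q => ?_⟩
  obtain ⟨C₂, hC₂, hmom⟩ := hmom q
  set n : ℝ := ((Fintype.card (Option ι) : ℕ) : ℝ) with hn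
  have hn1 : 1 ≤ n := by
    rw [hn, Fintype.card_option]
    push_cast
    have : (0 : ℝ) ≤ Fintype.card ι := Nat.cast_nonneg _
    linarith
  refine ⟨n ^ q * (n * (C₂ + 1)), ?_, ?_⟩
  · have h1 : 1 ≤ n ^ q := one_le_pow₀ hn1
    nlinarith [mul_nonneg (by linarith : 0 ≤ n ^ q - 1) (by nlinarith : 0 ≤ n * (C₂ + 1))]
  filter_upwards [hmom, eventually_ge_atTop (16 : ℝ), Real.tendsto_log_atTop.eventually_ge_atTop (1 : ℝ)] with T hmom hT hL c ρ hc hρ N hN b
  have hT1 : 1 ≤ T := by linarith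
  have hT0 : 0 < T := by linarith
  have hL0 : 0 < Real.log T := by linarith
  have hVc : Continuous (fun t : ℝ => ‖dp N b t‖ ^ 2) := V_cont hDPM N b
  have hN2 := N2_nonneg N b
  have hρT : ∀ i, ρ i / Real.log T ≤ T := fun i => by
    rw [div_le_iff₀ hL0]
    nlinarith [(hρ i).2]
  have hMV : ∫ t in T..(2 * T), ‖dp N b t‖ ^ 2 ≤ 2 * T * N2 N b := by
    refine (hMVL T hT N (hN.trans ?_) b).2
    exact Real.rpow_le_rpow_of_exponent_le hT1 (by linarith)
  have hz1 : ∀ i, ∀ t, zc T (c i) (ρ i) t ^ (q + 1) ≤ ((nz (t + c i) (ρ i / Real.log T) : ℝ) + 1) ^ (q + 1) / ρ i ^ (q + 1) := by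
    intro i t
    rw [← div_pow]
    unfold zc
    have := (hρ i).1
    apply pow_le_pow_left₀ (by positivity)
    apply div_le_div_of_nonneg_right _ (by linarith)
    linarith
  have hi1 : ∀ i, IntervalIntegrable (fun t => ((nz (t + c i) (ρ i / Real.log T) : ℝ) + 1) ^ (q + 1) * ‖dp N b t‖ ^ 2) volume T (2 * T) := by
    intro i
    refine gint (g := fun t => ((nz (t + c i) (ρ i / Real.log T) : ℝ) + 1) ^ (q + 1)) (M := ((nz 0 (4 * T) : ℝ) + 1) ^ (q + 1))
      ((((nz_meas _).comp (measurable_id.add_const _)).add_const 1).pow_const _) (by linarith) (fun s => by positivity)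
      (fun s s1 s2 => ?_) hVc (fun s => sq_nonneg _)
    have := nz_bd hT1 (hc i) (hρT i) s2 s1
    gcongr
  have hpt : ∀ t, ZZ T c ρ t ^ q ≤ n ^ q * (1 + ∑ i, ((nz (t + c i) (ρ i / Real.log T) : ℝ) + 1) ^ (q + 1) / ρ i ^ (q + 1)) := by
    intro t
    have h1 : 1 ≤ ZZ T c ρ t := ZZ_one (fun i => (hρ i).1) t
    have h2 : ZZ T c ρ t ^ q ≤ ZZ T c ρ t ^ (q + 1) := pow_le_pow_right₀ h1 (by omega)
    set f : Option ι → ℝ := fun o => o.elim 1 (fun i => zc T (c i) (ρ i) t) with hf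
    have hf0 : ∀ o ∈ (Finset.univ : Finset (Option ι)), 0 ≤ f o := by
      intro o _
      cases o with
      | none => simp [hf]
      | some i => exact zc_nonneg (by linarith [(hρ i).1])
    have e1 : ∑ o, f o = ZZ T c ρ t := by
      rw [Fintype.sum_option]
      rfl
    have e2 : ∑ o, f o ^ (q + 1) = 1 + ∑ i, zc T (c i) (ρ i) t ^ (q + 1) := by
      rw [Fintype.sum_option]
      simp [hf]
    have h3 := pow_sum_div_card_le_sum_pow (s := (Finset.univ : Finset (Option ι))) (f := f) (n := q) hf0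
    rw [e1, e2, Finset.card_univ, ← hn, div_le_iff₀ (by positivity)] at h3
    refine h2.trans (h3.trans ?_)
    rw [mul_comm]
    apply mul_le_mul_of_nonneg_left _ (by positivity)
    have := Finset.sum_le_sum fun i (_ : i ∈ Finset.univ) => hz1 i t
    linarith
  have hi2 : ∀ i, IntervalIntegrable (fun t => (ρ i ^ (q + 1))⁻¹ * (((nz (t + c i) (ρ i / Real.log T) : ℝ) + 1) ^ (q + 1) * ‖dp N b t‖ ^ 2))
      volume T (2 * T) := fun i => (hi1 i).const_mul _
  have hi3 : IntervalIntegrable (fun t => ∑ i, (ρ i ^ (q + 1))⁻¹ * (((nz (t + c i) (ρ i / Real.log T) : ℝ) + 1) ^ (q + 1) * ‖dp N b t‖ ^ 2))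
      volume T (2 * T) := by
    have := IntervalIntegrable.sum (Finset.univ : Finset ι) (f := fun i t => (ρ i ^ (q + 1))⁻¹ *
      (((nz (t + c i) (ρ i / Real.log T) : ℝ) + 1) ^ (q + 1) * ‖dp N b t‖ ^ 2)) fun i _ => hi2 i
    refine this.congr (fun x _ => ?_)
    rw [Finset.sum_apply]
  have hi4 : IntervalIntegrable (fun t => ZZ T c ρ t ^ q * ‖dp N b t‖ ^ 2) volume T (2 * T) := by
    refine gint (g := fun t => ZZ T c ρ t ^ q) (M := (1 + ∑ _i : ι, (nz 0 (4 * T) : ℝ)) ^ q)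
      ((ZZ_meas T c ρ).pow_const _) (by linarith) (fun s => ?_) (fun s s1 s2 => ?_) hVc (fun s => sq_nonneg _)
    · have := ZZ_one (fun i => (hρ i).1) (T := T) (c := c) s
      positivity
    · have h1 := ZZ_one (fun i => (hρ i).1) (T := T) (c := c) s
      apply pow_le_pow_left₀ (by linarith)
      unfold ZZ
      have : ∑ i, zc T (c i) (ρ i) s ≤ ∑ _i : ι, (nz 0 (4 * T) : ℝ) := by
        refine Finset.sum_le_sum fun i _ => ?_
        unfold zc
        have h2 := nz_bd hT1 (hc i) (hρT i) s2 s1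
        have h3 := (hρ i).1
        rw [div_le_iff₀ (by linarith)]
        have h4 : (0 : ℝ) ≤ nz 0 (4 * T) := Nat.cast_nonneg _
        nlinarith
      linarith
  calc ∫ t in T..(2 * T), ZZ T c ρ t ^ q * ‖dp N b t‖ ^ 2
      ≤ ∫ t in T..(2 * T), n ^ q * (‖dp N b t‖ ^ 2 + ∑ i, (ρ i ^ (q + 1))⁻¹ *
          (((nz (t + c i) (ρ i / Real.log T) : ℝ) + 1) ^ (q + 1) * ‖dp N b t‖ ^ 2)) := by
        refine intervalIntegral.integral_mono_on (by linarith) hi4 (((hVc.intervalIntegrable _ _).add hi3).const_mul _) fun t _ => ?_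
        refine (mul_le_mul_of_nonneg_right (hpt t) (sq_nonneg _)).trans (le_of_eq ?_)
        rw [mul_assoc, add_mul, one_mul, Finset.sum_mul]
        congr 2
        apply Finset.sum_congr rfl
        intro i _
        rw [div_eq_mul_inv]
        ring
    _ = n ^ q * ((∫ t in T..(2 * T), ‖dp N b t‖ ^ 2) + ∑ i, (ρ i ^ (q + 1))⁻¹ * ∫ t in T..(2 * T),
          ((nz (t + c i) (ρ i / Real.log T) : ℝ) + 1) ^ (q + 1) * ‖dp N b t‖ ^ 2) := by
        rw [intervalIntegral.integral_const_mul, intervalIntegral.integral_add (hVc.intervalIntegrable _ _) hi3,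
          intervalIntegral.integral_finsetSum fun i _ => hi2 i]
        simp_rw [intervalIntegral.integral_const_mul]
    _ ≤ n ^ q * (2 * T * N2 N b + ∑ _i : ι, C₂ * T * N2 N b) := by
        apply mul_le_mul_of_nonneg_left _ (by positivity)
        apply add_le_add hMV
        refine Finset.sum_le_sum fun i _ => ?_
        have h1 := hmom (ρ i) (hρ i).1 (hρ i).2 (c i) (hc i) N hN b
        have h2 : 0 < ρ i ^ (q + 1) := by
          have := (hρ i).1
          positivity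
        rw [inv_mul_le_iff₀ h2]
        linarith
    _ ≤ n ^ q * (n * (C₂ + 1)) * T * N2 N b := by
        rw [Finset.sum_const, Finset.card_univ, nsmul_eq_mul]
        have e : n = (Fintype.card ι : ℝ) + 1 := by rw [hn, Fintype.card_option]; push_cast; ring
        have h1 : 2 * T * N2 N b + (Fintype.card ι : ℝ) * (C₂ * T * N2 N b) ≤ n * (C₂ + 1) * (T * N2 N b) := by
          rw [e]
          have h2 : 0 ≤ T * N2 N b := by positivity
          have h3 : (0 : ℝ) ≤ Fintype.card ι := Nat.cast_nonneg _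
          nlinarith [mul_nonneg h2 h3, mul_nonneg h2 (by linarith : 0 ≤ C₂ - 1)]
        calc _ ≤ n ^ q * (n * (C₂ + 1) * (T * N2 N b)) := mul_le_mul_of_nonneg_left h1 (by positivity)
          _ = _ := by ring

/-- the mesoscopic law, uniformly for bounded windows -/
theorem t_meso2 : ∃ C θ : ℝ, 1 ≤ C ∧ 0 < θ ∧ θ ≤ 1 / 40 ∧ ∀ H : ℝ, 1 ≤ H → ∀ᶠ T : ℝ in atTop, ∀ H' : ℝ, 1 ≤ H' → H' ≤ H →
    ∀ x : ℝ, |x| ≤ Real.sqrt T → ∀ N : ℕ, (N : ℝ) ≤ T ^ θ → ∀ b : ℕ → ℂ,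
      ∫ t in T..(2 * T), |(nz (t + x) (H' / Real.log T) : ℝ) - H' / Real.pi| * ‖dp N b t‖ ^ 2 ≤
        C * Real.sqrt H * T * N2 N b := by
  obtain ⟨C, θ, hC, hθ0, hθ1, hM⟩ := t_meso
  refine ⟨5 * C, θ, by linarith, hθ0, hθ1, fun H hH => ?_⟩
  set K := ⌈H⌉₊ + 1 with hK
  have ev : ∀ᶠ T : ℝ in atTop, ∀ k ∈ Finset.Icc 1 K, ∀ x : ℝ, |x| ≤ Real.sqrt T → ∀ N : ℕ, (N : ℝ) ≤ T ^ θ → ∀ b : ℕ → ℂ,
      ∫ t in T..(2 * T), |(nz (t + x) ((k : ℝ) / Real.log T) : ℝ) - (k : ℝ) / Real.pi| * ‖dp N b t‖ ^ 2 ≤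
        C * Real.sqrt (k : ℝ) * T * N2 N b := by
    rw [Filter.eventually_all_finset]
    intro k hk
    exact hM k (by exact_mod_cast (Finset.mem_Icc.1 hk).1)
  filter_upwards [ev, eventually_ge_atTop (256 : ℝ), Real.tendsto_log_atTop.eventually_ge_atTop (H + 2), eventually_ge_atTop (H + 2)] with
    T ev hT hLH hTH H' h1 h2 x hx N hN b
  have hT0 : 0 < T := by linarith
  have hT1 : 1 ≤ T := by linarith
  have hL0 : 0 < Real.log T := by linarith
  have hN2 := N2_nonneg N b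
  have hpi := Real.pi_gt_three
  have hVc : Continuous (fun t : ℝ => ‖dp N b t‖ ^ 2) := V_cont hDPM N b
  have hxT : |x| ≤ T / 8 := by
    refine hx.trans ?_
    rw [Real.sqrt_le_left (by positivity)]
    nlinarith
  have hMV : ∫ t in T..(2 * T), ‖dp N b t‖ ^ 2 ≤ 2 * T * N2 N b := by
    refine (hMVL T (by linarith) N (hN.trans ?_) b).2
    exact Real.rpow_le_rpow_of_exponent_le hT1 (by linarith)
  set k := ⌊H'⌋₊ with hk
  have k1 : 1 ≤ k := by rw [hk]; exact Nat.le_floor (by exact_mod_cast h1)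
  have k2 : (k : ℝ) ≤ H' := Nat.floor_le (by linarith)
  have k3 : H' < k + 1 := Nat.lt_floor_add_one H'
  have k4 : k + 1 ≤ K := by
    have : k ≤ ⌈H⌉₊ := by
      have : (k : ℝ) ≤ ⌈H⌉₊ := (k2.trans h2).trans (Nat.le_ceil H)
      exact_mod_cast this
    omega
  have hfi : ∀ κ : ℝ, κ ≤ H + 1 → IntervalIntegrable (fun t => |(nz (t + x) (κ / Real.log T) : ℝ) - κ / Real.pi| * ‖dp N b t‖ ^ 2)
      volume T (2 * T) := by
    intro κ hκ
    refine gint (g := fun t => |(nz (t + x) (κ / Real.log T) : ℝ) - κ / Real.pi|) (M := (nz 0 (4 * T) : ℝ) + |κ / Real.pi|)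
      ((((nz_meas _).comp (measurable_id.add_const x)).sub_const _).abs) (by linarith) (fun s => abs_nonneg _)
      (fun s s1 s2 => ?_) hVc (fun s => sq_nonneg _)
    refine (abs_sub _ _).trans ?_
    rw [abs_of_nonneg (Nat.cast_nonneg _)]
    have := nz_bd hT1 hxT (r := κ / Real.log T) (by
      rw [div_le_iff₀ hL0]
      nlinarith) s2 s1
    linarith
  have e1 := ev k (Finset.mem_Icc.2 ⟨k1, by omega⟩) x hx N hN b
  have e2 := ev (k + 1) (Finset.mem_Icc.2 ⟨by omega, k4⟩) x hx N hN b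
  have hk1' : ((k + 1 : ℕ) : ℝ) = (k : ℝ) + 1 := by push_cast; ring
  rw [hk1'] at e2
  have hpt : ∀ t, |(nz (t + x) (H' / Real.log T) : ℝ) - H' / Real.pi| ≤
      |(nz (t + x) ((k : ℝ) / Real.log T) : ℝ) - (k : ℝ) / Real.pi| +
      |(nz (t + x) (((k : ℝ) + 1) / Real.log T) : ℝ) - ((k : ℝ) + 1) / Real.pi| + 1 := by
    intro t
    have m1 : (nz (t + x) ((k : ℝ) / Real.log T) : ℝ) ≤ nz (t + x) (H' / Real.log T) := by
      have := nz_mono hZ2 (Zw_sub (t := t + x) (r := (k : ℝ) / Real.log T) (t' := t + x) (r' := H' / Real.log T)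
        (by rw [sub_self, abs_zero, zero_add]; gcongr))
      exact_mod_cast this
    have m2 : (nz (t + x) (H' / Real.log T) : ℝ) ≤ nz (t + x) (((k : ℝ) + 1) / Real.log T) := by
      have := nz_mono hZ2 (Zw_sub (t := t + x) (r := H' / Real.log T) (t' := t + x) (r' := ((k : ℝ) + 1) / Real.log T)
        (by rw [sub_self, abs_zero, zero_add]; gcongr))
      exact_mod_cast this
    have p1 : ((k : ℝ) + 1) / Real.pi ≤ (k : ℝ) / Real.pi + 1 := by
      rw [add_div]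
      have : 1 / Real.pi ≤ 1 := by rw [div_le_one (by linarith)]; linarith
      linarith
    have p2 : (k : ℝ) / Real.pi ≤ H' / Real.pi := by gcongr
    have p3 : H' / Real.pi ≤ ((k : ℝ) + 1) / Real.pi := by gcongr
    have q1 := neg_abs_le ((nz (t + x) ((k : ℝ) / Real.log T) : ℝ) - (k : ℝ) / Real.pi)
    have q2 := le_abs_self ((nz (t + x) (((k : ℝ) + 1) / Real.log T) : ℝ) - ((k : ℝ) + 1) / Real.pi)
    have q3 := abs_nonneg ((nz (t + x) ((k : ℝ) / Real.log T) : ℝ) - (k : ℝ) / Real.pi)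
    have q4 := abs_nonneg ((nz (t + x) (((k : ℝ) + 1) / Real.log T) : ℝ) - ((k : ℝ) + 1) / Real.pi)
    rw [abs_le]
    constructor <;> linarith
  have i1 := hfi k (by linarith)
  have i2 := hfi (k + 1) (by linarith)
  calc ∫ t in T..(2 * T), |(nz (t + x) (H' / Real.log T) : ℝ) - H' / Real.pi| * ‖dp N b t‖ ^ 2
      ≤ ∫ t in T..(2 * T), (|(nz (t + x) ((k : ℝ) / Real.log T) : ℝ) - (k : ℝ) / Real.pi| * ‖dp N b t‖ ^ 2 +
        |(nz (t + x) (((k : ℝ) + 1) / Real.log T) : ℝ) - ((k : ℝ) + 1) / Real.pi| * ‖dp N b t‖ ^ 2 + ‖dp N b t‖ ^ 2) := by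
        refine intervalIntegral.integral_mono_on (by linarith) (hfi H' (by linarith))
          ((i1.add i2).add (hVc.intervalIntegrable _ _)) fun t _ => ?_
        refine (mul_le_mul_of_nonneg_right (hpt t) (sq_nonneg _)).trans (le_of_eq ?_)
        ring
    _ = (∫ t in T..(2 * T), |(nz (t + x) ((k : ℝ) / Real.log T) : ℝ) - (k : ℝ) / Real.pi| * ‖dp N b t‖ ^ 2) +
        (∫ t in T..(2 * T), |(nz (t + x) (((k : ℝ) + 1) / Real.log T) : ℝ) - ((k : ℝ) + 1) / Real.pi| * ‖dp N b t‖ ^ 2) +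
        ∫ t in T..(2 * T), ‖dp N b t‖ ^ 2 := by
        rw [intervalIntegral.integral_add (i1.add i2) (hVc.intervalIntegrable _ _), intervalIntegral.integral_add i1 i2]
    _ ≤ C * Real.sqrt (k : ℝ) * T * N2 N b + C * Real.sqrt ((k : ℝ) + 1) * T * N2 N b + 2 * T * N2 N b := by linarith
    _ ≤ 5 * C * Real.sqrt H * T * N2 N b := by
        have s1 : Real.sqrt (k : ℝ) ≤ Real.sqrt H := Real.sqrt_le_sqrt (k2.trans h2)
        have s2 : Real.sqrt ((k : ℝ) + 1) ≤ 2 * Real.sqrt H := by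
          rw [Real.sqrt_le_left (by positivity), mul_pow, Real.sq_sqrt (by linarith)]
          linarith
        have s3 : 1 ≤ Real.sqrt H := by rw [← Real.sqrt_one]; exact Real.sqrt_le_sqrt hH
        have hW0 : 0 ≤ T * N2 N b := mul_nonneg hT0.le hN2
        have u1 : C * Real.sqrt (k : ℝ) * T * N2 N b ≤ C * Real.sqrt H * T * N2 N b := by gcongr
        have u2 : C * Real.sqrt ((k : ℝ) + 1) * T * N2 N b ≤ C * (2 * Real.sqrt H) * T * N2 N b := by gcongr
        have u3 : 2 * T * N2 N b ≤ 2 * C * Real.sqrt H * T * N2 N b := by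
          have : 1 ≤ C * Real.sqrt H := by nlinarith
          nlinarith
        calc _ ≤ C * Real.sqrt H * T * N2 N b + C * (2 * Real.sqrt H) * T * N2 N b + 2 * C * Real.sqrt H * T * N2 N b := by linarith
          _ = _ := by ring

end Pool.Agent.V8H36.KL
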