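import Pool.Agent.V8H36.KL.Gen

set_option autoImplicit false

/-! Sums over the zeros: the general bounds. -/

open Filter Topology MeasureTheory Complex
open scoped ComplexConjugate

namespace Pool.Agent.V8H36.KL

open Pool.Agent.Q97.UM
open Pool.Agent.Q210.UM (gint V_cont nz_mono Zw_sub nz_eq)
open Pool.Agent.Q61.UM (dp_var bd N2_bd ind_in)

/-- a bound for a sum over the zeros from a bound for an integral -/
theorem t_H (K : ℕ) (M₀ : ℝ) (hM₀ : 0 ≤ M₀) : ∀ᶠ T : ℝ in atTop, ∀ N : ℕ, (N : ℝ) ≤ T ^ (1 / 40 : ℝ) → ∀ G0 F : ℝ → ℝ,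
    Measurable F → (∀ t, 0 ≤ F t) → (∃ M, ∀ t, T ≤ t → t ≤ 2 * T → F t ≤ M) → (∀ γ, 0 ≤ G0 γ) →
    (∀ γ t, |t - γ| ≤ 1 / Real.log T → G0 γ ≤ F t) →
    (∀ γ, T ≤ γ → γ ≤ 2 * T → G0 γ ≤ M₀ * Real.log T ^ K) → ∀ A : ℝ, 0 ≤ A →
    (∀ b : ℕ → ℂ, ∫ t in T..(2 * T), ((nz t (1 / Real.log T) : ℝ) * F t) * ‖dp N b t‖ ^ 2 ≤ A * T * N2 N b) → ∀ b : ℕ → ℂ,
    ∑ s ∈ H370.Zf riemannZeta T (2 * T), (mz s : ℝ) * (G0 s.im * ‖dp N b s.im‖ ^ 2) ≤
      (5 / 2 * A * Real.log T + 1) * T * N2 N b := by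
  classical
  obtain ⟨C, hC, hcr⟩ := nz_crude
  have ev1 : ∀ᶠ T : ℝ in atTop, 2 * C * M₀ * (Real.log T ^ (K + 1) * T ^ (1 / 40 : ℝ)) ≤ T := by
    have h1 := (isLittleO_log_rpow_rpow_atTop ((K + 1 : ℕ) : ℝ) (by norm_num : (0 : ℝ) < 39 / 40)).bound
      (show (0 : ℝ) < 1 / (2 * C * M₀ + 1) by positivity)
    filter_upwards [h1, eventually_ge_atTop (1 : ℝ)] with T h1 hT1
    have hT0 : 0 < T := by linarith
    have hL : 0 ≤ Real.log T := Real.log_nonneg hT1
    rw [Real.rpow_natCast, Real.norm_of_nonneg (by positivity), Real.norm_of_nonneg (by positivity)] at h1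
    have h2 : T ^ (39 / 40 : ℝ) * T ^ (1 / 40 : ℝ) = T := by
      rw [← Real.rpow_add hT0]; norm_num
    have h3 : (2 * C * M₀ + 1) * Real.log T ^ (K + 1) ≤ T ^ (39 / 40 : ℝ) := by
      rw [div_mul_eq_mul_div, one_mul, le_div_iff₀ (by positivity)] at h1
      linarith
    calc 2 * C * M₀ * (Real.log T ^ (K + 1) * T ^ (1 / 40 : ℝ)) = (2 * C * M₀ * Real.log T ^ (K + 1)) * T ^ (1 / 40 : ℝ) := by ring
      _ ≤ ((2 * C * M₀ + 1) * Real.log T ^ (K + 1)) * T ^ (1 / 40 : ℝ) := by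
          gcongr
          linarith
      _ ≤ T ^ (39 / 40 : ℝ) * T ^ (1 / 40 : ℝ) := by gcongr
      _ = T := h2
  filter_upwards [ev1, eventually_ge_atTop (16 : ℝ), Real.tendsto_log_atTop.eventually_ge_atTop (2 : ℝ)] with
    T ev1 hT hL2 N hN G0 F hF hF0 hFM hG0 hle hGe A hA hI b
  obtain ⟨M, hFM⟩ := hFM
  have hT0 : 0 < T := by linarith
  have hT1 : 1 ≤ T := by linarith
  have hL0 : 0 < Real.log T := by linarith
  have hN2 := N2_nonneg N b
  set L := Real.log T with hL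
  set r := 1 / L with hr
  have hr0 : 0 < r := by positivity
  have hr1 : r ≤ 1 / 2 := by rw [hr, div_le_iff₀ hL0]; linarith
  have hVc : Continuous (fun t : ℝ => ‖dp N b t‖ ^ 2) := V_cont hDPM N b
  have hVc' : Continuous (fun t : ℝ => ‖dp N (bd b) t‖ ^ 2) := V_cont hDPM N (bd b)
  set Z := H370.Zf riemannZeta T (2 * T) with hZd
  have mnz : Measurable (fun t : ℝ => (nz t r : ℝ)) := nz_meas r
  -- inner zeros
  have hin := disc_cont (T := T) (L := L) (M := M) (by linarith) hL0 (by linarith) N b hF hF0 hFM hG0 hle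
  have hi : ∀ c : ℕ → ℂ, IntervalIntegrable (fun t => ((nz t r : ℝ) * F t) * ‖dp N c t‖ ^ 2) volume T (2 * T) := by
    intro c
    refine gint (g := fun t => (nz t r : ℝ) * F t) (M := (nz 0 (4 * T) : ℝ) * M) (mnz.mul hF) (by linarith)
      (fun s => mul_nonneg (Nat.cast_nonneg _) (hF0 s)) (fun s s1 s2 => ?_) (V_cont hDPM N c) (fun s => sq_nonneg _)
    have h2 : (nz s r : ℝ) ≤ nz 0 (4 * T) := by
      have := nz_mono hZ2 (Zw_sub (t := s) (r := r) (t' := 0) (r' := 4 * T)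
        (by rw [sub_zero, abs_of_nonneg (by linarith)]; linarith))
      exact_mod_cast this
    exact mul_le_mul h2 (hFM s s1 s2) (hF0 s) (Nat.cast_nonneg _)
  have hin2 : ∫ t in T..(2 * T), ((nz t r : ℝ) * F t) * (3 / 2 * L * ‖dp N b t‖ ^ 2 + L⁻¹ * ‖dp N (bd b) t‖ ^ 2) ≤
      5 / 2 * A * L * T * N2 N b := by
    have e1 : ∫ t in T..(2 * T), ((nz t r : ℝ) * F t) * (3 / 2 * L * ‖dp N b t‖ ^ 2 + L⁻¹ * ‖dp N (bd b) t‖ ^ 2) =
        3 / 2 * L * (∫ t in T..(2 * T), ((nz t r : ℝ) * F t) * ‖dp N b t‖ ^ 2) +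
        L⁻¹ * ∫ t in T..(2 * T), ((nz t r : ℝ) * F t) * ‖dp N (bd b) t‖ ^ 2 := by
      rw [← intervalIntegral.integral_const_mul, ← intervalIntegral.integral_const_mul, ← intervalIntegral.integral_add
        ((hi b).const_mul _) ((hi (bd b)).const_mul _)]
      apply intervalIntegral.integral_congr
      intro t _
      simp only
      ring
    rw [e1]
    have h1 := hI b
    have h2 := hI (bd b)
    have h3 : N2 N (bd b) ≤ L ^ 2 * N2 N b := by
      refine (N2_bd N b).trans (mul_le_mul_of_nonneg_right ?_ hN2)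
      rcases Nat.eq_zero_or_pos N with h0 | h0
      · rw [h0]
        simp only [Nat.cast_zero, Real.log_zero]
        nlinarith [sq_nonneg L]
      · have hN1 : (1 : ℝ) ≤ N := by exact_mod_cast h0
        have h4 : Real.log N ≤ L := by
          apply Real.log_le_log (by linarith)
          refine hN.trans ?_
          calc T ^ (1 / 40 : ℝ) ≤ T ^ (1 : ℝ) := Real.rpow_le_rpow_of_exponent_le hT1 (by norm_num)
            _ = T := Real.rpow_one T
        have h5 : 0 ≤ Real.log N := Real.log_nonneg hN1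
        gcongr
    have h4 : L⁻¹ * (A * T * N2 N (bd b)) ≤ A * L * T * N2 N b := by
      calc L⁻¹ * (A * T * N2 N (bd b)) ≤ L⁻¹ * (A * T * (L ^ 2 * N2 N b)) := by gcongr
        _ = A * L * T * N2 N b := by field_simp
    have h5 := mul_le_mul_of_nonneg_left h1 (by positivity : 0 ≤ 3 / 2 * L)
    have h6 := mul_le_mul_of_nonneg_left h2 (by positivity : 0 ≤ L⁻¹)
    calc _ ≤ 3 / 2 * L * (A * T * N2 N b) + L⁻¹ * (A * T * N2 N (bd b)) := add_le_add h5 h6
      _ ≤ 3 / 2 * L * (A * T * N2 N b) + A * L * T * N2 N b := by linarith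
      _ = _ := by ring
  -- outer zeros
  have hout : ∑ s ∈ Z.filter (fun s => ¬ (T + r ≤ s.im ∧ s.im ≤ 2 * T - r)), (mz s : ℝ) * (G0 s.im * ‖dp N b s.im‖ ^ 2) ≤
      T * N2 N b := by
    have h1 : ∑ s ∈ Z.filter (fun s => ¬ (T + r ≤ s.im ∧ s.im ≤ 2 * T - r)), (mz s : ℝ) ≤ 2 * C * L := by
      have hsub : Z.filter (fun s => ¬ (T + r ≤ s.im ∧ s.im ≤ 2 * T - r)) ⊆
          (hZ2.1 T r).toFinset ∪ (hZ2.1 (2 * T) r).toFinset := by
        intro s hs
        rw [Finset.mem_filter, hZd, H370.mem_Zf H370.good_zeta (by linarith)] at hs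
        obtain ⟨⟨a1, a2, a3, a4, a5⟩, a6⟩ := hs
        rw [Finset.mem_union, Set.Finite.mem_toFinset, Set.Finite.mem_toFinset]
        rw [not_and_or, not_le, not_le] at a6
        rcases a6 with a6 | a6
        · exact Or.inl ⟨a5, a1, a2, by rw [abs_le]; constructor <;> linarith⟩
        · exact Or.inr ⟨a5, a1, a2, by rw [abs_le]; constructor <;> linarith⟩
      have h2 : ∑ s ∈ Z.filter (fun s => ¬ (T + r ≤ s.im ∧ s.im ≤ 2 * T - r)), mz s ≤ nz T r + nz (2 * T) r := by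
        refine (Finset.sum_le_sum_of_subset hsub).trans ?_
        rw [nz_eq hZ2, nz_eq hZ2]
        exact sum_union_le _ _ _
      have h3 := hcr T T r hT (by linarith) (by linarith) hr1
      have h4 := hcr T (2 * T) r hT (by linarith) (by linarith) hr1
      have h5 : ((∑ s ∈ Z.filter (fun s => ¬ (T + r ≤ s.im ∧ s.im ≤ 2 * T - r)), mz s : ℕ) : ℝ) ≤ nz T r + nz (2 * T) r := by
        exact_mod_cast h2
      push_cast at h5
      linarith
    have h2 : ∀ s ∈ Z.filter (fun s => ¬ (T + r ≤ s.im ∧ s.im ≤ 2 * T - r)), (mz s : ℝ) * (G0 s.im * ‖dp N b s.im‖ ^ 2) ≤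
        (mz s : ℝ) * (M₀ * L ^ K * (T ^ (1 / 40 : ℝ) * N2 N b)) := by
      intro s hs
      rw [Finset.mem_filter, hZd, H370.mem_Zf H370.good_zeta (by linarith)] at hs
      obtain ⟨⟨a1, a2, a3, a4, a5⟩, a6⟩ := hs
      apply mul_le_mul_of_nonneg_left _ (Nat.cast_nonneg _)
      apply mul_le_mul (hGe _ (by linarith) (by linarith)) _ (sq_nonneg _) (by positivity)
      exact ((hDPM.2.2 N b s.im).1).trans (mul_le_mul_of_nonneg_right hN hN2)
    refine (Finset.sum_le_sum h2).trans ?_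
    rw [← Finset.sum_mul]
    have h3 : 0 ≤ M₀ * L ^ K * (T ^ (1 / 40 : ℝ) * N2 N b) := by positivity
    calc _ ≤ 2 * C * L * (M₀ * L ^ K * (T ^ (1 / 40 : ℝ) * N2 N b)) := mul_le_mul_of_nonneg_right h1 h3
      _ = (2 * C * M₀ * (L ^ (K + 1) * T ^ (1 / 40 : ℝ))) * N2 N b := by rw [pow_succ]; ring
      _ ≤ T * N2 N b := mul_le_mul_of_nonneg_right ev1 hN2
  rw [← Finset.sum_filter_add_sum_filter_not Z (fun s => T + r ≤ s.im ∧ s.im ≤ 2 * T - r)]
  calc _ ≤ 5 / 2 * A * L * T * N2 N b + T * N2 N b := add_le_add (hin.trans hin2) hout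
    _ = _ := by ring

/-- the product weight at a zero -/
noncomputable def PW {p : ℕ} (T : ℝ) (y S : Fin p → ℝ) (γ : ℝ) : ℝ := ∏ j, (1 + zc T (y j) (S j) γ)

/-- the majorant of the product weight near a zero -/
noncomputable def PM {p : ℕ} (T : ℝ) (y S : Fin p → ℝ) (t : ℝ) : ℝ := ∏ j, (1 + zc T (y j) (S j) t +
  zc T (y j - S j / Real.log T) 1 t + zc T (y j + S j / Real.log T) 1 t)

/-- the index set of all windows -/
abbrev Ix (p : ℕ) : Type := Fin 4 ⊕ (Fin p × Fin 3)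

noncomputable def cc {p : ℕ} (T x R' : ℝ) (y S : Fin p → ℝ) : Ix p → ℝ :=
  Sum.elim ![0, x, x - R' / Real.log T, x + R' / Real.log T]
    (fun q => ![y q.1, y q.1 - S q.1 / Real.log T, y q.1 + S q.1 / Real.log T] q.2)

noncomputable def rr {p : ℕ} (R' : ℝ) (S : Fin p → ℝ) : Ix p → ℝ :=
  Sum.elim ![1, R', 1, 1] (fun q => ![S q.1, 1, 1] q.2)

theorem rr_one {p : ℕ} {R' : ℝ} {S : Fin p → ℝ} (hR : 1 ≤ R') (hS : ∀ j, 1 ≤ S j) (i : Ix p) : 1 ≤ rr R' S i := by
  unfold rr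
  rcases i with i | ⟨q1, q2⟩
  · fin_cases i <;> simp [hR]
  · fin_cases q2 <;> simp [hS]

theorem rr_le {p : ℕ} {R' M : ℝ} {S : Fin p → ℝ} (hR : R' ≤ M) (hS : ∀ j, S j ≤ M) (hM : 1 ≤ M) (i : Ix p) : rr R' S i ≤ M := by
  unfold rr
  rcases i with i | ⟨q1, q2⟩
  · fin_cases i <;> simp [hR, hM]
  · fin_cases q2 <;> simp [hS, hM]

theorem cc_le {p : ℕ} {T x R' X Y : ℝ} {y S : Fin p → ℝ} (hx : |x| ≤ X) (hR0 : 0 ≤ R' / Real.log T) (hR : R' / Real.log T ≤ Y)
    (hy : ∀ j, |y j| ≤ X) (hS0 : ∀ j, 0 ≤ S j / Real.log T) (hS : ∀ j, S j / Real.log T ≤ Y) (i : Ix p) :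
    |cc T x R' y S i| ≤ X + Y := by
  have hX : 0 ≤ X := (abs_nonneg x).trans hx
  unfold cc
  rcases i with i | ⟨q1, q2⟩
  · obtain ⟨x1, x2⟩ := abs_le.1 hx
    fin_cases i
    · simp only [Fin.zero_eta, Sum.elim_inl, Matrix.cons_val_zero, abs_zero]; linarith
    · simp only [Fin.mk_one, Sum.elim_inl, Matrix.cons_val_one, Matrix.cons_val_zero]; linarith
    · simp only [Fin.reduceFinMk, Sum.elim_inl, Matrix.cons_val]
      rw [abs_le]; constructor <;> linarith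
    · simp only [Fin.reduceFinMk, Sum.elim_inl, Matrix.cons_val]
      rw [abs_le]; constructor <;> linarith
  · obtain ⟨x1, x2⟩ := abs_le.1 (hy q1)
    have := hS0 q1
    have := hS q1
    fin_cases q2
    · simp only [Fin.zero_eta, Sum.elim_inr, Matrix.cons_val_zero]; rw [abs_le]; constructor <;> linarith
    · simp only [Fin.mk_one, Sum.elim_inr, Matrix.cons_val_one, Matrix.cons_val_zero]; rw [abs_le]; constructor <;> linarith
    · simp only [Fin.reduceFinMk, Sum.elim_inr, Matrix.cons_val]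
      rw [abs_le]; constructor <;> linarith

theorem ZZ_ge {p : ℕ} {T x R' : ℝ} {y S : Fin p → ℝ} (hR : 1 ≤ R') (hS : ∀ j, 1 ≤ S j) (t : ℝ) :
    (1 + zc T 0 1 t + zc T x R' t + zc T (x - R' / Real.log T) 1 t + zc T (x + R' / Real.log T) 1 t ≤
      ZZ T (cc T x R' y S) (rr R' S) t) ∧
    ∀ j, 1 + zc T (y j) (S j) t + zc T (y j - S j / Real.log T) 1 t + zc T (y j + S j / Real.log T) 1 t ≤
      ZZ T (cc T x R' y S) (rr R' S) t := by
  unfold ZZ
  have e : ∑ i, zc T (cc T x R' y S i) (rr R' S i) t =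
      (zc T 0 1 t + zc T x R' t + zc T (x - R' / Real.log T) 1 t + zc T (x + R' / Real.log T) 1 t) +
      ∑ j, (zc T (y j) (S j) t + zc T (y j - S j / Real.log T) 1 t + zc T (y j + S j / Real.log T) 1 t) := by
    rw [Fintype.sum_sum_type, Fintype.sum_prod_type, Fin.sum_univ_four]
    simp only [Fin.sum_univ_three]
    rfl
  rw [e]
  have h1 : ∀ j, 0 ≤ zc T (y j) (S j) t + zc T (y j - S j / Real.log T) 1 t + zc T (y j + S j / Real.log T) 1 t := by
    intro j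
    have a1 : 0 ≤ zc T (y j) (S j) t := zc_nonneg (by linarith [hS j])
    have a2 : 0 ≤ zc T (y j - S j / Real.log T) 1 t := zc_nonneg (by norm_num)
    have a3 : 0 ≤ zc T (y j + S j / Real.log T) 1 t := zc_nonneg (by norm_num)
    linarith
  have b1 : 0 ≤ zc T 0 1 t := zc_nonneg (by norm_num)
  have b2 : 0 ≤ zc T x R' t := zc_nonneg (by linarith)
  have b3 : 0 ≤ zc T (x - R' / Real.log T) 1 t := zc_nonneg (by norm_num)
  have b4 : 0 ≤ zc T (x + R' / Real.log T) 1 t := zc_nonneg (by norm_num)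
  constructor
  · have := Finset.sum_nonneg fun j (_ : j ∈ Finset.univ) => h1 j
    linarith
  · intro j
    have := Finset.single_le_sum (f := fun j => zc T (y j) (S j) t + zc T (y j - S j / Real.log T) 1 t +
      zc T (y j + S j / Real.log T) 1 t) (fun j _ => h1 j) (Finset.mem_univ j)
    linarith

end Pool.Agent.V8H36.KL
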