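import Pool.Agent.V8H36.KL.Gen2

set_option autoImplicit false

/-! Sums over the zeros: products of counts, and the mesoscopic law at the zeros. -/

open Filter Topology MeasureTheory Complex
open scoped ComplexConjugate

namespace Pool.Agent.V8H36.KL

open Pool.Agent.Q97.UM
open Pool.Agent.Q210.UM (gint V_cont nz_mono Zw_sub nz_eq)
open Pool.Agent.Q61.UM (dp_var bd N2_bd ind_in)

theorem PM_meas {p : ℕ} (T : ℝ) (y S : Fin p → ℝ) : Measurable (PM T y S) := by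
  unfold PM
  exact Finset.measurable_prod _ fun j _ => ((measurable_const.add (zc_meas T _ _)).add (zc_meas T _ _)).add (zc_meas T _ _)

theorem PW_nonneg {p : ℕ} {T : ℝ} {y S : Fin p → ℝ} (hS : ∀ j, 1 ≤ S j) (γ : ℝ) : 0 ≤ PW T y S γ :=
  Finset.prod_nonneg fun j _ => by
    have : 0 ≤ zc T (y j) (S j) γ := zc_nonneg (by linarith [hS j])
    linarith

theorem PM_fac {T y S t : ℝ} (hS : 1 ≤ S) : 1 ≤ 1 + zc T y S t + zc T (y - S / Real.log T) 1 t + zc T (y + S / Real.log T) 1 t := by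
  have a1 : 0 ≤ zc T y S t := zc_nonneg (by linarith)
  have a2 : 0 ≤ zc T (y - S / Real.log T) 1 t := zc_nonneg (by norm_num)
  have a3 : 0 ≤ zc T (y + S / Real.log T) 1 t := zc_nonneg (by norm_num)
  linarith

theorem PM_nonneg {p : ℕ} {T : ℝ} {y S : Fin p → ℝ} (hS : ∀ j, 1 ≤ S j) (t : ℝ) : 0 ≤ PM T y S t :=
  Finset.prod_nonneg fun j _ => by linarith [PM_fac (T := T) (y := y j) (t := t) (hS j)]

/-- moving one count -/
theorem zc_shift {T c ρ t γ : ℝ} (hρ : 1 ≤ ρ) (hd : |t - γ| ≤ 1 / Real.log T) :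
    zc T c ρ γ ≤ zc T c ρ t + zc T (c - ρ / Real.log T) 1 t + zc T (c + ρ / Real.log T) 1 t := by
  have h1 := (nz_shift (c := c) (h := ρ / Real.log T) hd).1
  have h2 : (nz (γ + c) (ρ / Real.log T) : ℝ) ≤ nz (t + c) (ρ / Real.log T) +
      (nz (t + (c - ρ / Real.log T)) (1 / Real.log T) + nz (t + (c + ρ / Real.log T)) (1 / Real.log T)) := by exact_mod_cast h1
  unfold zc
  rw [div_one, div_one, div_le_iff₀ (by linarith), add_mul, add_mul, div_mul_cancel₀ _ (by linarith : ρ ≠ 0)]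
  have h3 : (0 : ℝ) ≤ nz (t + (c - ρ / Real.log T)) (1 / Real.log T) := Nat.cast_nonneg _
  have h4 : (0 : ℝ) ≤ nz (t + (c + ρ / Real.log T)) (1 / Real.log T) := Nat.cast_nonneg _
  nlinarith

theorem PW_le_PM {p : ℕ} {T t γ : ℝ} {y S : Fin p → ℝ} (hS : ∀ j, 1 ≤ S j) (hd : |t - γ| ≤ 1 / Real.log T) :
    PW T y S γ ≤ PM T y S t := by
  unfold PW PM
  refine Finset.prod_le_prod (fun j _ => ?_) (fun j _ => ?_)
  · have : 0 ≤ zc T (y j) (S j) γ := zc_nonneg (by linarith [hS j])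
    linarith
  · have := zc_shift (c := y j) (hS j) hd
    linarith

theorem PM_le_ZZ {p : ℕ} {T x R' : ℝ} {y S : Fin p → ℝ} (hR : 1 ≤ R') (hS : ∀ j, 1 ≤ S j) (t : ℝ) :
    PM T y S t ≤ ZZ T (cc T x R' y S) (rr R' S) t ^ p := by
  unfold PM
  calc _ ≤ ∏ _j : Fin p, ZZ T (cc T x R' y S) (rr R' S) t :=
        Finset.prod_le_prod (fun j _ => by linarith [PM_fac (T := T) (y := y j) (t := t) (hS j)])
          (fun j _ => (ZZ_ge hR hS t).2 j)
    _ = _ := by rw [Finset.prod_const, Finset.card_univ, Fintype.card_fin]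

/-- the set-up for the eventual bounds -/
theorem ev_setup (S0 : ℝ) (hS0 : 1 ≤ S0) : ∀ᶠ T : ℝ in atTop, 16 ≤ T ∧ 2 * S0 ≤ Real.log T ∧ 2 ≤ Real.log T ∧ Real.sqrt T + 1 ≤ T / 8 ∧ S0 ≤ T := by
  filter_upwards [eventually_ge_atTop (400 : ℝ), Real.tendsto_log_atTop.eventually_ge_atTop (2 * S0), eventually_ge_atTop S0] with T h1 h2 h3
  refine ⟨by linarith, h2, by linarith, ?_, h3⟩
  have : Real.sqrt T ≤ T / 8 - 1 := by
    rw [Real.sqrt_le_left (by linarith)]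
    nlinarith
  linarith

/-- crude bound for a count -/
theorem zc_crude {C T c ρ γ : ℝ} (hC : 1 ≤ C) (hcr : ∀ T t r : ℝ, 16 ≤ T → T / 2 ≤ t → t ≤ 4 * T → r ≤ 1 / 2 →
    (nz t r : ℝ) ≤ C * Real.log T) (hT : 16 ≤ T) (h1 : T ≤ γ) (h2 : γ ≤ 2 * T) (hc : |c| ≤ T / 8) (hρ : 1 ≤ ρ)
    (hr : ρ / Real.log T ≤ 1 / 2) : zc T c ρ γ ≤ C * Real.log T := by
  obtain ⟨c1, c2⟩ := abs_le.1 hc
  have h3 := hcr T (γ + c) (ρ / Real.log T) hT (by linarith) (by linarith) hr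
  unfold zc
  rw [div_le_iff₀ (by linarith)]
  have h4 : 0 ≤ C * Real.log T := (Nat.cast_nonneg _).trans h3
  nlinarith

/-- **products of counts at the zeros** -/
theorem t_G0 : ∃ θ : ℝ, 0 < θ ∧ θ ≤ 1 / 40 ∧ ∀ p : ℕ, ∃ C : ℝ, 1 ≤ C ∧ ∀ S0 : ℝ, 1 ≤ S0 → ∀ᶠ T : ℝ in atTop,
    ∀ y S : Fin p → ℝ, (∀ j, |y j| ≤ Real.sqrt T) → (∀ j, 1 ≤ S j ∧ S j ≤ S0) → ∀ N : ℕ, (N : ℝ) ≤ T ^ θ → ∀ b : ℕ → ℂ,
      ∑ s ∈ H370.Zf riemannZeta T (2 * T), (mz s : ℝ) * (PW T y S s.im * ‖dp N b s.im‖ ^ 2) ≤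
        C * Real.log T * T * N2 N b := by
  obtain ⟨θ₀, hθ0, hθ1, hzm⟩ := t_zm
  obtain ⟨C, hC, hcr⟩ := nz_crude
  refine ⟨min θ₀ (1 / 40), by positivity, min_le_right _ _, fun p => ?_⟩
  obtain ⟨C₁, hC₁, hzm⟩ := hzm (Ix p) (p + 1)
  refine ⟨5 / 2 * C₁ + 1, by linarith, fun S0 hS0 => ?_⟩
  filter_upwards [hzm, ev_setup S0 hS0, t_H p ((C + 1) ^ p) (by positivity)] with T hzm hT hH y S hy hS N hN b
  obtain ⟨hT16, hLS, hL2, hsq, hST⟩ := hT
  have hT1 : 1 ≤ T := by linarith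
  have hT0 : 0 < T := by linarith
  have hL0 : 0 < Real.log T := by linarith
  have hN1 : (N : ℝ) ≤ T ^ θ₀ := hN.trans (Real.rpow_le_rpow_of_exponent_le hT1 (min_le_left _ _))
  have hN2 : (N : ℝ) ≤ T ^ (1 / 40 : ℝ) := hN.trans (Real.rpow_le_rpow_of_exponent_le hT1 (min_le_right _ _))
  have hS1 : ∀ j, 1 ≤ S j := fun j => (hS j).1
  have hSL : ∀ j, S j / Real.log T ≤ 1 / 2 := fun j => by
    rw [div_le_iff₀ hL0]
    linarith [(hS j).2]
  have hSL0 : ∀ j, 0 ≤ S j / Real.log T := fun j => by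
    have := (hS j).1
    positivity
  have h1L : 1 / Real.log T ≤ 1 / 2 := by
    rw [div_le_iff₀ hL0]; linarith
  have hcc : ∀ i, |cc T 0 1 y S i| ≤ T / 8 := fun i =>
    (cc_le (X := Real.sqrt T) (Y := 1 / 2) (by rw [abs_zero]; exact Real.sqrt_nonneg T) (by positivity) h1L hy hSL0 hSL i).trans
      (by linarith)
  have hrr : ∀ i, 1 ≤ rr 1 S i ∧ rr 1 S i ≤ T := fun i => ⟨rr_one le_rfl hS1 i,
    rr_le hT1 (fun j => (hS j).2.trans hST) hT1 i⟩
  have hVZ : ∀ t, PM T y S t * zc T 0 1 t ≤ ZZ T (cc T 0 1 y S) (rr 1 S) t ^ (p + 1) := by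
    intro t
    have z1 := ZZ_one (T := T) (c := cc T 0 1 y S) (fun i => (hrr i).1) t
    have z2 : zc T 0 1 t ≤ ZZ T (cc T 0 1 y S) (rr 1 S) t := by
      have := (ZZ_ge (T := T) (x := 0) (R' := 1) (y := y) le_rfl hS1 t).1
      have b2 : 0 ≤ zc T 0 1 t := zc_nonneg (by norm_num)
      have b3 : 0 ≤ zc T (0 - 1 / Real.log T) 1 t := zc_nonneg (by norm_num)
      have b4 : 0 ≤ zc T (0 + 1 / Real.log T) 1 t := zc_nonneg (by norm_num)
      linarith
    rw [pow_succ]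
    exact mul_le_mul (PM_le_ZZ le_rfl hS1 t) z2 (zc_nonneg (by norm_num)) (by positivity)
  have hFM : ∀ t, T ≤ t → t ≤ 2 * T → PM T y S t ≤ (1 + ∑ _i : Ix p, (nz 0 (4 * T) : ℝ)) ^ p := by
    intro t t1 t2
    refine (PM_le_ZZ (x := 0) (R' := 1) le_rfl hS1 t).trans ?_
    have h1 := ZZ_one (T := T) (c := cc T 0 1 y S) (fun i => (hrr i).1) t
    apply pow_le_pow_left₀ (by linarith)
    unfold ZZ
    have : ∑ i, zc T (cc T 0 1 y S i) (rr 1 S i) t ≤ ∑ _i : Ix p, (nz 0 (4 * T) : ℝ) := by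
      refine Finset.sum_le_sum fun i _ => ?_
      unfold zc
      have h2 := nz_bd hT1 (hcc i) (r := rr 1 S i / Real.log T) (by
        rw [div_le_iff₀ hL0]
        nlinarith [(hrr i).2]) t2 t1
      have h3 := (hrr i).1
      rw [div_le_iff₀ (by linarith)]
      have h4 : (0 : ℝ) ≤ nz 0 (4 * T) := Nat.cast_nonneg _
      nlinarith
    linarith
  have key := hH N hN2 (PW T y S) (PM T y S) (PM_meas T y S) (PM_nonneg hS1) ⟨_, hFM⟩ (PW_nonneg hS1)
    (fun γ t hd => PW_le_PM hS1 hd) (fun γ g1 g2 => ?_) C₁ (by linarith) (fun b' => ?_) b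
  · refine key.trans ?_
    have hW0 : 0 ≤ T * N2 N b := mul_nonneg hT0.le (N2_nonneg N b)
    calc (5 / 2 * C₁ * Real.log T + 1) * T * N2 N b = (5 / 2 * C₁ * Real.log T + 1) * (T * N2 N b) := by ring
      _ ≤ ((5 / 2 * C₁ + 1) * Real.log T) * (T * N2 N b) := by
          apply mul_le_mul_of_nonneg_right _ hW0
          nlinarith
      _ = _ := by ring
  · unfold PW
    calc ∏ j, (1 + zc T (y j) (S j) γ) ≤ ∏ _j : Fin p, ((C + 1) * Real.log T) := by
          refine Finset.prod_le_prod (fun j _ => ?_) (fun j _ => ?_)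
          · have : 0 ≤ zc T (y j) (S j) γ := zc_nonneg (by linarith [hS1 j])
            linarith
          · have := zc_crude hC hcr hT16 g1 g2 ((hy j).trans (by linarith)) (hS1 j) (hSL j)
            linarith
      _ = (C + 1) ^ p * Real.log T ^ p := by
          rw [Finset.prod_const, Finset.card_univ, Fintype.card_fin, mul_pow]
  · have hVc : Continuous (fun t : ℝ => ‖dp N b' t‖ ^ 2) := V_cont hDPM N b'
    have h1 := hzm (cc T 0 1 y S) (rr 1 S) hcc hrr N hN1 b'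
    refine le_trans ?_ h1
    refine intervalIntegral.integral_mono_on (by linarith) ?_ ?_ fun t _ => ?_
    · refine gint (g := fun t => (nz t (1 / Real.log T) : ℝ) * PM T y S t) (M := (nz 0 (4 * T) : ℝ) *
        (1 + ∑ _i : Ix p, (nz 0 (4 * T) : ℝ)) ^ p) ((nz_meas _).mul (PM_meas T y S)) (by linarith)
        (fun s => mul_nonneg (Nat.cast_nonneg _) (PM_nonneg hS1 s)) (fun s s1 s2 => ?_) hVc (fun s => sq_nonneg _)
      have h2 := nz_bd hT1 (c := 0) (r := 1 / Real.log T) (by rw [abs_zero]; positivity) (by linarith) s2 s1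
      rw [add_zero] at h2
      exact mul_le_mul h2 (hFM s s1 s2) (PM_nonneg hS1 s) (Nat.cast_nonneg _)
    · refine gint (g := fun t => ZZ T (cc T 0 1 y S) (rr 1 S) t ^ (p + 1)) (M := (1 + ∑ _i : Ix p, (nz 0 (4 * T) : ℝ)) ^ (p + 1))
        ((ZZ_meas T _ _).pow_const _) (by linarith) (fun s => ?_) (fun s s1 s2 => ?_) hVc (fun s => sq_nonneg _)
      · have := ZZ_one (T := T) (c := cc T 0 1 y S) (fun i => (hrr i).1) s
        positivity
      · have h1 := ZZ_one (T := T) (c := cc T 0 1 y S) (fun i => (hrr i).1) s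
        apply pow_le_pow_left₀ (by linarith)
        unfold ZZ
        have : ∑ i, zc T (cc T 0 1 y S i) (rr 1 S i) s ≤ ∑ _i : Ix p, (nz 0 (4 * T) : ℝ) := by
          refine Finset.sum_le_sum fun i _ => ?_
          unfold zc
          have h2 := nz_bd hT1 (hcc i) (r := rr 1 S i / Real.log T) (by
            rw [div_le_iff₀ hL0]
            nlinarith [(hrr i).2]) s2 s1
          have h3 := (hrr i).1
          rw [div_le_iff₀ (by linarith)]
          have h4 : (0 : ℝ) ≤ nz 0 (4 * T) := Nat.cast_nonneg _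
          nlinarith
        linarith
    · apply mul_le_mul_of_nonneg_right _ (sq_nonneg _)
      have h2 := hVZ t
      have h3 : zc T 0 1 t = nz t (1 / Real.log T) := by
        unfold zc
        rw [add_zero, div_one]
      rw [h3] at h2
      linarith

end Pool.Agent.V8H36.KL
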