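import Pool.Agent.V8H36.KL.Gen3

set_option autoImplicit false

/-! The mesoscopic law at the zeros. -/

open Filter Topology MeasureTheory Complex
open scoped ComplexConjugate

namespace Pool.Agent.V8H36.KL

open Pool.Agent.Q97.UM
open Pool.Agent.Q210.UM (gint V_cont nz_mono Zw_sub nz_eq)
open Pool.Agent.Q61.UM (dp_var bd N2_bd ind_in)

theorem ZZ_bd {ι : Type} [Fintype ι] {T : ℝ} {c ρ : ι → ℝ} (hT1 : 1 ≤ T) (hL : 1 ≤ Real.log T) (hc : ∀ i, |c i| ≤ T / 8)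
    (hρ : ∀ i, 1 ≤ ρ i ∧ ρ i ≤ T) {s : ℝ} (s1 : T ≤ s) (s2 : s ≤ 2 * T) :
    ZZ T c ρ s ≤ 1 + ∑ _i : ι, (nz 0 (4 * T) : ℝ) := by
  unfold ZZ
  have : ∑ i, zc T (c i) (ρ i) s ≤ ∑ _i : ι, (nz 0 (4 * T) : ℝ) := by
    refine Finset.sum_le_sum fun i _ => ?_
    unfold zc
    have h2 := nz_bd hT1 (hc i) (r := ρ i / Real.log T) (by
      rw [div_le_iff₀ (by linarith)]
      nlinarith [(hρ i).2]) s2 s1
    have h3 := (hρ i).1
    rw [div_le_iff₀ (by linarith)]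
    have h4 : (0 : ℝ) ≤ nz 0 (4 * T) := Nat.cast_nonneg _
    nlinarith
  linarith

theorem ZZ_int {ι : Type} [Fintype ι] {T : ℝ} {c ρ : ι → ℝ} (hT1 : 1 ≤ T) (hL : 1 ≤ Real.log T) (hc : ∀ i, |c i| ≤ T / 8)
    (hρ : ∀ i, 1 ≤ ρ i ∧ ρ i ≤ T) (q : ℕ) (N : ℕ) (b : ℕ → ℂ) :
    IntervalIntegrable (fun t => ZZ T c ρ t ^ q * ‖dp N b t‖ ^ 2) volume T (2 * T) := by
  refine gint (g := fun t => ZZ T c ρ t ^ q) (M := (1 + ∑ _i : ι, (nz 0 (4 * T) : ℝ)) ^ q)
    ((ZZ_meas T _ _).pow_const _) (by linarith) (fun s => ?_) (fun s s1 s2 => ?_) (V_cont hDPM N b) (fun s => sq_nonneg _)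
  · have := ZZ_one (T := T) (c := c) (fun i => (hρ i).1) s
    positivity
  · have h1 := ZZ_one (T := T) (c := c) (fun i => (hρ i).1) s
    exact pow_le_pow_left₀ (by linarith) (ZZ_bd hT1 hL hc hρ s1 s2) _

/-- the deviation near a zero -/
noncomputable def DD (T x R' t : ℝ) : ℝ := |(nz (t + x) (R' / Real.log T) : ℝ) - R' / Real.pi| +
  (zc T (x - R' / Real.log T) 1 t + zc T (x + R' / Real.log T) 1 t)

theorem DD_meas (T x R' : ℝ) : Measurable (DD T x R') := by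
  unfold DD
  exact ((((nz_meas _).comp (measurable_id.add_const x)).sub_const _).abs).add ((zc_meas T _ _).add (zc_meas T _ _))

theorem DD_nonneg (T x R' t : ℝ) : 0 ≤ DD T x R' t := by
  unfold DD
  have a2 : 0 ≤ zc T (x - R' / Real.log T) 1 t := zc_nonneg (by norm_num)
  have a3 : 0 ≤ zc T (x + R' / Real.log T) 1 t := zc_nonneg (by norm_num)
  positivity

theorem DD_shift {T x R' t γ : ℝ} (hd : |t - γ| ≤ 1 / Real.log T) :
    |(nz (γ + x) (R' / Real.log T) : ℝ) - R' / Real.pi| ≤ DD T x R' t := by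
  obtain ⟨h1, h2⟩ := nz_shift (c := x) (h := R' / Real.log T) hd
  have h1' : (nz (γ + x) (R' / Real.log T) : ℝ) ≤ nz (t + x) (R' / Real.log T) +
      (nz (t + (x - R' / Real.log T)) (1 / Real.log T) + nz (t + (x + R' / Real.log T)) (1 / Real.log T)) := by exact_mod_cast h1
  have h2' : (nz (t + x) (R' / Real.log T) : ℝ) ≤ nz (γ + x) (R' / Real.log T) +
      (nz (t + (x - R' / Real.log T)) (1 / Real.log T) + nz (t + (x + R' / Real.log T)) (1 / Real.log T)) := by exact_mod_cast h2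
  unfold DD zc
  rw [div_one, div_one]
  have q1 := neg_abs_le ((nz (t + x) (R' / Real.log T) : ℝ) - R' / Real.pi)
  have q2 := le_abs_self ((nz (t + x) (R' / Real.log T) : ℝ) - R' / Real.pi)
  rw [abs_le]
  constructor <;> linarith

/-- `D Y² / R ≤ Z^(2p+3)` -/
theorem DD_le {p : ℕ} {T x R R' : ℝ} {y S : Fin p → ℝ} (hR1 : 1 ≤ R') (hR : R' ≤ R) (hS : ∀ j, 1 ≤ S j) (t : ℝ) :
    DD T x R' t ≤ R * ZZ T (cc T x R' y S) (rr R' S) t ∧
    zc T 0 1 t * PM T y S t ≤ ZZ T (cc T x R' y S) (rr R' S) t ^ (p + 1) ∧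
    zc T (x - R' / Real.log T) 1 t + zc T (x + R' / Real.log T) 1 t ≤ ZZ T (cc T x R' y S) (rr R' S) t := by
  have hz := (ZZ_ge (T := T) (x := x) (R' := R') (y := y) hR1 hS t).1
  have hpi := Real.pi_gt_three
  have b1 : 0 ≤ zc T 0 1 t := zc_nonneg (by norm_num)
  have b2 : 0 ≤ zc T x R' t := zc_nonneg (by linarith)
  have b3 : 0 ≤ zc T (x - R' / Real.log T) 1 t := zc_nonneg (by norm_num)
  have b4 : 0 ≤ zc T (x + R' / Real.log T) 1 t := zc_nonneg (by norm_num)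
  have hz1 := ZZ_one (T := T) (c := cc T x R' y S) (fun i => rr_one hR1 hS i) t
  refine ⟨?_, ?_, by linarith⟩
  · have e1 : (nz (t + x) (R' / Real.log T) : ℝ) = R' * zc T x R' t := by
      unfold zc
      field_simp
    have h0 : 0 ≤ R' / Real.pi := by positivity
    have h1 : R' / Real.pi ≤ R' := by
      rw [div_le_iff₀ (by linarith)]
      nlinarith
    have h2 : |(nz (t + x) (R' / Real.log T) : ℝ) - R' / Real.pi| ≤ R' * zc T x R' t + R' := by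
      refine (abs_sub_le' _ _ (Nat.cast_nonneg _) h0).trans ?_
      rw [e1]
      linarith
    unfold DD
    calc _ ≤ (R' * zc T x R' t + R') + (zc T (x - R' / Real.log T) 1 t + zc T (x + R' / Real.log T) 1 t) := by linarith
      _ ≤ R * (1 + zc T 0 1 t + zc T x R' t + zc T (x - R' / Real.log T) 1 t + zc T (x + R' / Real.log T) 1 t) := by
          nlinarith [mul_nonneg (by linarith : 0 ≤ R - R') b2, mul_nonneg (by linarith : 0 ≤ R) b1,
            mul_nonneg (by linarith : 0 ≤ R - 1) b3, mul_nonneg (by linarith : 0 ≤ R - 1) b4]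
      _ ≤ _ := mul_le_mul_of_nonneg_left hz (by linarith)
  · rw [pow_succ, mul_comm]
    exact mul_le_mul (PM_le_ZZ hR1 hS t) (by linarith) b1 (by positivity)

/-- **the mesoscopic law at the zeros** -/
theorem t_G : ∃ θ : ℝ, 0 < θ ∧ θ ≤ 1 / 40 ∧ ∀ p : ℕ, ∃ C : ℝ, 1 ≤ C ∧ ∀ R S0 : ℝ, 1 ≤ R → 1 ≤ S0 → ∀ᶠ T : ℝ in atTop,
    ∀ R' : ℝ, 1 ≤ R' → R' ≤ R → ∀ x : ℝ, |x| ≤ Real.sqrt T →
    ∀ y S : Fin p → ℝ, (∀ j, |y j| ≤ Real.sqrt T) → (∀ j, 1 ≤ S j ∧ S j ≤ S0) → ∀ N : ℕ, (N : ℝ) ≤ T ^ θ → ∀ b : ℕ → ℂ,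
      ∑ s ∈ H370.Zf riemannZeta T (2 * T), (mz s : ℝ) *
        ((|(nz (s.im + x) (R' / Real.log T) : ℝ) - R' / Real.pi| * PW T y S s.im) * ‖dp N b s.im‖ ^ 2) ≤
        C * R ^ (3 / 4 : ℝ) * Real.log T * T * N2 N b := by
  obtain ⟨θ₀, hθ0, hθ1, hzm⟩ := t_zm
  obtain ⟨C, hC, hcr⟩ := nz_crude
  obtain ⟨Cm, θm, hCm, hθm0, hθm1, hmeso⟩ := t_meso2
  refine ⟨min θ₀ θm, by positivity, (min_le_right _ _).trans hθm1, fun p => ?_⟩
  obtain ⟨C₁, hC₁, hz1⟩ := hzm (Ix p) 1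
  obtain ⟨C₂, hC₂, hz2⟩ := hzm (Ix p) (2 * p + 3)
  refine ⟨5 / 2 * (Cm + C₁ + C₂) + 1, by linarith, fun R S0 hR hS0 => ?_⟩
  set RS := max R S0 with hRS
  have hRS1 : 1 ≤ RS := hR.trans (le_max_left _ _)
  filter_upwards [hz1, hz2, hmeso R hR, ev_setup RS hRS1, t_H (p + 1) ((C + 1) ^ (p + 1)) (by positivity)] with
    T hz1 hz2 hmeso hT hH R' hR1 hR2 x hx y S hy hS N hN b
  obtain ⟨hT16, hLS, hL2, hsq, hST⟩ := hT
  have hT1 : 1 ≤ T := by linarith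
  have hT0 : 0 < T := by linarith
  have hL0 : 0 < Real.log T := by linarith
  have hRm : R ≤ RS := le_max_left _ _
  have hSm : S0 ≤ RS := le_max_right _ _
  have hN1 : (N : ℝ) ≤ T ^ θ₀ := hN.trans (Real.rpow_le_rpow_of_exponent_le hT1 (min_le_left _ _))
  have hNm : (N : ℝ) ≤ T ^ θm := hN.trans (Real.rpow_le_rpow_of_exponent_le hT1 (min_le_right _ _))
  have hN40 : (N : ℝ) ≤ T ^ (1 / 40 : ℝ) := hNm.trans (Real.rpow_le_rpow_of_exponent_le hT1 hθm1)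
  have hS1 : ∀ j, 1 ≤ S j := fun j => (hS j).1
  have hSL : ∀ j, S j / Real.log T ≤ 1 / 2 := fun j => by
    rw [div_le_iff₀ hL0]
    linarith [(hS j).2]
  have hRL : R' / Real.log T ≤ 1 / 2 := by
    rw [div_le_iff₀ hL0]
    linarith
  have hSL0 : ∀ j, 0 ≤ S j / Real.log T := fun j => by
    have := (hS j).1
    positivity
  have h1L : 1 / Real.log T ≤ 1 / 2 := by
    rw [div_le_iff₀ hL0]; linarith
  set c := cc T x R' y S with hcd
  set ρ := rr R' S with hρd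
  have hcc : ∀ i, |c i| ≤ T / 8 := fun i =>
    (cc_le (X := Real.sqrt T) (Y := 1 / 2) hx (by positivity) hRL hy hSL0 hSL i).trans (by linarith)
  have hrr : ∀ i, 1 ≤ ρ i ∧ ρ i ≤ T := fun i => ⟨rr_one hR1 hS1 i,
    rr_le (by linarith) (fun j => (hS j).2.trans (by linarith)) hT1 i⟩
  have hone := fun t => ZZ_one (T := T) (c := c) (fun i => (hrr i).1) t
  have hdl := fun t => DD_le (T := T) (x := x) (y := y) hR1 hR2 hS1 t
  set F : ℝ → ℝ := fun t => DD T x R' t * PM T y S t with hF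
  have hFm : Measurable F := (DD_meas T x R').mul (PM_meas T y S)
  have hF0 : ∀ t, 0 ≤ F t := fun t => mul_nonneg (DD_nonneg _ _ _ _) (PM_nonneg hS1 t)
  have hFM : ∀ t, T ≤ t → t ≤ 2 * T → F t ≤ R * (1 + ∑ _i : Ix p, (nz 0 (4 * T) : ℝ)) ^ (p + 1) := by
    intro t t1 t2
    have h1 := (hdl t).1
    have h2 : PM T y S t ≤ ZZ T c ρ t ^ p := PM_le_ZZ hR1 hS1 t
    have h3 := ZZ_bd (T := T) hT1 (by linarith) hcc hrr t1 t2
    have h4 := hone t
    calc F t ≤ (R * ZZ T c ρ t) * ZZ T c ρ t ^ p := mul_le_mul h1 h2 (PM_nonneg hS1 t) (by positivity)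
      _ = R * ZZ T c ρ t ^ (p + 1) := by rw [pow_succ]; ring
      _ ≤ _ := by
          apply mul_le_mul_of_nonneg_left _ (by linarith)
          exact pow_le_pow_left₀ (by linarith) h3 _
  -- the integral
  have hR0 : 0 < R := by linarith
  have hr34 : R ^ (1 / 4 : ℝ) * Real.sqrt R = R ^ (3 / 4 : ℝ) := by
    rw [Real.sqrt_eq_rpow, ← Real.rpow_add hR0]; norm_num
  have hr14 : R ^ (-(1 / 4) : ℝ) * R = R ^ (3 / 4 : ℝ) := by
    nth_rewrite 2 [← Real.rpow_one R]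
    rw [← Real.rpow_add hR0]; norm_num
  have hr1 : R ^ (1 / 4 : ℝ) ≤ R ^ (3 / 4 : ℝ) := Real.rpow_le_rpow_of_exponent_le hR (by norm_num)
  have hrr0 : R ^ (1 / 4 : ℝ) * R ^ (-(1 / 4) : ℝ) = 1 := by rw [← Real.rpow_add hR0]; norm_num
  have hmain : ∀ b' : ℕ → ℂ, ∫ t in T..(2 * T), ((nz t (1 / Real.log T) : ℝ) * F t) * ‖dp N b' t‖ ^ 2 ≤
      ((Cm + C₁ + C₂) * R ^ (3 / 4 : ℝ)) * T * N2 N b' := by
    intro b'
    have hVc : Continuous (fun t : ℝ => ‖dp N b' t‖ ^ 2) := V_cont hDPM N b'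
    have hW0 : 0 ≤ T * N2 N b' := mul_nonneg hT0.le (N2_nonneg N b')
    have e1 := hz1 c ρ hcc hrr N hN1 b'
    have e2 := hz2 c ρ hcc hrr N hN1 b'
    have e3 := hmeso R' hR1 hR2 x hx N hNm b'
    have i1 := ZZ_int hT1 (by linarith) hcc hrr 1 N b'
    have i2 := ZZ_int hT1 (by linarith) hcc hrr (2 * p + 3) N b'
    have i3 : IntervalIntegrable (fun t => |(nz (t + x) (R' / Real.log T) : ℝ) - R' / Real.pi| * ‖dp N b' t‖ ^ 2) volume T (2 * T) := by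
      refine gint (g := fun t => |(nz (t + x) (R' / Real.log T) : ℝ) - R' / Real.pi|) (M := (nz 0 (4 * T) : ℝ) + |R' / Real.pi|)
        ((((nz_meas _).comp (measurable_id.add_const x)).sub_const _).abs) (by linarith) (fun s => abs_nonneg _)
        (fun s s1 s2 => ?_) hVc (fun s => sq_nonneg _)
      refine (abs_sub _ _).trans ?_
      rw [abs_of_nonneg (Nat.cast_nonneg _)]
      have := nz_bd hT1 (hx.trans (by linarith)) (r := R' / Real.log T) (by linarith) s2 s1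
      linarith
    have hpt : ∀ t, (nz t (1 / Real.log T) : ℝ) * F t ≤
        R ^ (1 / 4 : ℝ) / 2 * (|(nz (t + x) (R' / Real.log T) : ℝ) - R' / Real.pi| + ZZ T c ρ t ^ 1) +
        R ^ (3 / 4 : ℝ) / 2 * ZZ T c ρ t ^ (2 * p + 3) := by
      intro t
      obtain ⟨d1, d2, d3⟩ := hdl t
      have h3 : zc T 0 1 t = nz t (1 / Real.log T) := by
        unfold zc
        rw [add_zero, div_one]
      rw [h3] at d2
      set D := DD T x R' t with hD
      set Y := (nz t (1 / Real.log T) : ℝ) * PM T y S t with hY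
      have hD0 : 0 ≤ D := DD_nonneg _ _ _ _
      have hY0 : 0 ≤ Y := mul_nonneg (Nat.cast_nonneg _) (PM_nonneg hS1 t)
      have h4 : (nz t (1 / Real.log T) : ℝ) * F t = D * Y := by rw [hF, hY]; simp only; ring
      rw [h4]
      have h5 : Y ≤ R ^ (1 / 4 : ℝ) / 2 + R ^ (-(1 / 4) : ℝ) / 2 * Y ^ 2 := by
        have h6 : 0 ≤ R ^ (-(1 / 4) : ℝ) * (Y - R ^ (1 / 4 : ℝ)) ^ 2 := by positivity
        have h7 : R ^ (-(1 / 4) : ℝ) * (Y - R ^ (1 / 4 : ℝ)) ^ 2 = R ^ (-(1 / 4) : ℝ) * Y ^ 2 - 2 * Y * (R ^ (1 / 4 : ℝ) * R ^ (-(1 / 4) : ℝ)) +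
            R ^ (1 / 4 : ℝ) * (R ^ (1 / 4 : ℝ) * R ^ (-(1 / 4) : ℝ)) := by ring
        rw [h7, hrr0] at h6
        linarith
      have h6 : D * Y ≤ D * (R ^ (1 / 4 : ℝ) / 2 + R ^ (-(1 / 4) : ℝ) / 2 * Y ^ 2) := mul_le_mul_of_nonneg_left h5 hD0
      have hzp := hone t
      have h7 : D * Y ^ 2 ≤ R * ZZ T c ρ t ^ (2 * p + 3) := by
        calc D * Y ^ 2 ≤ (R * ZZ T c ρ t) * (ZZ T c ρ t ^ (p + 1)) ^ 2 := by
              apply mul_le_mul d1 _ (by positivity) (by positivity)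
              exact pow_le_pow_left₀ hY0 d2 2
          _ = R * ZZ T c ρ t ^ (2 * p + 3) := by ring
      have h8 : D ≤ |(nz (t + x) (R' / Real.log T) : ℝ) - R' / Real.pi| + ZZ T c ρ t ^ 1 := by
        rw [pow_one, hD]
        unfold DD
        linarith
      calc D * Y ≤ D * (R ^ (1 / 4 : ℝ) / 2 + R ^ (-(1 / 4) : ℝ) / 2 * Y ^ 2) := h6
        _ = R ^ (1 / 4 : ℝ) / 2 * D + R ^ (-(1 / 4) : ℝ) / 2 * (D * Y ^ 2) := by ring
        _ ≤ R ^ (1 / 4 : ℝ) / 2 * (|(nz (t + x) (R' / Real.log T) : ℝ) - R' / Real.pi| + ZZ T c ρ t ^ 1) +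
            R ^ (-(1 / 4) : ℝ) / 2 * (R * ZZ T c ρ t ^ (2 * p + 3)) := by gcongr
        _ = _ := by rw [← hr14]; ring
    have iF : IntervalIntegrable (fun t => ((nz t (1 / Real.log T) : ℝ) * F t) * ‖dp N b' t‖ ^ 2) volume T (2 * T) := by
      refine gint (g := fun t => (nz t (1 / Real.log T) : ℝ) * F t) (M := (nz 0 (4 * T) : ℝ) *
        (R * (1 + ∑ _i : Ix p, (nz 0 (4 * T) : ℝ)) ^ (p + 1))) ((nz_meas _).mul hFm) (by linarith)
        (fun s => mul_nonneg (Nat.cast_nonneg _) (hF0 s)) (fun s s1 s2 => ?_) hVc (fun s => sq_nonneg _)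
      have h2 := nz_bd hT1 (c := 0) (r := 1 / Real.log T) (by rw [abs_zero]; positivity) (by linarith) s2 s1
      rw [add_zero] at h2
      exact mul_le_mul h2 (hFM s s1 s2) (hF0 s) (Nat.cast_nonneg _)
    calc ∫ t in T..(2 * T), ((nz t (1 / Real.log T) : ℝ) * F t) * ‖dp N b' t‖ ^ 2
        ≤ ∫ t in T..(2 * T), (R ^ (1 / 4 : ℝ) / 2 * (|(nz (t + x) (R' / Real.log T) : ℝ) - R' / Real.pi| * ‖dp N b' t‖ ^ 2 +
            ZZ T c ρ t ^ 1 * ‖dp N b' t‖ ^ 2) + R ^ (3 / 4 : ℝ) / 2 * (ZZ T c ρ t ^ (2 * p + 3) * ‖dp N b' t‖ ^ 2)) := by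
          refine intervalIntegral.integral_mono_on (by linarith) iF (((i3.add i1).const_mul _).add (i2.const_mul _)) fun t _ => ?_
          refine (mul_le_mul_of_nonneg_right (hpt t) (sq_nonneg _)).trans (le_of_eq ?_)
          ring
      _ = R ^ (1 / 4 : ℝ) / 2 * ((∫ t in T..(2 * T), |(nz (t + x) (R' / Real.log T) : ℝ) - R' / Real.pi| * ‖dp N b' t‖ ^ 2) +
            ∫ t in T..(2 * T), ZZ T c ρ t ^ 1 * ‖dp N b' t‖ ^ 2) +
          R ^ (3 / 4 : ℝ) / 2 * ∫ t in T..(2 * T), ZZ T c ρ t ^ (2 * p + 3) * ‖dp N b' t‖ ^ 2 := by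
          rw [intervalIntegral.integral_add ((i3.add i1).const_mul _) (i2.const_mul _), intervalIntegral.integral_const_mul,
            intervalIntegral.integral_const_mul, intervalIntegral.integral_add i3 i1]
      _ ≤ R ^ (1 / 4 : ℝ) / 2 * (Cm * Real.sqrt R * T * N2 N b' + C₁ * T * N2 N b') +
          R ^ (3 / 4 : ℝ) / 2 * (C₂ * T * N2 N b') := by gcongr
      _ = (Cm / 2 * (R ^ (1 / 4 : ℝ) * Real.sqrt R) + C₁ / 2 * R ^ (1 / 4 : ℝ) + C₂ / 2 * R ^ (3 / 4 : ℝ)) * (T * N2 N b') := by ring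
      _ ≤ ((Cm + C₁ + C₂) * R ^ (3 / 4 : ℝ)) * (T * N2 N b') := by
          apply mul_le_mul_of_nonneg_right _ hW0
          rw [hr34]
          have hp : 0 < R ^ (3 / 4 : ℝ) := by positivity
          have h9 := mul_le_mul_of_nonneg_left hr1 (by linarith : 0 ≤ C₁ / 2)
          nlinarith
      _ = _ := by ring
  have key := hH N hN40 (fun γ => |(nz (γ + x) (R' / Real.log T) : ℝ) - R' / Real.pi| * PW T y S γ) F hFm hF0 ⟨_, hFM⟩
    (fun γ => mul_nonneg (abs_nonneg _) (PW_nonneg hS1 γ))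
    (fun γ t hd => mul_le_mul (DD_shift hd) (PW_le_PM hS1 hd) (PW_nonneg hS1 γ) (DD_nonneg _ _ _ _)) (fun γ g1 g2 => ?_)
    ((Cm + C₁ + C₂) * R ^ (3 / 4 : ℝ)) (by positivity) hmain b
  · refine key.trans ?_
    have hW0 : 0 ≤ T * N2 N b := mul_nonneg hT0.le (N2_nonneg N b)
    have hp1 : 1 ≤ R ^ (3 / 4 : ℝ) := Real.one_le_rpow hR (by norm_num)
    calc (5 / 2 * ((Cm + C₁ + C₂) * R ^ (3 / 4 : ℝ)) * Real.log T + 1) * T * N2 N b
        = (5 / 2 * ((Cm + C₁ + C₂) * R ^ (3 / 4 : ℝ)) * Real.log T + 1) * (T * N2 N b) := by ring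
      _ ≤ ((5 / 2 * (Cm + C₁ + C₂) + 1) * R ^ (3 / 4 : ℝ) * Real.log T) * (T * N2 N b) := by
          apply mul_le_mul_of_nonneg_right _ hW0
          nlinarith
      _ = _ := by ring
  · have h1 : |(nz (γ + x) (R' / Real.log T) : ℝ) - R' / Real.pi| ≤ (C + 1) * Real.log T := by
      have h2 := zc_crude hC hcr hT16 g1 g2 (hx.trans (by linarith)) hR1 hRL
      have h0 : 0 ≤ R' / Real.pi := by
        have := Real.pi_pos
        positivity
      obtain ⟨x1, x2⟩ := abs_le.1 hx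
      have h3 := hcr T (γ + x) (R' / Real.log T) hT16 (by linarith) (by linarith) hRL
      refine (abs_sub_le' _ _ (Nat.cast_nonneg _) h0).trans ?_
      have h4 : R' / Real.pi ≤ Real.log T := by
        have := Real.pi_gt_three
        rw [div_le_iff₀ (by linarith)]
        nlinarith
      linarith
    have h2 : PW T y S γ ≤ ((C + 1) * Real.log T) ^ p := by
      unfold PW
      calc ∏ j, (1 + zc T (y j) (S j) γ) ≤ ∏ _j : Fin p, ((C + 1) * Real.log T) := by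
            refine Finset.prod_le_prod (fun j _ => ?_) (fun j _ => ?_)
            · have : 0 ≤ zc T (y j) (S j) γ := zc_nonneg (by linarith [hS1 j])
              linarith
            · have := zc_crude hC hcr hT16 g1 g2 ((hy j).trans (by linarith)) (hS1 j) (hSL j)
              linarith
        _ = _ := by
            rw [Finset.prod_const, Finset.card_univ, Fintype.card_fin]
    calc _ ≤ ((C + 1) * Real.log T) * ((C + 1) * Real.log T) ^ p := mul_le_mul h1 h2 (PW_nonneg hS1 γ) (by positivity)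
      _ = _ := by rw [← pow_succ', mul_pow]

end Pool.Agent.V8H36.KL
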