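import Pool.Agent.Q97.UM.Base3
import Pool.Agent.Q150.UM.LIN

set_option autoImplicit false

/-! The local explicit formula at frequency 0, in `L¹` against the square of any Dirichlet polynomial. -/

open Filter Topology MeasureTheory Complex
open scoped ComplexConjugate

namespace Pool.Agent.V8H36.KL

open Pool.Agent.Q97.UM
open Pool.Agent.Q150.UM (ev_short ev_log ev_loglin qb_of PL_cont Zt_cont dp_cont dp_ms I2_nonneg)

theorem t_lin1 : ∃ C₀ : ℝ, 1 ≤ C₀ ∧ ∀ (δ H C : ℝ) (K : ℕ) (w : ℝ → ℝ) (θ ε : ℝ), 0 < δ → δ ≤ 1 / 16 → 1 ≤ H → 1 ≤ C → 2 ≤ K →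
  OmW δ H C K w → 0 < θ → θ ≤ 1 / 40 → 0 < ε → ∀ᶠ T : ℝ in atTop, ∀ N : ℕ, (N : ℝ) ≤ T ^ θ → ∀ b : ℕ → ℂ,
    ∫ t in (T + 2 * Real.log T)..(2 * T - 2 * Real.log T), |(Zt w T 0 t).re - qh w 0| * ‖dp N b t‖ ^ 2 ≤
      (C₀ * Real.sqrt ((δ + Real.sqrt θ) * I2 w) + ε) * T * N2 N b := by
  have hQH := Pool.Agent.Q176.UM.t_QH
  have hQLF := Pool.Agent.Q247.UM.t_QLF
  have hEFL := b_EFL
  obtain ⟨C₁, hC₁, hMV⟩ := Pool.Agent.Q222.UM.t_MV2
  obtain ⟨C₂, hC₂, hPU⟩ := b_PU
  refine ⟨8 * C₂, by linarith, ?_⟩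
  intro δ H C K w θ ε hδ hδ1 hH hC hK hw hθ hθ1 hε
  obtain ⟨D, hD, hQB⟩ := qb_of hQH hQLF hδ (by linarith) hH hC hK hw
  obtain ⟨D', hD', hE⟩ := hEFL δ H C K w hδ (by linarith) hH hC hK hw
  have hP := hPU δ H C K w θ (ε ^ 2 / 32) hδ hδ1 hH hC hK hw hθ hθ1 (by positivity)
  filter_upwards [hE, hP, ev_log 1, ev_log (4 * (D + D') / ε), ev_loglin (1 / 8) (by norm_num), ev_short C₁ 1 θ (by linarith) one_pos hθ1,
    eventually_ge_atTop (1 : ℝ)] with T hE hP hL1 hL2 hL3 hSh hT1 N hN b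
  set L := Real.log T with hL
  have hL0 : 0 < L := by linarith
  have hQ := hQB L hL1
  set A := T + 2 * L with hA
  set B := 2 * T - 2 * L with hB
  have hAB : A ≤ B := by rw [hA, hB]; linarith
  set V : ℝ → ℝ := fun t => ‖dp N b t‖ ^ 2 with hV
  have hVc : Continuous V := by
    have := dp_cont N b
    fun_prop
  have hV0 : ∀ t, 0 ≤ V t := fun t => by positivity
  set P : ℝ → ℝ := fun t => ‖PL w L 0 t‖ with hPdef
  have hPc : Continuous P := (PL_cont hQ (by linarith) (by positivity) hL0 0).norm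
  have hN2 := N2_nonneg N b
  have hI2 := I2_nonneg w
  set c := (D + D') / L with hc
  have hcε : c ≤ ε / 4 := by
    rw [hc, div_le_iff₀ hL0]
    rw [div_le_iff₀ hε] at hL2
    linarith
  -- pointwise
  have h1 : ∀ t ∈ Set.Icc A B, |(Zt w T 0 t).re - qh w 0| ≤ 2 * P t + c := by
    intro t ht
    have h2 := hE 0 t le_rfl (by
      have : 0 ≤ (1 - 2 * δ) * L := mul_nonneg (by linarith) hL0.le
      exact this) ht.1 ht.2
    have e1 : cexp (-(I * ((0 : ℝ) : ℂ) * t)) = 1 := by simp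
    rw [e1, one_mul, neg_zero] at h2
    have h3 := (Complex.abs_re_le_norm _).trans h2
    have e2 : (Zt w T 0 t - ((QL w L 0 : ℂ) - PL w L 0 t - conj (PL w L 0 t))).re =
        (Zt w T 0 t).re - QL w L 0 + 2 * (PL w L 0 t).re := by
      simp only [Complex.sub_re, Complex.ofReal_re, Complex.conj_re]
      ring
    rw [e2] at h3
    have h4 := hQ.zero
    have h5 := Complex.abs_re_le_norm (PL w L 0 t)
    have e3 : (Zt w T 0 t).re - qh w 0 = ((Zt w T 0 t).re - QL w L 0 + 2 * (PL w L 0 t).re) + (QL w L 0 - qh w 0) -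
        2 * (PL w L 0 t).re := by ring
    have e4 : c = D' / L + D / L := by rw [hc]; ring
    rw [e3, e4]
    refine (abs_sub _ _).trans ?_
    have h6 := abs_add_le ((Zt w T 0 t).re - QL w L 0 + 2 * (PL w L 0 t).re) (QL w L 0 - qh w 0)
    have h7 : |2 * (PL w L 0 t).re| = 2 * |(PL w L 0 t).re| := by rw [abs_mul, abs_two]
    rw [h7]
    simp only [hPdef]
    linarith
  -- the integrals
  have hVi : IntervalIntegrable V volume A B := hVc.intervalIntegrable _ _
  have h2 : ∫ t in A..B, V t ≤ 2 * T * N2 N b := by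
    have h3 := dp_ms hMV A B hAB N b
    have h4 := (abs_le.1 h3).2
    have h5 := mul_le_mul_of_nonneg_right (hSh N hN) hN2
    have h6 : (B - A) * N2 N b ≤ T * N2 N b := mul_le_mul_of_nonneg_right (by rw [hA, hB]; linarith) hN2
    have h7 : ∫ t in A..B, V t = ∫ t in A..B, ‖dp N b t‖ ^ 2 := rfl
    rw [h7]
    linarith
  have h2' : 0 ≤ ∫ t in A..B, V t := intervalIntegral.integral_nonneg hAB fun t _ => hV0 t
  set s := (δ + Real.sqrt θ) * I2 w with hs
  have hs0 : 0 ≤ s := by positivity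
  set a := C₂ * s + ε ^ 2 / 32 with ha
  have ha0 : 0 < a := by positivity
  have h3 : ∫ t in A..B, P t ^ 2 * V t ≤ a * T * N2 N b := by
    have h4 := hP N hN b 0 A B (by linarith) (mul_nonneg (by linarith) hL0.le) (by rw [hA]; linarith) hAB
      (by rw [hB]; linarith)
    rw [max_self, zero_div, mul_zero, zero_mul, zero_mul, sub_zero] at h4
    have h5 := (abs_le.1 h4).2
    have e1 : (C₂ * (δ + Real.sqrt θ) * I2 w + ε ^ 2 / 32) = a := by rw [ha, hs]; ring
    rw [e1] at h5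
    exact h5
  set lam := Real.sqrt (2 / a) with hlam
  have hlam0 : 0 < lam := Real.sqrt_pos.2 (by positivity)
  have h4 : ∀ t ∈ Set.Icc A B, |(Zt w T 0 t).re - qh w 0| * V t ≤ lam * (P t ^ 2 * V t) + (1 / lam + c) * V t := by
    intro t ht
    have h5 := h1 t ht
    have h6 : 2 * P t ≤ lam * P t ^ 2 + 1 / lam := by
      have h7 : 0 ≤ (lam * P t - 1) ^ 2 / lam := by positivity
      have h8 : (lam * P t - 1) ^ 2 / lam = lam * P t ^ 2 - 2 * P t + 1 / lam := by
        field_simp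
        ring
      linarith
    have h7 := mul_le_mul_of_nonneg_right (h5.trans (add_le_add_left h6 c)) (hV0 t)
    calc _ ≤ _ := h7
      _ = _ := by ring
  have hZc : Continuous fun t => (Zt w T 0 t).re := Complex.continuous_re.comp (Zt_cont hw T 0)
  have h5 : ∫ t in A..B, |(Zt w T 0 t).re - qh w 0| * V t ≤ ∫ t in A..B, (lam * (P t ^ 2 * V t) + (1 / lam + c) * V t) := by
    refine intervalIntegral.integral_mono_on hAB ?_ ?_ fun t ht => ?_
    · exact Continuous.intervalIntegrable (by fun_prop) _ _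
    · exact Continuous.intervalIntegrable (by fun_prop) _ _
    · exact h4 t ht
  have h6 : ∫ t in A..B, (lam * (P t ^ 2 * V t) + (1 / lam + c) * V t) =
      lam * (∫ t in A..B, P t ^ 2 * V t) + (1 / lam + c) * ∫ t in A..B, V t := by
    rw [intervalIntegral.integral_add, intervalIntegral.integral_const_mul, intervalIntegral.integral_const_mul]
    · exact Continuous.intervalIntegrable (by fun_prop) _ _
    · exact Continuous.intervalIntegrable (by fun_prop) _ _
  rw [h6] at h5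
  have hc0 : 0 ≤ c := by positivity
  have hTN : 0 ≤ T * N2 N b := by positivity
  have h7 : lam * (∫ t in A..B, P t ^ 2 * V t) + (1 / lam + c) * ∫ t in A..B, V t ≤
      (lam * a + 2 / lam + 2 * c) * (T * N2 N b) := by
    have h8 := mul_le_mul_of_nonneg_left h3 hlam0.le
    have h9 := mul_le_mul_of_nonneg_left h2 (show 0 ≤ 1 / lam + c by positivity)
    calc _ ≤ lam * (a * T * N2 N b) + (1 / lam + c) * (2 * T * N2 N b) := add_le_add h8 h9
      _ = _ := by ring
  have h8 : lam * a + 2 / lam ≤ 8 * C₂ * Real.sqrt s + ε / 2 := by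
    have e1 : lam * lam = 2 / a := Real.mul_self_sqrt (by positivity)
    have e2 : lam * a = 2 / lam := by
      rw [eq_div_iff hlam0.ne']
      have : lam * a * lam = (lam * lam) * a := by ring
      rw [this, e1]
      field_simp
    have e3 : lam * a + 2 / lam = Real.sqrt (8 * a) := by
      symm
      rw [Real.sqrt_eq_iff_mul_self_eq (by positivity) (by positivity), ← e2]
      have : (lam * a + lam * a) * (lam * a + lam * a) = 4 * ((lam * lam) * a * a) := by ring
      rw [this, e1]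
      field_simp
      ring
    rw [e3]
    have e4 : 8 * a = 8 * C₂ * s + (ε / 2) ^ 2 := by rw [ha]; ring
    rw [e4]
    have e5 : Real.sqrt (8 * C₂ * s) ≤ 8 * C₂ * Real.sqrt s := by
      rw [Real.sqrt_mul (by positivity)]
      refine mul_le_mul_of_nonneg_right ?_ (Real.sqrt_nonneg _)
      rw [Real.sqrt_le_left (by positivity)]
      nlinarith
    have e6 : Real.sqrt (8 * C₂ * s + (ε / 2) ^ 2) ≤ Real.sqrt (8 * C₂ * s) + ε / 2 := by
      rw [Real.sqrt_le_left (by positivity)]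
      have := Real.sq_sqrt (show 0 ≤ 8 * C₂ * s by positivity)
      nlinarith [Real.sqrt_nonneg (8 * C₂ * s), mul_nonneg (Real.sqrt_nonneg (8 * C₂ * s)) hε.le]
    linarith
  calc ∫ t in A..B, |(Zt w T 0 t).re - qh w 0| * V t ≤ _ := h5
    _ ≤ (lam * a + 2 / lam + 2 * c) * (T * N2 N b) := h7
    _ ≤ (8 * C₂ * Real.sqrt s + ε) * (T * N2 N b) := mul_le_mul_of_nonneg_right (by linarith) hTN
    _ = _ := by ring

end Pool.Agent.V8H36.KL
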