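import Pool.Agent.Q97.UM.Base3

set_option autoImplicit false

/-! Moments of the number of zeros in windows against the square of any Dirichlet polynomial. -/

open Filter Topology MeasureTheory Set

namespace Pool.Agent.V8H36.KL

open Pool.Agent.Q97.UM
open Pool.Agent.Q210.UM (gint V_cont nz_mono Zw_sub nz_cover set_int comb off_bd)

theorem hZ2 : S_ZF2 := Pool.Agent.Q178.UM.ZF2.t_ZF2
theorem hDPM : S_DPM := Pool.Agent.Q84.UM.t_DPM

/-- the sum of the layer cake formula -/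
noncomputable def SS (p : ℕ) (c : ℝ) : ℝ := ∑' K : ℕ, ((K : ℝ) + 1) ^ p * Real.exp (-(c * K))

theorem SS_summable (p : ℕ) {c : ℝ} (hc : 0 < c) : Summable fun K : ℕ => ((K : ℝ) + 1) ^ p * Real.exp (-(c * K)) := by
  have h1 := Real.summable_pow_mul_exp_neg_nat_mul p hc
  have h2 := ((summable_nat_add_iff 1).2 h1).mul_left (Real.exp c)
  refine h2.congr fun K => ?_
  push_cast
  rw [mul_left_comm, ← Real.exp_add]
  congr 2
  ring

theorem SS_nonneg (p : ℕ) (c : ℝ) : 0 ≤ SS p c := tsum_nonneg fun K => by positivity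

theorem nz_meas (r : ℝ) : Measurable (fun t => (nz t r : ℝ)) := by
  refine measurable_from_nat.comp (measurable_of_Ici fun k => ?_)
  exact hZ2.2.1 r k

/-- layer cake for powers -/
lemma cakep (p : ℕ) {r T' : ℝ} (hT' : 0 < T') {C c : ℝ} (hC : 0 ≤ C) (hc : 0 < c) {V : ℝ → ℝ} (hV : Continuous V)
    (hV0 : ∀ s, 0 ≤ V s) {Nb : ℝ} (hNb : 0 ≤ Nb) (K₀ : ℕ) (hK₀ : ∀ s, T' ≤ s → s ≤ 2 * T' → nz s r ≤ K₀)
    (h : ∀ K : ℕ, ∫ t in {t : ℝ | T' ≤ t ∧ t ≤ 2 * T' ∧ K ≤ nz t r}, V t ≤ C * Real.exp (-(c * K)) * T' * Nb) :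
    ∫ t in T'..(2 * T'), ((nz t r : ℝ) + 1) ^ p * V t ≤ C * SS p c * T' * Nb := by
  classical
  have hm : ∀ K : ℕ, MeasurableSet {t : ℝ | K ≤ nz t r} := hZ2.2.1 r
  have hi : ∀ K ∈ Finset.range (K₀ + 1), IntervalIntegrable
      (fun t => ((K : ℝ) + 1) ^ p * (({t : ℝ | K ≤ nz t r}).indicator (1 : ℝ → ℝ) t * V t)) volume T' (2 * T') := by
    intro K _
    refine IntervalIntegrable.const_mul ?_ _
    refine gint (M := 1) (measurable_one.indicator (hm K)) (by linarith) (fun s => indicator_nonneg (fun _ _ => zero_le_one) s)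
      (fun s _ _ => indicator_le_self' (fun _ _ => zero_le_one) s) hV hV0
  have hi' : IntervalIntegrable (fun t => ∑ K ∈ Finset.range (K₀ + 1), ((K : ℝ) + 1) ^ p *
      (({t : ℝ | K ≤ nz t r}).indicator (1 : ℝ → ℝ) t * V t)) volume T' (2 * T') := by
    have := IntervalIntegrable.sum (Finset.range (K₀ + 1)) hi
    refine this.congr fun s _ => ?_
    simp [Finset.sum_apply]
  have hm2 : Measurable (fun t => ((nz t r : ℝ) + 1) ^ p) := ((nz_meas r).add_const 1).pow_const p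
  have h1 : ∫ t in T'..(2 * T'), ((nz t r : ℝ) + 1) ^ p * V t ≤ ∫ t in T'..(2 * T'),
      ∑ K ∈ Finset.range (K₀ + 1), ((K : ℝ) + 1) ^ p * (({t : ℝ | K ≤ nz t r}).indicator (1 : ℝ → ℝ) t * V t) := by
    refine intervalIntegral.integral_mono_on (by linarith) ?_ hi' fun t ht => ?_
    · refine gint hm2 (by linarith) (fun s => by positivity) (M := ((K₀ : ℝ) + 1) ^ p) (fun s h1 h2 => ?_) hV hV0
      have h3 : (nz s r : ℝ) ≤ K₀ := by exact_mod_cast hK₀ s h1 h2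
      gcongr
    · have h3 := hK₀ t ht.1 ht.2
      have h4 := Finset.single_le_sum (f := fun K : ℕ => ((K : ℝ) + 1) ^ p *
        (({t : ℝ | K ≤ nz t r}).indicator (1 : ℝ → ℝ) t * V t)) (s := Finset.range (K₀ + 1)) (fun i _ => by
          have := indicator_nonneg (s := {t : ℝ | i ≤ nz t r}) (f := (1 : ℝ → ℝ)) (fun _ _ => zero_le_one) t
          have := hV0 t
          positivity) (Finset.mem_range.2 (Nat.lt_succ_of_le h3))
      refine le_trans (le_of_eq ?_) h4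
      have h5 : t ∈ {s : ℝ | nz t r ≤ nz s r} := le_refl (nz t r)
      rw [indicator_of_mem h5]
      simp
  rw [intervalIntegral.integral_finsetSum hi] at h1
  have h5 : ∀ K ∈ Finset.range (K₀ + 1), ∫ t in T'..(2 * T'), ((K : ℝ) + 1) ^ p *
      (({t : ℝ | K ≤ nz t r}).indicator (1 : ℝ → ℝ) t * V t) ≤
      C * T' * Nb * (((K : ℝ) + 1) ^ p * Real.exp (-(c * K))) := by
    intro K _
    have := h K
    rw [intervalIntegral.integral_const_mul, ← set_int hT'.le (hm K) V]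
    calc _ ≤ ((K : ℝ) + 1) ^ p * (C * Real.exp (-(c * K)) * T' * Nb) := mul_le_mul_of_nonneg_left this (by positivity)
      _ = _ := by ring
  refine h1.trans ((Finset.sum_le_sum h5).trans ?_)
  rw [← Finset.mul_sum]
  have h6 : ∑ K ∈ Finset.range (K₀ + 1), ((K : ℝ) + 1) ^ p * Real.exp (-(c * K)) ≤ SS p c :=
    (SS_summable p hc).sum_le_tsum _ (fun i _ => by positivity)
  calc C * T' * Nb * (∑ K ∈ Finset.range (K₀ + 1), ((K : ℝ) + 1) ^ p * Real.exp (-(c * K))) ≤ C * T' * Nb * SS p c :=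
        mul_le_mul_of_nonneg_left h6 (by positivity)
    _ = _ := by ring

theorem mom_of {θ c C : ℝ} (hθ0 : 0 < θ) (hc : 0 < c) (hC : 0 ≤ C) (hTB : TailB θ c C) (p : ℕ) :
    ∃ C₂ : ℝ, 1 ≤ C₂ ∧ ∀ᶠ T : ℝ in atTop, ∀ R : ℝ, 1 ≤ R → R ≤ T → ∀ x : ℝ, |x| ≤ T / 8 →
    ∀ N : ℕ, (N : ℝ) ≤ T ^ (θ / 2) → ∀ b : ℕ → ℂ,
      ∫ t in T..(2 * T), ((nz (t + x) (R / Real.log T) : ℝ) + 1) ^ (p + 1) * ‖dp N b t‖ ^ 2 ≤
        C₂ * R ^ (p + 1) * T * N2 N b := by
  unfold TailB at hTB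
  have hS0 := SS_nonneg (p + 1) c
  refine ⟨max 1 (6 * 4 ^ (p + 1) * (C * SS (p + 1) c)), le_max_left _ _, ?_⟩
  have hT1 := (tendsto_id.atTop_div_const (two_pos : (0 : ℝ) < 2)).eventually hTB
  have hT2 := (tendsto_id.const_mul_atTop (two_pos : (0 : ℝ) < 2)).eventually hTB
  filter_upwards [hT1, hTB, hT2, eventually_ge_atTop (Real.exp 5)] with T h1 h2 h3 hT R hR hRT x hx N hN b
  simp only [id] at h1 h3
  have hT6 : (6 : ℝ) ≤ T := by
    have := Real.add_one_le_exp (5 : ℝ)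
    linarith
  have hT0 : 0 < T := by linarith
  have hL : 5 ≤ Real.log T := by
    rw [Real.le_log_iff_exp_le hT0]
    exact hT
  have hlog2 : Real.log 2 ≤ 1 := by
    have := Real.log_two_lt_d9
    linarith
  have hlog2p : 0 < Real.log 2 := Real.log_pos one_lt_two
  have el1 : Real.log (T / 2) = Real.log T - Real.log 2 := Real.log_div hT0.ne' two_ne_zero
  have el2 : Real.log (2 * T) = Real.log 2 + Real.log T := Real.log_mul two_ne_zero hT0.ne'
  have el3 : Real.log (4 * T) = 2 * Real.log 2 + Real.log T := by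
    rw [Real.log_mul four_ne_zero hT0.ne', show (4 : ℝ) = 2 ^ 2 by norm_num, Real.log_pow]
    push_cast
    ring
  set r : ℝ := 1 / Real.log (4 * T) with hr
  set w : ℝ := R / Real.log T with hw
  have hL4 : 4 ≤ Real.log (4 * T) := by linarith
  have hr0 : 0 < r := by positivity
  have hw0 : 0 ≤ w := by positivity
  have hrq : r ≤ 1 / 4 := by
    rw [hr]
    exact one_div_le_one_div_of_le (by norm_num) hL4
  have hwT : w ≤ T / 5 := by
    rw [hw]
    calc R / Real.log T ≤ T / Real.log T := by gcongr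
      _ ≤ T / 5 := by gcongr
  -- the three scales
  have key : ∀ T' : ℝ, (T' = T / 2 ∨ T' = T ∨ T' = 2 * T) → 0 < T' ∧ T' ≤ 2 * T ∧ T / 2 ≤ T' ∧ Real.log T / 2 ≤ Real.log T' ∧
      Real.log T' ≤ Real.log (4 * T) ∧ (N : ℝ) ≤ T' ^ θ ∧ ∀ b : ℕ → ℂ,
      (∀ K : ℕ, ∫ t in {t : ℝ | T' ≤ t ∧ t ≤ 2 * T' ∧ K ≤ nz t (1 / Real.log T')}, ‖dp N b t‖ ^ 2 ≤
        C * Real.exp (-(c * K)) * T' * N2 N b) := by
    intro T' hT'
    have k1 : 0 < T' ∧ T' ≤ 2 * T ∧ T / 2 ≤ T' ∧ Real.log T / 2 ≤ Real.log T' ∧ Real.log T' ≤ Real.log (4 * T) := by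
      rcases hT' with h | h | h
      · rw [h, el1, el3]
        exact ⟨by linarith, by linarith, by linarith, by linarith, by linarith⟩
      · rw [h, el3]
        exact ⟨by linarith, by linarith, by linarith, by linarith, by linarith⟩
      · rw [h, el2, el3]
        exact ⟨by linarith, by linarith, by linarith, by linarith, by linarith⟩
    obtain ⟨k2, k3, k4, k5, k6⟩ := k1
    have k7 : (N : ℝ) ≤ T' ^ θ := by
      refine hN.trans ?_
      rw [Real.rpow_def_of_pos hT0, Real.rpow_def_of_pos k2]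
      refine Real.exp_le_exp.2 ?_
      nlinarith
    refine ⟨k2, k3, k4, k5, k6, k7, ?_⟩
    rcases hT' with h | h | h
    · rw [h] at k7 ⊢
      exact fun b => (h1 N k7 b).2
    · rw [h] at k7 ⊢
      exact fun b => (h2 N k7 b).2
    · rw [h] at k7 ⊢
      exact fun b => (h3 N k7 b).2
  set n : ℕ := ⌈w / r⌉₊ + 1 with hn'
  have hn : (n : ℝ) ≤ 4 * R := by
    have h5 : (⌈w / r⌉₊ : ℝ) < w / r + 1 := Nat.ceil_lt_add_one (by positivity)
    have h6 : w / r ≤ 2 * R := by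
      rw [hw, hr, div_div_eq_mul_div, div_one, div_mul_eq_mul_div, div_le_iff₀ (by linarith), el3]
      nlinarith
    rw [hn']
    push_cast
    linarith
  have hn1 : (1 : ℝ) ≤ n := by
    rw [hn']
    push_cast
    have : (0 : ℝ) ≤ ⌈w / r⌉₊ := Nat.cast_nonneg _
    linarith
  have hxj : ∀ j ∈ Finset.range n, |x + (-w + r + 2 * r * j : ℝ)| ≤ T / 2 := by
    intro j hj
    have h5 := off_bd hr0 hw0 hj
    have h6 := abs_add_le x (-w + r + 2 * r * j : ℝ)
    linarith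
  have hV : ∀ b : ℕ → ℂ, Continuous fun t : ℝ => ‖dp N b t‖ ^ 2 := fun b => V_cont hDPM N b
  have hNb : ∀ b : ℕ → ℂ, 0 ≤ N2 N b := fun b => N2_nonneg N b
  have hrT : ∀ T' : ℝ, (T' = T / 2 ∨ T' = T ∨ T' = 2 * T) → r ≤ 1 / Real.log T' := by
    intro T' hT'
    obtain ⟨k2, k3, k4, k5, k6, k7, k8⟩ := key T' hT'
    exact one_div_le_one_div_of_le (by linarith) k6
  set g : ℝ → ℝ := fun s => (n : ℝ) ^ p * ((nz s r : ℝ) + 1) ^ (p + 1) with hg
  have hgm : Measurable g := (((nz_meas r).add_const 1).pow_const (p + 1)).const_mul _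
  have hg0 : ∀ s, 0 ≤ g s := fun s => by rw [hg]; positivity
  set D : ℝ := C * SS (p + 1) c with hD'
  have hD0 : 0 ≤ D := by positivity
  have h5 : ∀ T' : ℝ, (T' = T / 2 ∨ T' = T ∨ T' = 2 * T) → ∀ b : ℕ → ℂ,
      ∫ s in T'..(2 * T'), g s * ‖dp N b s‖ ^ 2 ≤ 2 * ((n : ℝ) ^ p * D) * T * N2 N b := by
    intro T' hT' b
    obtain ⟨k2, k3, k4, k5, k6, k7, k8⟩ := key T' hT'
    have h6 := cakep (p + 1) (r := r) k2 (C := C) (c := c) hC hc (hV b) (fun s => sq_nonneg _) (hNb b) (nz 0 (4 * T + r))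
      (fun s s1 s2 => nz_mono hZ2 (Zw_sub (by rw [sub_zero, abs_of_nonneg (by linarith)]; linarith))) ?_
    · have e1 : ∫ s in T'..(2 * T'), g s * ‖dp N b s‖ ^ 2 =
          (n : ℝ) ^ p * ∫ s in T'..(2 * T'), ((nz s r : ℝ) + 1) ^ (p + 1) * ‖dp N b s‖ ^ 2 := by
        rw [← intervalIntegral.integral_const_mul]
        refine intervalIntegral.integral_congr fun s _ => ?_
        simp only [hg]
        ring
      rw [e1]
      have := hNb b
      calc (n : ℝ) ^ p * ∫ s in T'..(2 * T'), ((nz s r : ℝ) + 1) ^ (p + 1) * ‖dp N b s‖ ^ 2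
          ≤ (n : ℝ) ^ p * (C * SS (p + 1) c * T' * N2 N b) := mul_le_mul_of_nonneg_left h6 (by positivity)
        _ ≤ (n : ℝ) ^ p * (C * SS (p + 1) c * (2 * T) * N2 N b) := by gcongr
        _ = _ := by rw [hD']; ring
    · intro K
      refine le_trans ?_ (k8 b K)
      have h7 : {t : ℝ | T' ≤ t ∧ t ≤ 2 * T' ∧ K ≤ nz t r} ⊆ {t : ℝ | T' ≤ t ∧ t ≤ 2 * T' ∧ K ≤ nz t (1 / Real.log T')} := by
        rintro t ⟨t1, t2, t3⟩
        exact ⟨t1, t2, t3.trans (nz_mono hZ2 (Zw_sub (by simpa using hrT T' hT')))⟩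
      exact setIntegral_mono_set (((hV b).integrableOn_Icc).mono_set (fun t ht => ⟨ht.1, ht.2.1⟩))
        (Eventually.of_forall fun t => sq_nonneg _) (LE.le.eventuallyLE h7)
  have h11 : ∀ t, T ≤ t → t ≤ 2 * T → ((nz (t + x) w : ℝ) + 1) ^ (p + 1) ≤
      ∑ j ∈ Finset.range n, g (t + (x + (-w + r + 2 * r * j))) := by
    intro t _ _
    have h12 : (nz (t + x) w : ℝ) ≤ ∑ j ∈ Finset.range n, (nz (t + x + (-w + r + 2 * r * j)) r : ℝ) := by
      exact_mod_cast nz_cover hZ2 (t := t + x) hr0 hw0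
    have h13 : (nz (t + x) w : ℝ) + 1 ≤ ∑ j ∈ Finset.range n, ((nz (t + x + (-w + r + 2 * r * j)) r : ℝ) + 1) := by
      rw [Finset.sum_add_distrib]
      simp only [Finset.sum_const, Finset.card_range, nsmul_eq_mul, mul_one]
      linarith
    have h14 := pow_sum_div_card_le_sum_pow (s := Finset.range n)
      (f := fun j : ℕ => ((nz (t + x + (-w + r + 2 * r * j)) r : ℝ) + 1)) (fun j _ => by positivity) p
    rw [Finset.card_range, div_le_iff₀ (by positivity)] at h14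
    calc ((nz (t + x) w : ℝ) + 1) ^ (p + 1) ≤ (∑ j ∈ Finset.range n, ((nz (t + x + (-w + r + 2 * r * j)) r : ℝ) + 1)) ^ (p + 1) := by
          gcongr
      _ ≤ _ := h14
      _ = ∑ j ∈ Finset.range n, g (t + (x + (-w + r + 2 * r * j))) := by
          rw [Finset.sum_mul]
          refine Finset.sum_congr rfl fun j _ => ?_
          simp only [hg]
          rw [← add_assoc t x]
          ring
  have h13 := comb hDPM hT0 hgm hg0 (M := (n : ℝ) ^ p * ((nz 0 (4 * T + r) : ℝ) + 1) ^ (p + 1))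
    (fun s s1 s2 => by
      have := nz_mono hZ2 (Zw_sub (t := s) (r := r) (t' := 0) (r' := 4 * T + r)
        (by rw [sub_zero, abs_of_nonneg (by linarith)]; linarith))
      have h15 : (nz s r : ℝ) ≤ nz 0 (4 * T + r) := by exact_mod_cast this
      rw [hg]
      simp only
      gcongr) N h5 b hxj
    ((((nz_meas w).comp (measurable_id.add_const x)).add_const 1).pow_const (p + 1)) (fun s => by
      simp only [Function.comp]
      positivity) h11
  simp only [Function.comp, id] at h13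
  refine h13.trans ?_
  have := hNb b
  have hR0 : 0 < R := by linarith
  calc (n : ℝ) * (3 * (2 * ((n : ℝ) ^ p * D) * T) * N2 N b) = 6 * (n : ℝ) ^ (p + 1) * D * T * N2 N b := by ring
    _ ≤ 6 * (4 * R) ^ (p + 1) * D * T * N2 N b := by gcongr
    _ = (6 * 4 ^ (p + 1) * (C * SS (p + 1) c)) * R ^ (p + 1) * T * N2 N b := by rw [mul_pow, hD']; ring
    _ ≤ _ := by
        gcongr
        exact le_max_right _ _

/-- **moments**: windows of length `R / log T` at distance up to `T / 8` -/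
theorem t_mom : ∃ θ : ℝ, 0 < θ ∧ θ ≤ 1 / 8 ∧ ∀ p : ℕ, ∃ C₂ : ℝ, 1 ≤ C₂ ∧ ∀ᶠ T : ℝ in atTop, ∀ R : ℝ, 1 ≤ R → R ≤ T →
    ∀ x : ℝ, |x| ≤ T / 8 → ∀ N : ℕ, (N : ℝ) ≤ T ^ θ → ∀ b : ℕ → ℂ,
      ∫ t in T..(2 * T), ((nz (t + x) (R / Real.log T) : ℝ) + 1) ^ (p + 1) * ‖dp N b t‖ ^ 2 ≤
        C₂ * R ^ (p + 1) * T * N2 N b := by
  obtain ⟨θ, c, C, h1, h2, h3, h4, h5⟩ := b_TAIL
  exact ⟨θ / 2, by positivity, by linarith, fun p => mom_of h1 h3 h4 h5 p⟩

end Pool.Agent.V8H36.KL
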