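import Pool.Agent.V8H36.KL.Lin1
import Pool.Agent.V8H36.KL.Mom

set_option autoImplicit false

/-! The number of zeros in long windows, in `L¹` against the square of any Dirichlet polynomial. -/

open Filter Topology MeasureTheory Complex
open scoped ComplexConjugate

namespace Pool.Agent.V8H36.KL

open Pool.Agent.Q97.UM
open Pool.Agent.Q210.UM (gint V_cont nz_mono Zw_sub nz_eq)

theorem nw_eq {T r t : ℝ} (hT : 1 ≤ T) (h1 : T + 1 < t - r) (h2 : t + r ≤ 2 * T - 1) : Nw T r t = nz t r := by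
  classical
  rw [nz_eq hZ2]
  unfold Nw mz
  push_cast
  apply Finset.sum_congr _ (fun _ _ => rfl)
  ext s
  rw [Finset.mem_filter, Set.Finite.mem_toFinset]
  unfold ZT
  rw [H370.mem_Zf H370.good_zeta (by linarith : 1 ≤ T + 1)]
  constructor
  · rintro ⟨⟨a, b, c, d, e⟩, f⟩
    exact ⟨e, a, b, f⟩
  · rintro ⟨a, b, c, d⟩
    have := abs_le.1 d
    exact ⟨⟨b, c, by linarith [this.1], by linarith [this.2], a⟩, d⟩

/-- the inner part of the interval -/
theorem meso_nw : ∃ C θ : ℝ, 1 ≤ C ∧ 0 < θ ∧ θ ≤ 1 / 40 ∧ ∀ H : ℝ, 1 ≤ H → ∀ᶠ T : ℝ in atTop, ∀ N : ℕ, (N : ℝ) ≤ T ^ θ →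
    ∀ b : ℕ → ℂ, ∫ t in (T + 2 * Real.log T)..(2 * T - 2 * Real.log T), |Nw T (H / Real.log T) t - H / Real.pi| *
      ‖dp N b t‖ ^ 2 ≤ C * Real.sqrt H * T * N2 N b := by
  obtain ⟨lam, g, R, hl0, hl1, hg, hR, hK, hcR⟩ := Pool.Agent.Q222.UM.t_MTW 1 one_pos
  obtain ⟨C₀, hC₀, hLI⟩ := t_lin1
  obtain ⟨C₁, hC₁, hMV⟩ := Pool.Agent.Q222.UM.t_MV2
  obtain ⟨ϑ, c₀, C', hϑ0, hϑ1, hc₀, hC', hTB⟩ := b_TAIL
  obtain ⟨C₂, hC₂, hEDB⟩ := b_ED ϑ c₀ C' hϑ0 hϑ1 hc₀ hC' hTB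
  obtain ⟨c, hc⟩ : ∃ c, c = min (c₀ / 4) 1 := ⟨_, rfl⟩
  have hc0 : 0 < c := by rw [hc]; positivity
  have hEDB' : EDB (ϑ / 2) c C₂ := EDB_mono hC₂ (by rw [hc]; exact min_le_left _ _) hEDB
  obtain ⟨K₀, hER⟩ := b_ERR (ϑ / 2) c C₂ (by positivity) (by linarith) hc0 (by rw [hc]; exact min_le_right _ _) hC₂ hEDB'
  obtain ⟨K, hKd⟩ : ∃ K, K = max K₀ 2 := ⟨_, rfl⟩
  have hK2 : 2 ≤ K := by rw [hKd]; exact le_max_right _ _
  have hKK : K₀ ≤ K := by rw [hKd]; exact le_max_left _ _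
  obtain ⟨δ, hδ⟩ : ∃ δ, δ = min (c / 100) (1 / 16) := ⟨_, rfl⟩
  have hδ0 : 0 < δ := by rw [hδ]; positivity
  have hδ1 : δ ≤ c / 100 := by rw [hδ]; exact min_le_left _ _
  have hδ2 : δ ≤ 1 / 16 := by rw [hδ]; exact min_le_right _ _
  obtain ⟨C₄, hC₄, hER⟩ := hER K hKK δ hδ0 hδ1
  obtain ⟨Cw, hCw, hOM⟩ := Pool.Agent.Q247.UM.t_OMEX K δ hδ0 (by linarith)
  obtain ⟨θ, hθ⟩ : ∃ θ, θ = min (ϑ / 2) (1 / 40) := ⟨_, rfl⟩
  have hθ0 : 0 < θ := by rw [hθ]; positivity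
  have hθ1 : θ ≤ ϑ / 2 := by rw [hθ]; exact min_le_left _ _
  have hθ2 : θ ≤ 1 / 40 := by rw [hθ]; exact min_le_right _ _
  have hpi := Real.pi_pos
  refine ⟨100 * Cw ^ 2 * C₄ + (C₀ * (1 + 2 * Cw ^ 4) + 1) + 4 * Cw ^ 2, θ, ?_, hθ0, hθ2, fun H hH1 => ?_⟩
  · have : 0 ≤ 100 * Cw ^ 2 * C₄ := by positivity
    have : 0 ≤ C₀ * (1 + 2 * Cw ^ 4) := by positivity
    have : 0 ≤ 4 * Cw ^ 2 := by positivity
    linarith
  obtain ⟨w, hw⟩ := hOM H hH1
  obtain ⟨-, -, -, -, hq0, hI2⟩ := Pool.Agent.Q176.UM.t_QH δ H Cw K w hδ0 (by linarith) hH1 hCw hK2 hw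
  obtain ⟨h, hh⟩ : ∃ h, h = H / Real.pi := ⟨_, rfl⟩
  have hhH : H = h * Real.pi := by rw [hh]; field_simp
  have hh0 : 0 < h := by rw [hh]; positivity
  have hhle : h ≤ H := by
    rw [hh, div_le_iff₀ hpi]
    have := Real.pi_gt_three
    nlinarith
  have hq0' : |qh w 0 - h| ≤ 4 * Cw ^ 2 / 3 := by
    have e1 : Real.pi * qh w 0 - H = Real.pi * (qh w 0 - h) := by rw [hhH]; ring
    rw [e1, abs_mul, abs_of_pos hpi] at hq0
    have := Real.pi_gt_three
    have h2 := abs_nonneg (qh w 0 - h)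
    nlinarith
  have hI2' : |I2 w - h| ≤ 4 * Cw ^ 4 / 3 := by
    have e1 : Real.pi * I2 w - H = Real.pi * (I2 w - h) := by rw [hhH]; ring
    rw [e1, abs_mul, abs_of_pos hpi] at hI2
    have := Real.pi_gt_three
    have h2 := abs_nonneg (I2 w - h)
    nlinarith
  have hsH : 1 ≤ Real.sqrt H := by rw [← Real.sqrt_one]; exact Real.sqrt_le_sqrt hH1
  have hI0 := Pool.Agent.Q150.UM.I2_nonneg w
  have hsq : Real.sqrt ((δ + Real.sqrt θ) * I2 w) ≤ (1 + 2 * Cw ^ 4) * Real.sqrt H := by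
    rw [Real.sqrt_le_left (by positivity), mul_pow, Real.sq_sqrt (by linarith)]
    have h1 : δ + Real.sqrt θ ≤ 1 := by
      have : Real.sqrt θ ≤ 1 / 2 := by
        rw [Real.sqrt_le_left (by norm_num)]
        linarith
      linarith
    have h2 : I2 w ≤ H + 2 * Cw ^ 4 := by
      have := (abs_le.1 hI2').2
      have h3 : 0 ≤ Cw ^ 4 := by positivity
      linarith
    have h3 : (0 : ℝ) ≤ Cw ^ 4 := by positivity
    have h4 : 0 ≤ δ + Real.sqrt θ := by positivity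
    calc (δ + Real.sqrt θ) * I2 w ≤ 1 * I2 w := mul_le_mul_of_nonneg_right h1 hI0
      _ ≤ H + 2 * Cw ^ 4 := by linarith
      _ ≤ (1 + 2 * Cw ^ 4) ^ 2 * H := by
        have hHm : (0 : ℝ) ≤ H - 1 := by linarith
        have hHp : (0 : ℝ) ≤ H := by linarith
        have p1 := mul_nonneg h3 hHm
        have p2 := mul_nonneg (mul_nonneg h3 h3) hHp
        have p3 := mul_nonneg h3 hHp
        have e : (1 + 2 * Cw ^ 4) ^ 2 * H = H + 4 * (Cw ^ 4 * H) + 4 * (Cw ^ 4 * Cw ^ 4 * H) := by ring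
        have e' : Cw ^ 4 * (H - 1) = Cw ^ 4 * H - Cw ^ 4 := by ring
        rw [e]
        linarith
  have eLI := hLI δ H Cw K w θ 1 hδ0 hδ2 hH1 hCw hK2 hw hθ0 hθ2 one_pos
  have eDE := b_DET g R lam hg hR hK hl0 hl1.le δ H Cw K w hδ0 (by linarith) hH1 hCw hK2 hw
  have eER := hER H hH1
  have eMA := mass_short Pool.Agent.Q222.UM.t_MV2 1 one_pos
  filter_upwards [eLI, eDE, eER, eMA, Pool.Agent.Q150.UM.ev_loglin (1 / 8) (by norm_num), eventually_ge_atTop (1 : ℝ)] with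
    T eLI eDE eER eMA hL8 hT1 N hN b
  have hT0 : 0 < T := by linarith
  have hNϑ : (N : ℝ) ≤ T ^ (ϑ / 2) := hN.trans (Real.rpow_le_rpow_of_exponent_le hT1 hθ1)
  have hN40 : (N : ℝ) ≤ T ^ (1 / 40 : ℝ) := hN.trans (Real.rpow_le_rpow_of_exponent_le hT1 hθ2)
  replace eLI := eLI N hN b
  replace eER := eER N hNϑ b
  replace eMA := eMA N hN40 b
  have hL0 : 0 ≤ Real.log T := Real.log_nonneg hT1
  set A := T + 2 * Real.log T with hA
  set B := 2 * T - 2 * Real.log T with hB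
  have hAB : A ≤ B := by linarith
  have hVc : Continuous (fun t : ℝ => ‖dp N b t‖ ^ 2) := V_cont hDPM N b
  have hZc : Continuous fun t => (Zt w T 0 t).re := Complex.continuous_re.comp (Pool.Agent.Q150.UM.Zt_cont hw T 0)
  obtain ⟨mN, B1, bN⟩ := Nw_meas T (H / Real.log T)
  obtain ⟨mE, ⟨B4, bE⟩, eE⟩ := ErrS_meas (δ := δ) hH1 K T
  have iE := ii_mul mE bE hVc A B
  have i1 : IntervalIntegrable (fun t => |Nw T (H / Real.log T) t - H / Real.pi| * ‖dp N b t‖ ^ 2) volume A B := by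
    refine ii_mul (B := B1 + |H / Real.pi|) ((mN.sub_const _).abs) (fun t => ?_) hVc A B
    rw [abs_abs]
    exact (abs_sub _ _).trans (by linarith [bN t])
  have i2 : IntervalIntegrable (fun t => |(Zt w T 0 t).re - qh w 0| * ‖dp N b t‖ ^ 2) volume A B :=
    Continuous.intervalIntegrable (by fun_prop) _ _
  have i3 : IntervalIntegrable (fun t => ‖dp N b t‖ ^ 2) volume A B := hVc.intervalIntegrable _ _
  have h1 : ∫ t in A..B, |Nw T (H / Real.log T) t - H / Real.pi| * ‖dp N b t‖ ^ 2 ≤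
      ∫ t in A..B, (100 * Cw ^ 2 * (ErrS δ H K T t * ‖dp N b t‖ ^ 2) + |(Zt w T 0 t).re - qh w 0| * ‖dp N b t‖ ^ 2 +
        4 * Cw ^ 2 / 3 * ‖dp N b t‖ ^ 2) := by
    refine intervalIntegral.integral_mono_on hAB i1 (((iE.const_mul _).add i2).add (i3.const_mul _)) fun t ht => ?_
    have h2 := (eDE t ht.1 ht.2).2.2
    have h3 : |Nw T (H / Real.log T) t - H / Real.pi| ≤ 100 * Cw ^ 2 * ErrS δ H K T t + |(Zt w T 0 t).re - qh w 0| +
        4 * Cw ^ 2 / 3 := by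
      rw [← hh]
      have e : Nw T (H / Real.log T) t - h = (Nw T (H / Real.log T) t - (Zt w T 0 t).re) + ((Zt w T 0 t).re - qh w 0) +
        (qh w 0 - h) := by ring
      rw [e]
      refine (abs_add_three _ _ _).trans ?_
      linarith
    calc _ ≤ (100 * Cw ^ 2 * ErrS δ H K T t + |(Zt w T 0 t).re - qh w 0| + 4 * Cw ^ 2 / 3) * ‖dp N b t‖ ^ 2 :=
          mul_le_mul_of_nonneg_right h3 (by positivity)
      _ = _ := by ring
  rw [intervalIntegral.integral_add ((iE.const_mul _).add i2) (i3.const_mul _),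
    intervalIntegral.integral_add (iE.const_mul _) i2, intervalIntegral.integral_const_mul,
    intervalIntegral.integral_const_mul] at h1
  have hW0 : 0 ≤ T * N2 N b := mul_nonneg hT0.le (N2_nonneg N b)
  have h2 : ∫ t in A..B, ‖dp N b t‖ ^ 2 ≤ 2 * (T * N2 N b) := by
    have := (abs_le.1 eMA).2
    linarith
  have h3 : 100 * Cw ^ 2 * ∫ t in A..B, ErrS δ H K T t * ‖dp N b t‖ ^ 2 ≤ 100 * Cw ^ 2 * C₄ * Real.sqrt H * (T * N2 N b) := by
    calc _ ≤ 100 * Cw ^ 2 * (C₄ * T * N2 N b) := mul_le_mul_of_nonneg_left eER (by positivity)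
      _ = 100 * Cw ^ 2 * C₄ * 1 * (T * N2 N b) := by ring
      _ ≤ 100 * Cw ^ 2 * C₄ * Real.sqrt H * (T * N2 N b) := by gcongr
  have h4 : (C₀ * Real.sqrt ((δ + Real.sqrt θ) * I2 w) + 1) * T * N2 N b ≤ (C₀ * (1 + 2 * Cw ^ 4) + 1) * Real.sqrt H * (T * N2 N b) := by
    rw [mul_assoc]
    apply mul_le_mul_of_nonneg_right _ hW0
    calc C₀ * Real.sqrt ((δ + Real.sqrt θ) * I2 w) + 1 ≤ C₀ * ((1 + 2 * Cw ^ 4) * Real.sqrt H) + 1 * Real.sqrt H := by
          have := mul_le_mul_of_nonneg_left hsq (by linarith : 0 ≤ C₀)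
          linarith
      _ = _ := by ring
  have h5 : 4 * Cw ^ 2 / 3 * ∫ t in A..B, ‖dp N b t‖ ^ 2 ≤ 4 * Cw ^ 2 * Real.sqrt H * (T * N2 N b) := by
    calc _ ≤ 4 * Cw ^ 2 / 3 * (2 * (T * N2 N b)) := mul_le_mul_of_nonneg_left h2 (by positivity)
      _ ≤ 4 * Cw ^ 2 * 1 * (T * N2 N b) := by
          have : 0 ≤ Cw ^ 2 * (T * N2 N b) := by positivity
          nlinarith
      _ ≤ _ := by gcongr
  calc _ ≤ _ := h1
    _ ≤ 100 * Cw ^ 2 * C₄ * Real.sqrt H * (T * N2 N b) + (C₀ * (1 + 2 * Cw ^ 4) + 1) * Real.sqrt H * (T * N2 N b) +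
        4 * Cw ^ 2 * Real.sqrt H * (T * N2 N b) := by linarith
    _ = _ := by ring

lemma abs_sub_le' (a h : ℝ) (ha : 0 ≤ a) (hh : 0 ≤ h) : |a - h| ≤ a + h := by
  rw [abs_le]
  constructor <;> linarith

/-- **mesoscopic law**: windows of length `H / log T`, at distance up to `√T`, in `L¹` against `|B|²` -/
theorem t_meso : ∃ C θ : ℝ, 1 ≤ C ∧ 0 < θ ∧ θ ≤ 1 / 40 ∧ ∀ H : ℝ, 1 ≤ H → ∀ᶠ T : ℝ in atTop,
    ∀ x : ℝ, |x| ≤ Real.sqrt T → ∀ N : ℕ, (N : ℝ) ≤ T ^ θ → ∀ b : ℕ → ℂ,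
      ∫ t in T..(2 * T), |(nz (t + x) (H / Real.log T) : ℝ) - H / Real.pi| * ‖dp N b t‖ ^ 2 ≤
        C * Real.sqrt H * T * N2 N b := by
  obtain ⟨C, θ, hC, hθ0, hθ1, hM⟩ := meso_nw
  obtain ⟨θ', hθ'0, hθ'1, hmom⟩ := t_mom
  obtain ⟨C₂, hC₂, hmom⟩ := hmom 1
  obtain ⟨φ, hφ⟩ : ∃ φ, φ = min θ θ' := ⟨_, rfl⟩
  have hφ0 : 0 < φ := by rw [hφ]; positivity
  have hφ1 : φ ≤ θ := by rw [hφ]; exact min_le_left _ _
  have hφ2 : φ ≤ θ' := by rw [hφ]; exact min_le_right _ _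
  refine ⟨C + 4, φ, by linarith, hφ0, by linarith, fun H hH => ?_⟩
  obtain ⟨κ, hκ⟩ : ∃ κ : ℝ, κ = 1 / (C₂ * H ^ 2) := ⟨_, rfl⟩
  have hκ0 : 0 < κ := by rw [hκ]; positivity
  have ev1 : ∀ᶠ T : ℝ in atTop, (1 / κ + 2 * H) * ((Real.sqrt T + 2 * Real.log T) * T ^ (1 / 40 : ℝ)) ≤ T := by
    have h1 : Tendsto (fun T : ℝ => T ^ (1 / 4 : ℝ)) atTop atTop := tendsto_rpow_atTop (by norm_num)
    filter_upwards [h1.eventually_ge_atTop (3 * (1 / κ + 2 * H)), eventually_ge_atTop (1 : ℝ),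
      (isLittleO_log_rpow_atTop (by norm_num : (0 : ℝ) < 1 / 2)).bound one_pos] with T hT hT1 hlog
    have hT0 : 0 < T := by linarith
    rw [Real.norm_eq_abs, Real.norm_eq_abs, one_mul, abs_of_nonneg (Real.log_nonneg hT1), abs_of_pos (by positivity),
      ← Real.sqrt_eq_rpow] at hlog
    have hs : Real.sqrt T + 2 * Real.log T ≤ 3 * T ^ (1 / 2 : ℝ) := by
      rw [← Real.sqrt_eq_rpow]
      linarith
    have hs0 : 0 ≤ Real.sqrt T + 2 * Real.log T := by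
      have := Real.log_nonneg hT1
      positivity
    have h2 : T ^ (1 / 40 : ℝ) ≤ T ^ (1 / 4 : ℝ) := Real.rpow_le_rpow_of_exponent_le hT1 (by norm_num)
    have h3 : T ^ (1 / 4 : ℝ) * (T ^ (1 / 2 : ℝ) * T ^ (1 / 4 : ℝ)) = T := by
      rw [← Real.rpow_add hT0, ← Real.rpow_add hT0]
      norm_num
    have h4 : 0 < 1 / κ + 2 * H := by positivity
    calc (1 / κ + 2 * H) * ((Real.sqrt T + 2 * Real.log T) * T ^ (1 / 40 : ℝ))
        ≤ (1 / κ + 2 * H) * ((3 * T ^ (1 / 2 : ℝ)) * T ^ (1 / 4 : ℝ)) := by gcongr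
      _ = (3 * (1 / κ + 2 * H)) * (T ^ (1 / 2 : ℝ) * T ^ (1 / 4 : ℝ)) := by ring
      _ ≤ T ^ (1 / 4 : ℝ) * (T ^ (1 / 2 : ℝ) * T ^ (1 / 4 : ℝ)) := by gcongr
      _ = T := h3
  have ev2 : ∀ᶠ T : ℝ in atTop, Real.sqrt T ≤ T / 16 := by
    filter_upwards [eventually_ge_atTop (256 : ℝ)] with T hT
    rw [Real.sqrt_le_left (by positivity)]
    nlinarith
  filter_upwards [hM H hH, hmom, ev1, ev2, Pool.Agent.Q150.UM.ev_loglin (1 / 16) (by norm_num),
    Real.tendsto_log_atTop.eventually_ge_atTop (2 * H), eventually_ge_atTop (100 : ℝ), eventually_ge_atTop H] with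
    T hM hmom hE hS hL8 hLH hT100 hTH x hx N hN b
  have hT1 : 1 ≤ T := by linarith
  have hT0 : 0 < T := by linarith
  have hL0 : 0 < Real.log T := by linarith
  obtain ⟨hx1, hx2⟩ := abs_le.1 hx
  have hN2 := N2_nonneg N b
  have hVc : Continuous (fun t : ℝ => ‖dp N b t‖ ^ 2) := V_cont hDPM N b
  have hpi := Real.pi_gt_three
  set r := H / Real.log T with hr
  have hr1 : r ≤ 1 / 2 := by rw [hr, div_le_iff₀ hL0]; linarith
  have hr0 : 0 < r := by positivity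
  have hhH : H / Real.pi ≤ H := by
    rw [div_le_iff₀ (by linarith)]
    nlinarith
  have hh0 : 0 ≤ H / Real.pi := by positivity
  -- the function
  set f : ℝ → ℝ := fun t => |(nz (t + x) r : ℝ) - H / Real.pi| * ‖dp N b t‖ ^ 2 with hf
  have mnz : Measurable (fun t : ℝ => (nz (t + x) r : ℝ)) := (nz_meas r).comp (measurable_id.add_const x)
  have bnz : ∀ s, T ≤ s → s ≤ 2 * T → (nz (s + x) r : ℝ) ≤ nz 0 (4 * T) := by
    intro s h1 h2
    have := nz_mono hZ2 (Zw_sub (t := s + x) (r := r) (t' := 0) (r' := 4 * T)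
      (by rw [sub_zero, abs_of_nonneg (by linarith)]; linarith))
    exact_mod_cast this
  have hfi : ∀ a b' : ℝ, T ≤ a → a ≤ b' → b' ≤ 2 * T → IntervalIntegrable f volume a b' := by
    intro a b' h1 h2 h3
    refine gint (g := fun t => |(nz (t + x) r : ℝ) - H / Real.pi|) (M := (nz 0 (4 * T) : ℝ) + H / Real.pi)
      ((mnz.sub_const _).abs) h2 (fun s => abs_nonneg _) (fun s s1 s2 => ?_) hVc (fun s => sq_nonneg _)
    refine (abs_sub_le' _ _ (Nat.cast_nonneg _) hh0).trans ?_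
    linarith [bnz s (by linarith) (by linarith)]
  have hqi : ∀ a b' : ℝ, T ≤ a → a ≤ b' → b' ≤ 2 * T → IntervalIntegrable
      (fun t => ((nz (t + x) r : ℝ) + 1) ^ 2 * ‖dp N b t‖ ^ 2) volume a b' := by
    intro a b' h1 h2 h3
    refine gint (g := fun t => ((nz (t + x) r : ℝ) + 1) ^ 2) (M := ((nz 0 (4 * T) : ℝ) + 1) ^ 2)
      ((mnz.add_const 1).pow_const 2) h2 (fun s => by positivity) (fun s s1 s2 => ?_) hVc (fun s => sq_nonneg _)
    have := bnz s (by linarith) (by linarith)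
    gcongr
  -- second moment
  have hmo : ∫ t in T..(2 * T), ((nz (t + x) r : ℝ) + 1) ^ 2 * ‖dp N b t‖ ^ 2 ≤ C₂ * H ^ 2 * T * N2 N b :=
    hmom H hH hTH x (by rw [abs_le]; constructor <;> linarith) N
      (hN.trans (Real.rpow_le_rpow_of_exponent_le hT1 hφ2)) b
  -- edges
  have edge : ∀ a b' : ℝ, T ≤ a → a ≤ b' → b' ≤ 2 * T → b' - a ≤ Real.sqrt T + 2 * Real.log T →
      ∫ t in a..b', f t ≤ 2 * (T * N2 N b) := by
    intro a b' h1 h2 h3 h4
    have h5 : ∫ t in a..b', f t ≤ ∫ t in a..b', (κ * (((nz (t + x) r : ℝ) + 1) ^ 2 * ‖dp N b t‖ ^ 2) +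
        (1 / κ + 2 * H) * ‖dp N b t‖ ^ 2) := by
      refine intervalIntegral.integral_mono_on h2 (hfi a b' h1 h2 h3)
        (((hqi a b' h1 h2 h3).const_mul _).add ((hVc.intervalIntegrable _ _).const_mul _)) fun t ht => ?_
      have h6 : |(nz (t + x) r : ℝ) - H / Real.pi| ≤ κ * ((nz (t + x) r : ℝ) + 1) ^ 2 + (1 / κ + 2 * H) := by
        refine (abs_sub_le' _ _ (Nat.cast_nonneg _) hh0).trans ?_
        have h7 : (nz (t + x) r : ℝ) + 1 ≤ κ * ((nz (t + x) r : ℝ) + 1) ^ 2 + 1 / κ := by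
          set y := (nz (t + x) r : ℝ) + 1
          have h8 : 0 ≤ (κ * y - 1) ^ 2 / κ := by positivity
          have h9 : (κ * y - 1) ^ 2 / κ = κ * y ^ 2 - 2 * y + 1 / κ := by
            field_simp
            ring
          have h10 : 0 ≤ y := by positivity
          have h11 : 0 < 1 / κ := by positivity
          nlinarith
        linarith
      calc f t ≤ (κ * ((nz (t + x) r : ℝ) + 1) ^ 2 + (1 / κ + 2 * H)) * ‖dp N b t‖ ^ 2 :=
            mul_le_mul_of_nonneg_right h6 (by positivity)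
        _ = _ := by ring
    rw [intervalIntegral.integral_add ((hqi a b' h1 h2 h3).const_mul _) ((hVc.intervalIntegrable _ _).const_mul _),
      intervalIntegral.integral_const_mul, intervalIntegral.integral_const_mul] at h5
    have h6 : ∫ t in a..b', ((nz (t + x) r : ℝ) + 1) ^ 2 * ‖dp N b t‖ ^ 2 ≤ C₂ * H ^ 2 * T * N2 N b := by
      refine le_trans ?_ hmo
      refine intervalIntegral.integral_mono_interval h1 h2 h3 ?_ (hqi T (2 * T) le_rfl (by linarith) le_rfl)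
      exact Eventually.of_forall fun t => by positivity
    have h7 : ∫ t in a..b', ‖dp N b t‖ ^ 2 ≤ (Real.sqrt T + 2 * Real.log T) * T ^ (1 / 40 : ℝ) * N2 N b := by
      have h8 : ∀ t ∈ Set.Icc a b', ‖dp N b t‖ ^ 2 ≤ T ^ (1 / 40 : ℝ) * N2 N b := by
        intro t _
        refine ((hDPM.2.2 N b t).1).trans ?_
        exact mul_le_mul_of_nonneg_right (hN.trans (Real.rpow_le_rpow_of_exponent_le hT1 (by linarith))) hN2
      have h9 := intervalIntegral.integral_mono_on h2 (hVc.intervalIntegrable _ _)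
        (continuous_const.intervalIntegrable a b' : IntervalIntegrable (fun _ : ℝ => T ^ (1 / 40 : ℝ) * N2 N b) volume a b') h8
      rw [intervalIntegral.integral_const, smul_eq_mul] at h9
      refine h9.trans ?_
      calc (b' - a) * (T ^ (1 / 40 : ℝ) * N2 N b) ≤ (Real.sqrt T + 2 * Real.log T) * (T ^ (1 / 40 : ℝ) * N2 N b) := by
            gcongr
        _ = _ := by ring
    have h8 : κ * (C₂ * H ^ 2 * T * N2 N b) = T * N2 N b := by
      rw [hκ]
      have : C₂ * H ^ 2 ≠ 0 := by positivity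
      field_simp
    have h9 := mul_le_mul_of_nonneg_left h6 hκ0.le
    have h10 := mul_le_mul_of_nonneg_left h7 (by positivity : 0 ≤ 1 / κ + 2 * H)
    have h11 := mul_le_mul_of_nonneg_right hE hN2
    linarith
  -- the inner part
  set A := T + 2 * Real.log T with hA
  set B := 2 * T - 2 * Real.log T with hB
  set A' := max T (A - x) with hA'
  set B' := min (2 * T) (B - x) with hB'
  have a1 : T ≤ A' := le_max_left _ _
  have a2 : A' ≤ T + (Real.sqrt T + 2 * Real.log T) := by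
    rw [hA']
    have hs0 : 0 ≤ Real.sqrt T := Real.sqrt_nonneg _
    refine max_le (by linarith) (by linarith)
  have b1 : B' ≤ 2 * T := min_le_left _ _
  have b2 : 2 * T - (Real.sqrt T + 2 * Real.log T) ≤ B' := by
    rw [hB']
    refine le_min ?_ (by linarith)
    have : 0 ≤ Real.sqrt T := Real.sqrt_nonneg _
    linarith
  have hA'B' : A' ≤ B' := by linarith
  have a3 : A ≤ A' + x := by
    have := le_max_right T (A - x)
    linarith
  have b3 : B' + x ≤ B := by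
    have := min_le_right (2 * T) (B - x)
    linarith
  have mid : ∫ t in A'..B', f t ≤ C * Real.sqrt H * T * N2 N b := by
    have e1 := intervalIntegral.integral_comp_add_right (a := A') (b := B')
      (fun s => |(nz s r : ℝ) - H / Real.pi| * ‖dp N b (s - x)‖ ^ 2) x
    simp only [add_sub_cancel_right] at e1
    rw [hf, e1]
    set b'' : ℕ → ℂ := fun n => b n * (n : ℂ) ^ (x * Complex.I) with hb'
    have e2 : ∀ s : ℝ, dp N b (s - x) = dp N b'' s := fun s => (hDPM.2.1 N b s x).1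
    have e3 : N2 N b'' = N2 N b := (hDPM.2.1 N b 0 x).2
    simp_rw [e2]
    have h1 := hM N (hN.trans (Real.rpow_le_rpow_of_exponent_le hT1 hφ1)) b''
    rw [e3] at h1
    refine le_trans ?_ h1
    obtain ⟨mN, B1, bN⟩ := Nw_meas T r
    have i1 : IntervalIntegrable (fun t => |Nw T r t - H / Real.pi| * ‖dp N b'' t‖ ^ 2) volume A B := by
      refine ii_mul (B := B1 + |H / Real.pi|) ((mN.sub_const _).abs) (fun t => ?_) (V_cont hDPM N b'') A B
      rw [abs_abs]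
      exact (abs_sub _ _).trans (by linarith [bN t])
    refine le_trans (le_of_eq ?_) (intervalIntegral.integral_mono_interval (c := A) (d := B) a3 (by linarith) b3
      (Eventually.of_forall fun t => by positivity) i1)
    refine intervalIntegral.integral_congr fun t ht => ?_
    rw [Set.uIcc_of_le (by linarith)] at ht
    rw [nw_eq hT1 (by linarith [ht.1]) (by linarith [ht.2])]
  have tot : ∫ t in T..(2 * T), f t = (∫ t in T..A', f t) + (∫ t in A'..B', f t) + ∫ t in B'..(2 * T), f t := by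
    rw [intervalIntegral.integral_add_adjacent_intervals (hfi _ _ le_rfl a1 (by linarith)) (hfi _ _ a1 hA'B' b1),
      intervalIntegral.integral_add_adjacent_intervals (hfi _ _ le_rfl (by linarith) b1) (hfi _ _ (by linarith) b1 le_rfl)]
  rw [tot]
  have e1 := edge T A' le_rfl a1 (by linarith) (by linarith)
  have e2 := edge B' (2 * T) (by linarith) b1 le_rfl (by linarith)
  have hsH : 1 ≤ Real.sqrt H := by rw [← Real.sqrt_one]; exact Real.sqrt_le_sqrt hH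
  have hW0 : 0 ≤ T * N2 N b := mul_nonneg hT0.le hN2
  have e3 : 4 * (T * N2 N b) ≤ 4 * Real.sqrt H * (T * N2 N b) := by nlinarith
  calc _ ≤ 2 * (T * N2 N b) + C * Real.sqrt H * T * N2 N b + 2 * (T * N2 N b) := by linarith
    _ ≤ 4 * Real.sqrt H * (T * N2 N b) + C * Real.sqrt H * T * N2 N b := by linarith
    _ = _ := by ring

end Pool.Agent.V8H36.KL
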