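import Pool.Agent.V8H36.KL.Full3

set_option autoImplicit false

/-! The counting functions `N_k(T; B)`. -/

open Filter Topology MeasureTheory Complex

namespace Pool.Agent.V8H36.KL

open Pool.Agent.Q97.UM
open Pool.Agent.Q210.UM (gint V_cont nz_mono Zw_sub nz_eq nz_cover)

/-- the tuples counted by `N_k(T; B)` -/
def NkS (r : ℕ) (T : ℝ) (a b : Fin r → ℝ) : Set (Fin (r + 1) → ℕ) :=
  {j | Function.Injective j ∧ (∀ i, 1 ≤ j i ∧ SG.ord (j i) ≤ T) ∧
    ∀ i : Fin r, (SG.ord (j i.castSucc) - SG.ord (j (Fin.last r))) * (Real.log T / (2 * Real.pi)) ∈ Set.Icc (a i) (b i)}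

theorem NkS_sub {r : ℕ} {T : ℝ} (hT : 0 < Real.log T) {a b : Fin r → ℝ} :
    NkS r T a b ⊆ ↑(tup (Finset.Ioc 0 (SG.NZ T)) (JB T a b)) := by
  rintro j ⟨h1, h2, h3⟩
  rw [Finset.mem_coe, mem_tup]
  refine ⟨h1, ?_, fun i => (mem_JB hT).2 ⟨(h2 _).1, h3 i⟩⟩
  rw [Finset.mem_Ioc]
  exact ⟨(h2 _).1, (SG.ord_le_iff (h2 _).1 T).1 (h2 _).2⟩

theorem NkS_fin {r : ℕ} {T : ℝ} (hT : 0 < Real.log T) {a b : Fin r → ℝ} : (NkS r T a b).Finite :=
  (Finset.finite_toSet _).subset (NkS_sub hT)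

/-- `N_k` against sums over the last index -/
theorem Nk_bd (r : ℕ) (a b : Fin r → ℝ) (δ : ℝ) (hδ : 0 < δ) : ∀ᶠ T : ℝ in atTop,
    |((NkS r T a b).ncard : ℝ) - ∑ m ∈ Finset.Ioc 0 (SG.NZ T), ((inj (JB T a b m) {m}).card : ℝ)| ≤ δ * T := by
  obtain ⟨Cc, hCc, hcr⟩ := nz_crude2
  set A := ∑ i, (|a i| + |b i|) with hA
  have haA : ∀ i, |a i| ≤ A := fun i => by
    have := Finset.single_le_sum (f := fun i => |a i| + |b i|) (fun i _ => by positivity) (Finset.mem_univ i)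
    have h2 := abs_nonneg (b i)
    linarith
  have hbA : ∀ i, |b i| ≤ A := fun i => by
    have := Finset.single_le_sum (f := fun i => |a i| + |b i|) (fun i _ => by positivity) (Finset.mem_univ i)
    have h2 := abs_nonneg (a i)
    linarith
  filter_upwards [ev_polylog (r + 1) (Cc ^ (r + 1)) δ (by positivity) hδ, eventually_ge_atTop (16 : ℝ),
    Real.tendsto_log_atTop.eventually_ge_atTop (16 * A + 2)] with T hpl hT hL
  have hT0 : 0 < T := by linarith
  have hA0 : 0 ≤ A := Finset.sum_nonneg fun i _ => by positivity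
  have hL0 : 0 < Real.log T := by linarith
  have hL1 : 1 ≤ Real.log T := by linarith
  set U := tup (Finset.Ioc 0 (SG.NZ T)) (JB T a b) with hU
  set V := tup (Finset.Ioc (SG.NZ (T - 1)) (SG.NZ T)) (JB T a b) with hV
  rw [← card_tup (Finset.Ioc 0 (SG.NZ T)) (JB T a b)]
  have h1 : (NkS r T a b).ncard ≤ U.card := by
    rw [← Set.ncard_coe_finset]
    exact Set.ncard_le_ncard (NkS_sub hL0) (Finset.finite_toSet _)
  have h2 : (U : Set (Fin (r + 1) → ℕ)) ⊆ NkS r T a b ∪ ↑V := by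
    intro j hj
    rw [Finset.mem_coe, hU, mem_tup] at hj
    obtain ⟨a1, a2, a3⟩ := hj
    by_cases h : j ∈ NkS r T a b
    · exact Or.inl h
    right
    rw [Finset.mem_coe, hV, mem_tup]
    refine ⟨a1, ?_, a3⟩
    rw [Finset.mem_Ioc] at a2 ⊢
    refine ⟨?_, a2.2⟩
    by_contra hcon
    push Not at hcon
    apply h
    have hl1 : 1 ≤ j (Fin.last r) := a2.1
    have hlast : SG.ord (j (Fin.last r)) ≤ T - 1 := (SG.ord_le_iff hl1 _).2 hcon
    refine ⟨a1, fun i => ?_, fun i => ((mem_JB hL0).1 (a3 i)).2⟩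
    refine Fin.lastCases ?_ (fun i => ?_) i
    · exact ⟨hl1, by linarith⟩
    · obtain ⟨b1, b2⟩ := (mem_JB hL0).1 (a3 i)
      refine ⟨b1, ?_⟩
      have b3 := a3 i
      unfold JB at b3
      rw [mem_ix] at b3
      have b4 : 2 * Real.pi * b i / Real.log T ≤ 1 := by
        rw [div_le_one hL0]
        have := Real.pi_lt_four
        have := Real.pi_pos
        have := (abs_le.1 (hbA i)).2
        nlinarith
      linarith [b3.2.2]
  have h3 : U.card ≤ (NkS r T a b).ncard + V.card := by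
    rw [← Set.ncard_coe_finset U, ← Set.ncard_coe_finset V]
    exact (Set.ncard_le_ncard h2 ((NkS_fin hL0).union (Finset.finite_toSet _))).trans (Set.ncard_union_le _ _)
  have h4 : (V.card : ℝ) ≤ δ * T := by
    rw [hV, card_tup]
    have e1 : ((Finset.Ioc (SG.NZ (T - 1)) (SG.NZ T)).card : ℝ) ≤ Cc * Real.log T := by
      have e2 : (Finset.Ioc (SG.NZ (T - 1)) (SG.NZ T)).card ≤ (ix (T - 1) T).card := by
        apply Finset.card_le_card
        intro n hn
        rw [Ioc_eq (by linarith)] at hn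
        rw [mem_ix]
        exact ⟨hn.1, hn.2.1.le, hn.2.2⟩
      have e3 : ((Finset.Ioc (SG.NZ (T - 1)) (SG.NZ T)).card : ℝ) ≤ nz ((T - 1 + T) / 2) ((T - (T - 1)) / 2) := by
        exact_mod_cast e2.trans (ix_card_le _ _)
      exact e3.trans (hcr T _ _ hT (by linarith) (by linarith) (by linarith))
    calc ∑ m ∈ Finset.Ioc (SG.NZ (T - 1)) (SG.NZ T), ((inj (JB T a b m) {m}).card : ℝ)
        ≤ ∑ _m ∈ Finset.Ioc (SG.NZ (T - 1)) (SG.NZ T), Cc ^ r * Real.log T ^ r := by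
          refine Finset.sum_le_sum fun m hm => ?_
          rw [Ioc_eq (by linarith)] at hm
          exact inj_crude hCc hcr hT (by linarith : 16 * A ≤ Real.log T) haA hbA (ord_nonneg hm.1).le hm.2.2
      _ = ((Finset.Ioc (SG.NZ (T - 1)) (SG.NZ T)).card : ℝ) * (Cc ^ r * Real.log T ^ r) := by
          rw [Finset.sum_const, nsmul_eq_mul]
      _ ≤ (Cc * Real.log T) * (Cc ^ r * Real.log T ^ r) := mul_le_mul_of_nonneg_right e1 (by positivity)
      _ = Cc ^ (r + 1) * (Real.log T ^ (r + 1) * 1) := by rw [pow_succ, pow_succ]; ring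
      _ ≤ Cc ^ (r + 1) * (Real.log T ^ (r + 1) * (2 * Real.sqrt T + 2)) := by
          have := Real.sqrt_nonneg T
          gcongr
          linarith
      _ ≤ δ * T := hpl
  have h5 : ((NkS r T a b).ncard : ℝ) ≤ U.card := by exact_mod_cast h1
  have h6 : (U.card : ℝ) ≤ (NkS r T a b).ncard + V.card := by exact_mod_cast h3
  have h7 : 0 ≤ δ * T := by positivity
  rw [abs_le]
  constructor <;> linarith

/-- **long boxes**: `N_k(T; B) = (vol B + O(...)) (T / 2π) log T` -/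
theorem Nk_long (r : ℕ) : ∃ C : ℝ, 1 ≤ C ∧ ∀ a b : Fin r → ℝ, (∀ i, 1 ≤ b i - a i) → ∀ δ : ℝ, 0 < δ → ∀ᶠ T : ℝ in atTop,
    |((NkS r T a b).ncard : ℝ) - (∏ i, (b i - a i)) * (T / (2 * Real.pi) * Real.log T)| ≤
      (C * (∏ i, (b i - a i)) * (∑ i, (b i - a i) ^ (-(1 / 4) : ℝ)) + δ) * (T / (2 * Real.pi) * Real.log T) := by
  obtain ⟨C, hC, h⟩ := full_dev r
  have hpi := Real.pi_gt_three
  refine ⟨C * (2 * Real.pi), by nlinarith, fun a b hab δ hδ => ?_⟩
  set E := ∏ i, (b i - a i) with hE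
  have hE0 : 0 ≤ E := Finset.prod_nonneg fun i _ => by linarith [hab i]
  have hd : 0 < δ / (2 * Real.pi) / 4 := by positivity
  filter_upwards [h a b hab (δ / (2 * Real.pi) / 4) hd, Nk_bd r a b (δ / (2 * Real.pi) / 4) hd,
    NZ_asymp (δ / (2 * Real.pi) / 4 / (E + 1)) (by positivity), Real.tendsto_log_atTop.eventually_ge_atTop (1 : ℝ), eventually_ge_atTop (1 : ℝ)]
    with T h1 h2 h3 hL hT
  set W := T * Real.log T with hW
  have hTW : T ≤ W := by rw [hW]; nlinarith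
  have hW0 : 0 ≤ W := by linarith
  have e1 : T / (2 * Real.pi) * Real.log T = W / (2 * Real.pi) := by rw [hW]; ring
  rw [e1]
  set N1 := ∑ m ∈ Finset.Ioc 0 (SG.NZ T), ((inj (JB T a b m) {m}).card : ℝ) with hN1
  have h4 : |N1 - E * SG.NZ T| ≤ (C * E * (∑ i, (b i - a i) ^ (-(1 / 4) : ℝ)) + δ / (2 * Real.pi) / 4) * W := by
    have e2 : N1 - E * SG.NZ T = ∑ m ∈ Finset.Ioc 0 (SG.NZ T), (((inj (JB T a b m) {m}).card : ℝ) - E) := by
      rw [Finset.sum_sub_distrib, Finset.sum_const, Nat.card_Ioc, Nat.sub_zero, nsmul_eq_mul]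
      ring
    rw [e2]
    exact (Finset.abs_sum_le_sum_abs _ _).trans h1
  have h5 : |E * (SG.NZ T : ℝ) - E * (W / (2 * Real.pi))| ≤ δ / (2 * Real.pi) / 4 * W := by
    rw [← mul_sub, abs_mul, abs_of_nonneg hE0]
    calc E * |(SG.NZ T : ℝ) - W / (2 * Real.pi)| ≤ (E + 1) * (δ / (2 * Real.pi) / 4 / (E + 1) * W) := by
          apply mul_le_mul (by linarith) h3 (abs_nonneg _) (by linarith)
      _ = _ := by field_simp
  have e3 : ((NkS r T a b).ncard : ℝ) - E * (W / (2 * Real.pi)) = (((NkS r T a b).ncard : ℝ) - N1) +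
      ((N1 - E * SG.NZ T) + (E * (SG.NZ T : ℝ) - E * (W / (2 * Real.pi)))) := by ring
  rw [e3]
  have h6 : δ / (2 * Real.pi) / 4 * T ≤ δ / (2 * Real.pi) / 4 * W := by gcongr
  have h7 : 0 ≤ δ / (2 * Real.pi) / 4 * W := by positivity
  calc _ ≤ |((NkS r T a b).ncard : ℝ) - N1| + (|N1 - E * SG.NZ T| + |E * (SG.NZ T : ℝ) - E * (W / (2 * Real.pi))|) :=
        (abs_add_le _ _).trans (add_le_add le_rfl (abs_add_le _ _))
    _ ≤ δ / (2 * Real.pi) / 4 * W + ((C * E * (∑ i, (b i - a i) ^ (-(1 / 4) : ℝ)) + δ / (2 * Real.pi) / 4) * W + δ / (2 * Real.pi) / 4 * W) := by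
        linarith
    _ ≤ (C * (2 * Real.pi) * E * (∑ i, (b i - a i) ^ (-(1 / 4) : ℝ)) + δ) * (W / (2 * Real.pi)) := by
        have e4 : (C * (2 * Real.pi) * E * (∑ i, (b i - a i) ^ (-(1 / 4) : ℝ)) + δ) * (W / (2 * Real.pi)) =
          C * E * (∑ i, (b i - a i) ^ (-(1 / 4) : ℝ)) * W + 4 * (δ / (2 * Real.pi) / 4 * W) := by
            field_simp
        rw [e4]
        linarith

/-- the box with one more coordinate in `[0, R]` -/
theorem JB_snoc {r : ℕ} (T : ℝ) (a b : Fin r → ℝ) (R : ℝ) (m : ℕ) :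
    Fin.init (JB T (Fin.snoc a 0) (Fin.snoc b R) m) = JB T a b m ∧
    JB T (Fin.snoc a 0) (Fin.snoc b R) m (Fin.last r) = KR T R m := by
  constructor
  · funext i
    unfold JB Fin.init
    simp only [Fin.snoc_castSucc]
  · unfold JB KR
    rw [Fin.snoc_last, Fin.snoc_last, mul_zero, zero_div, add_zero]

/-- **from level `k + 1` to level `k`** -/
theorem Nk_ext (r : ℕ) (a b : Fin r → ℝ) (hab : ∀ i, a i ≤ b i) : ∃ C : ℝ, 1 ≤ C ∧ ∀ R : ℝ, 1 ≤ R → ∀ᶠ T : ℝ in atTop,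
    |((NkS (r + 1) T (Fin.snoc a 0) (Fin.snoc b R)).ncard : ℝ) - R * (NkS r T a b).ncard| ≤
      C * R ^ (3 / 4 : ℝ) * (T / (2 * Real.pi) * Real.log T) := by
  obtain ⟨C, hC, h⟩ := full_ext r a b hab
  have hpi := Real.pi_gt_three
  refine ⟨(C + 2) * (2 * Real.pi), by nlinarith, fun R hR => ?_⟩
  have hR0 : 0 < R := by linarith
  filter_upwards [h R hR, Nk_bd (r + 1) (Fin.snoc a 0) (Fin.snoc b R) 1 one_pos, Nk_bd r a b (1 / R) (by positivity),
    Real.tendsto_log_atTop.eventually_ge_atTop (1 : ℝ), eventually_ge_atTop (1 : ℝ)] with T h1 h2 h3 hL hT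
  set W := T * Real.log T with hW
  have hTW : T ≤ W := by rw [hW]; nlinarith
  have hW0 : 0 ≤ W := by linarith
  have hR34 : 1 ≤ R ^ (3 / 4 : ℝ) := Real.one_le_rpow hR (by norm_num)
  have e1 : T / (2 * Real.pi) * Real.log T = W / (2 * Real.pi) := by rw [hW]; ring
  rw [e1]
  set N1 := ∑ m ∈ Finset.Ioc 0 (SG.NZ T), ((inj (JB T a b m) {m}).card : ℝ) with hN1
  set N2' := ∑ m ∈ Finset.Ioc 0 (SG.NZ T), ((inj (JB T (Fin.snoc a 0) (Fin.snoc b R) m) {m}).card : ℝ) with hN2'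
  have h4 : |N2' - R * N1| ≤ C * R ^ (3 / 4 : ℝ) * W := by
    have e2 : N2' - R * N1 = ∑ m ∈ Finset.Ioc 0 (SG.NZ T), (((inj (JB T (Fin.snoc a 0) (Fin.snoc b R) m) {m}).card : ℝ) -
        R * ((inj (JB T a b m) {m}).card : ℝ)) := by
      rw [Finset.sum_sub_distrib, ← Finset.mul_sum]
    rw [e2]
    refine (Finset.abs_sum_le_sum_abs _ _).trans (le_trans (Finset.sum_le_sum fun m _ => ?_) h1)
    obtain ⟨u1, u2⟩ := inj_succ_bd (JB T (Fin.snoc a 0) (Fin.snoc b R) m) {m}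
    obtain ⟨v1, v2⟩ := JB_snoc T a b R m
    rw [v1, v2, Finset.card_singleton] at u2
    rw [v1, v2] at u1
    set I := (inj (JB T a b m) {m}).card with hI
    set I' := (inj (JB T (Fin.snoc a 0) (Fin.snoc b R) m) {m}).card with hI'
    set k := (KR T R m).card with hk
    have w1 : (I' : ℝ) ≤ I * k := by exact_mod_cast u1
    have w2 : (I : ℝ) * ((k : ℝ) - (r + 1)) ≤ I' := by
      have w3 : (I : ℝ) * ((k - (1 + r) : ℕ) : ℝ) ≤ I' := by exact_mod_cast u2
      have w4 : (k : ℝ) - (r + 1) ≤ ((k - (1 + r) : ℕ) : ℝ) := by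
        have : k ≤ (k - (1 + r)) + (1 + r) := by omega
        have w5 : (k : ℝ) ≤ ((k - (1 + r) : ℕ) : ℝ) + ((1 + r : ℕ) : ℝ) := by exact_mod_cast this
        push_cast at w5
        linarith
      exact (mul_le_mul_of_nonneg_left w4 (Nat.cast_nonneg _)).trans w3
    have hI0 : (0 : ℝ) ≤ I := Nat.cast_nonneg _
    have q1 := neg_abs_le ((k : ℝ) - R)
    have q2 := le_abs_self ((k : ℝ) - R)
    have q3 := abs_nonneg ((k : ℝ) - R)
    have hr : (0 : ℝ) ≤ r := Nat.cast_nonneg r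
    rw [abs_le]
    constructor
    · have := mul_le_mul_of_nonneg_left q1 hI0
      nlinarith
    · have := mul_le_mul_of_nonneg_left q2 hI0
      nlinarith
  have e3 : ((NkS (r + 1) T (Fin.snoc a 0) (Fin.snoc b R)).ncard : ℝ) - R * (NkS r T a b).ncard =
      (((NkS (r + 1) T (Fin.snoc a 0) (Fin.snoc b R)).ncard : ℝ) - N2') + ((N2' - R * N1) + -(R * (((NkS r T a b).ncard : ℝ) - N1))) := by ring
  rw [e3]
  have h5 : |-(R * (((NkS r T a b).ncard : ℝ) - N1))| ≤ T := by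
    rw [abs_neg, abs_mul, abs_of_pos hR0]
    calc R * |((NkS r T a b).ncard : ℝ) - N1| ≤ R * (1 / R * T) := by gcongr
      _ = T := by field_simp
  calc _ ≤ |((NkS (r + 1) T (Fin.snoc a 0) (Fin.snoc b R)).ncard : ℝ) - N2'| + (|N2' - R * N1| + |-(R * (((NkS r T a b).ncard : ℝ) - N1))|) :=
        (abs_add_le _ _).trans (add_le_add le_rfl (abs_add_le _ _))
    _ ≤ 1 * T + (C * R ^ (3 / 4 : ℝ) * W + T) := by linarith
    _ ≤ (C + 2) * R ^ (3 / 4 : ℝ) * W := by nlinarith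
    _ = _ := by field_simp

end Pool.Agent.V8H36.KL
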