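import Pool.Agent.V8H36.KL.Nk
import Pool.Agent.V8H36.KL.Det

set_option autoImplicit false

/-! The main theorems. -/

open Filter Topology MeasureTheory Complex
open scoped Pointwise

namespace Pool.Agent.V8H36.KL

open Pool.Agent.Q97.UM
open Pool.Agent.Q210.UM (gint V_cont nz_mono Zw_sub nz_eq nz_cover)

/-- the mean value -/
theorem mean_eq (ε : ℝ) (hε : 0 < ε) : ∀ᶠ T : ℝ in atTop, ∀ N : ℕ, (N : ℝ) ≤ T ^ (1 / 40 : ℝ) → ∀ b : ℕ → ℂ,
    |(∫ t in T..(2 * T), ‖dp N b t‖ ^ 2) - T * N2 N b| ≤ ε * (T * N2 N b) := by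
  obtain ⟨C₀, hC₀, hMV⟩ := Pool.Agent.Q222.UM.t_MV2
  have h1 := (isLittleO_log_rpow_rpow_atTop (1 : ℝ) (by norm_num : (0 : ℝ) < 39 / 40)).bound
    (show (0 : ℝ) < ε / (2 * C₀) by positivity)
  filter_upwards [h1, Real.tendsto_log_atTop.eventually_ge_atTop (1 : ℝ), eventually_ge_atTop (1 : ℝ)] with T h1 hL hT1 N hN b
  have hT0 : 0 < T := by linarith
  rw [Real.rpow_one, Real.norm_of_nonneg (by linarith), Real.norm_of_nonneg (by positivity)] at h1
  have hN2 := N2_nonneg N b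
  rcases Nat.eq_zero_or_pos N with h0 | h0
  · subst h0
    have e1 : N2 0 b = 0 := by unfold N2; simp
    have e2 : ∀ t, ‖dp 0 b t‖ ^ 2 = 0 := fun t => by unfold dp; simp
    simp only [e1, e2]
    simp
  · have h2 := hMV T (2 * T) (by linarith) N b h0
    have e : (2 * T - T) * N2 N b = T * N2 N b := by ring
    rw [e] at h2
    refine h2.trans ?_
    have hN1 : (1 : ℝ) ≤ N := by exact_mod_cast h0
    have h3 : 1 + Real.log N ≤ 2 * Real.log T := by
      have h4 : Real.log N ≤ Real.log T := by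
        apply Real.log_le_log (by linarith)
        refine hN.trans ?_
        calc T ^ (1 / 40 : ℝ) ≤ T ^ (1 : ℝ) := Real.rpow_le_rpow_of_exponent_le hT1 (by norm_num)
          _ = T := Real.rpow_one T
      linarith
    have h5 : 0 ≤ 1 + Real.log N := by
      have := Real.log_nonneg hN1
      linarith
    have h6 : T ^ (1 / 40 : ℝ) * T ^ (39 / 40 : ℝ) = T := by
      rw [← Real.rpow_add hT0]; norm_num
    calc C₀ * N * (1 + Real.log N) * N2 N b ≤ C₀ * T ^ (1 / 40 : ℝ) * (2 * Real.log T) * N2 N b := by gcongr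
      _ ≤ C₀ * T ^ (1 / 40 : ℝ) * (2 * (ε / (2 * C₀) * T ^ (39 / 40 : ℝ))) * N2 N b := by gcongr
      _ = ε * ((T ^ (1 / 40 : ℝ) * T ^ (39 / 40 : ℝ)) * N2 N b) := by field_simp
      _ = _ := by rw [h6]

/-- **tuples of zeros relative to Dirichlet polynomials** -/
theorem rel_dyadic (r : ℕ) (ε : ℝ) (hε : 0 < ε) : ∃ θ R : ℝ, 0 < θ ∧ 0 < R ∧ ∀ s : Fin r → ℝ, (∀ i, R ≤ s i) →
    ∀ᶠ T : ℝ in atTop, ∀ a : Fin r → ℝ, (∀ i, |a i| ≤ Real.sqrt T) → ∀ N : ℕ, (N : ℝ) ≤ T ^ θ → ∀ b : ℕ → ℂ,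
      |∑ j ∈ tup (Finset.Ioc (SG.NZ T) (SG.NZ (2 * T))) (JB T a (fun i => a i + s i)), ‖dp N b (SG.ord (j (Fin.last r)))‖ ^ 2 -
        (∏ i, s i) * (Real.log T / (2 * Real.pi)) * ∫ t in T..(2 * T), ‖dp N b t‖ ^ 2| ≤
      ε * ((∏ i, s i) * (Real.log T / (2 * Real.pi)) * ∫ t in T..(2 * T), ‖dp N b t‖ ^ 2) := by
  obtain ⟨θ₁, hθ1, hθ1', hB⟩ := blk_dev
  obtain ⟨C, hC, hB⟩ := hB r
  obtain ⟨ε₁, hε₁⟩ : ∃ ε₁ : ℝ, ε₁ = min (ε / 48) (1 / 2) := ⟨_, rfl⟩
  have hε0 : 0 < ε₁ := by rw [hε₁]; positivity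
  have hε1 : ε₁ ≤ ε / 48 := by rw [hε₁]; exact min_le_left _ _
  have hε2 : ε₁ ≤ 1 / 2 := by rw [hε₁]; exact min_le_right _ _
  obtain ⟨θ₂, hθ2, hθ2', hS⟩ := b_SAMP ε₁ hε0
  have hr0 : (0 : ℝ) ≤ r := Nat.cast_nonneg r
  -- the choice of `R`
  obtain ⟨R, hR1, hR⟩ : ∃ R : ℝ, 1 ≤ R ∧ C * (r * R ^ (-(1 / 4) : ℝ)) ≤ ε₁ := by
    have h1 : Tendsto (fun R : ℝ => C * (r * R ^ (-(1 / 4) : ℝ))) atTop (𝓝 (C * (r * 0))) :=
      ((tendsto_rpow_neg_atTop (by norm_num : (0 : ℝ) < 1 / 4)).const_mul _).const_mul _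
    rw [mul_zero, mul_zero] at h1
    obtain ⟨R, h2, h3⟩ := ((h1.eventually_le_const hε0).and (eventually_ge_atTop (1 : ℝ))).exists
    exact ⟨R, h3, h2⟩
  refine ⟨min θ₁ θ₂, R, by positivity, by linarith, fun s hs => ?_⟩
  have hs1 : ∀ i, 1 ≤ s i := fun i => hR1.trans (hs i)
  set A := ∑ i, s i with hA
  have hsA : ∀ i, s i ≤ A := fun i => Finset.single_le_sum (f := s) (fun i _ => by linarith [hs1 i]) (Finset.mem_univ i)
  have hA0 : 0 ≤ A := Finset.sum_nonneg fun i _ => by linarith [hs1 i]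
  filter_upwards [hB (1 + 4 * A) (by linarith), hS, mean_eq ε₁ hε0, eventually_ge_atTop (16 : ℝ),
    Real.tendsto_log_atTop.eventually_ge_atTop (16 + 8 * A)] with T hB hS hM hT hL a ha N hN b
  have hT0 : 0 < T := by linarith
  have hT1 : 1 ≤ T := by linarith
  have hL0 : 0 < Real.log T := by linarith
  have hpi := Real.pi_gt_three
  have hpi4 := Real.pi_lt_four
  have hs1T : 1 ≤ Real.sqrt T := by rw [← Real.sqrt_one]; exact Real.sqrt_le_sqrt (by linarith)
  have hN1 : (N : ℝ) ≤ T ^ θ₁ := hN.trans (Real.rpow_le_rpow_of_exponent_le hT1 (min_le_left _ _))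
  have hN2 : (N : ℝ) ≤ T ^ θ₂ := hN.trans (Real.rpow_le_rpow_of_exponent_le hT1 (min_le_right _ _))
  have hN40 : (N : ℝ) ≤ T ^ (1 / 40 : ℝ) := hN1.trans (Real.rpow_le_rpow_of_exponent_le hT1 hθ1')
  set c : Fin r → ℝ := fun i => Real.pi * (a i + (a i + s i)) / Real.log T with hc
  set ρ : Fin r → ℝ := fun i => Real.pi * s i with hρ
  have hJ : ∀ m, JB T a (fun i => a i + s i) m = JJ T c ρ m := by
    intro m
    rw [JB_eq hL0 hL0]
    congr 1
    funext i
    simp only [hρ]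
    rw [div_self hL0.ne']
    ring
  have hc1 : ∀ i, |c i| ≤ Real.sqrt T := by
    intro i
    simp only [hc]
    rw [abs_div, abs_mul, abs_of_pos (by linarith : 0 < Real.pi), abs_of_pos hL0, div_le_iff₀ hL0]
    have h1 : |a i + (a i + s i)| ≤ 2 * Real.sqrt T + A := by
      obtain ⟨x1, x2⟩ := abs_le.1 (ha i)
      have := hsA i
      have := hs1 i
      rw [abs_le]
      constructor <;> linarith
    calc Real.pi * |a i + (a i + s i)| ≤ 4 * (2 * Real.sqrt T + A) := by gcongr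
      _ ≤ Real.sqrt T * (16 + 8 * A) := by nlinarith
      _ ≤ Real.sqrt T * Real.log T := by gcongr
  have hρs : ∀ i, s i ≤ ρ i := fun i => by
    simp only [hρ]
    nlinarith [hs1 i]
  have hρ1 : ∀ i, 1 ≤ ρ i ∧ ρ i ≤ 1 + 4 * A := fun i => by
    refine ⟨(hs1 i).trans (hρs i), ?_⟩
    simp only [hρ]
    calc Real.pi * s i ≤ 4 * A := by
          have h1 := hsA i
          have h2 := hs1 i
          nlinarith
      _ ≤ 1 + 4 * A := by linarith
  have hb := hB c ρ hc1 hρ1 N hN1 b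
  have hsa := (hS N hN2 b).2.2
  have hme := hM N hN40 b
  set V := ∫ t in T..(2 * T), ‖dp N b t‖ ^ 2 with hV
  set W := T * N2 N b with hW
  have hW0 : 0 ≤ W := mul_nonneg hT0.le (N2_nonneg N b)
  set E := ∏ i, s i with hE
  have hE0 : 0 ≤ E := Finset.prod_nonneg fun i _ => by linarith [hs1 i]
  have hE' : ∏ i, (ρ i / Real.pi) = E := Finset.prod_congr rfl fun i _ => by
    simp only [hρ]
    field_simp
  rw [hE'] at hb
  set L := Real.log T with hLd
  have hQ : ∑ i, ρ i ^ (-(1 / 4) : ℝ) ≤ r * R ^ (-(1 / 4) : ℝ) := by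
    calc ∑ i, ρ i ^ (-(1 / 4) : ℝ) ≤ ∑ _i : Fin r, R ^ (-(1 / 4) : ℝ) := by
          refine Finset.sum_le_sum fun i _ => ?_
          exact Real.rpow_le_rpow_of_nonpos (by linarith) ((hs i).trans (hρs i)) (by norm_num)
      _ = _ := by rw [Finset.sum_const, Finset.card_univ, Fintype.card_fin, nsmul_eq_mul]
  rw [sum_tup _ _ (fun m => ‖dp N b (SG.ord m)‖ ^ 2)]
  simp_rw [hJ]
  set S1 := ∑ m ∈ Finset.Ioc (SG.NZ T) (SG.NZ (2 * T)), ((inj (JJ T c ρ m) {m}).card : ℝ) * ‖dp N b (SG.ord m)‖ ^ 2 with hS1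
  set S2 := ∑ m ∈ Finset.Ioc (SG.NZ T) (SG.NZ (2 * T)), ‖dp N b (SG.ord m)‖ ^ 2 with hS2
  have h1 : |S1 - E * S2| ≤ ε₁ * (E * L * W) := by
    have e : S1 - E * S2 = ∑ m ∈ Finset.Ioc (SG.NZ T) (SG.NZ (2 * T)), (((inj (JJ T c ρ m) {m}).card : ℝ) - E) * ‖dp N b (SG.ord m)‖ ^ 2 := by
      rw [hS1, hS2, Finset.mul_sum, ← Finset.sum_sub_distrib]
      exact Finset.sum_congr rfl fun m _ => by ring
    rw [e]
    refine (Finset.abs_sum_le_sum_abs _ _).trans ?_
    have e2 : ∑ m ∈ Finset.Ioc (SG.NZ T) (SG.NZ (2 * T)), |(((inj (JJ T c ρ m) {m}).card : ℝ) - E) * ‖dp N b (SG.ord m)‖ ^ 2| =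
        ∑ m ∈ Finset.Ioc (SG.NZ T) (SG.NZ (2 * T)), |((inj (JJ T c ρ m) {m}).card : ℝ) - E| * ‖dp N b (SG.ord m)‖ ^ 2 :=
      Finset.sum_congr rfl fun m _ => by rw [abs_mul, abs_of_nonneg (sq_nonneg ‖dp N b (SG.ord m)‖)]
    rw [e2]
    refine hb.trans ?_
    calc C * E * (∑ i, ρ i ^ (-(1 / 4) : ℝ)) * L * T * N2 N b = (C * (∑ i, ρ i ^ (-(1 / 4) : ℝ))) * (E * L * W) := by rw [hW]; ring
      _ ≤ (C * (r * R ^ (-(1 / 4) : ℝ))) * (E * L * W) := by
          apply mul_le_mul_of_nonneg_right _ (by positivity)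
          exact mul_le_mul_of_nonneg_left hQ (by linarith)
      _ ≤ ε₁ * (E * L * W) := mul_le_mul_of_nonneg_right hR (by positivity)
  have h2 : |S2 - L / (2 * Real.pi) * W| ≤ ε₁ * L * W := by
    rw [hS2, sum_blk hT1 (fun t => ‖dp N b t‖ ^ 2)]
    exact hsa
  have hWV : W ≤ 2 * V := by
    have := (abs_le.1 hme).1
    nlinarith
  have h3 : |S1 - E * (L / (2 * Real.pi)) * V| ≤ 3 * ε₁ * (E * L * W) := by
    have e : S1 - E * (L / (2 * Real.pi)) * V = (S1 - E * S2) + (E * (S2 - L / (2 * Real.pi) * W) + -(E * (L / (2 * Real.pi)) * (V - W))) := by ring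
    rw [e]
    have h4 : |E * (S2 - L / (2 * Real.pi) * W)| ≤ E * (ε₁ * L * W) := by
      rw [abs_mul, abs_of_nonneg hE0]
      exact mul_le_mul_of_nonneg_left h2 hE0
    have h5 : |-(E * (L / (2 * Real.pi)) * (V - W))| ≤ E * L * (ε₁ * W) := by
      rw [abs_neg, abs_mul, abs_of_nonneg (by positivity : 0 ≤ E * (L / (2 * Real.pi)))]
      apply mul_le_mul _ hme (abs_nonneg _) (by positivity)
      apply mul_le_mul_of_nonneg_left _ hE0
      exact div_le_self hL0.le (by linarith)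
    calc _ ≤ |S1 - E * S2| + (|E * (S2 - L / (2 * Real.pi) * W)| + |-(E * (L / (2 * Real.pi)) * (V - W))|) :=
          (abs_add_le _ _).trans (add_le_add le_rfl (abs_add_le _ _))
      _ ≤ ε₁ * (E * L * W) + (E * (ε₁ * L * W) + E * L * (ε₁ * W)) := by linarith
      _ = _ := by ring
  refine h3.trans ?_
  have h6 : E * L * W ≤ 8 * (E * (L / (2 * Real.pi)) * V) * 2 := by
    have hV0 : 0 ≤ V := by linarith
    have e : E * L * V = (2 * Real.pi) * (E * (L / (2 * Real.pi)) * V) := by field_simp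
    calc E * L * W ≤ E * L * (2 * V) := by gcongr
      _ = 2 * (E * L * V) := by ring
      _ = 2 * ((2 * Real.pi) * (E * (L / (2 * Real.pi)) * V)) := by rw [e]
      _ ≤ 2 * ((2 * 4) * (E * (L / (2 * Real.pi)) * V)) := by
          have : 0 ≤ E * (L / (2 * Real.pi)) * V := by positivity
          gcongr
      _ = _ := by ring
  have h7 : 0 ≤ E * (L / (2 * Real.pi)) * V := by
    have hV0 : 0 ≤ V := by linarith
    positivity
  calc 3 * ε₁ * (E * L * W) ≤ 3 * ε₁ * (8 * (E * (L / (2 * Real.pi)) * V) * 2) := by gcongr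
    _ = (48 * ε₁) * (E * (L / (2 * Real.pi)) * V) := by ring
    _ ≤ ε * (E * (L / (2 * Real.pi)) * V) := by
        apply mul_le_mul_of_nonneg_right _ h7
        linarith

/-- almost every point has distinct nonzero coordinates -/
theorem ae_sep (r : ℕ) : ∀ᵐ u : Fin r → ℝ, ∀ i j : Fin (r + 1), i ≠ j →
    (Fin.snoc u 0 : Fin (r + 1) → ℝ) i ≠ (Fin.snoc u 0 : Fin (r + 1) → ℝ) j := by
  rw [ae_all_iff]
  intro i
  rw [ae_all_iff]
  intro j
  by_cases hij : i = j
  · exact Eventually.of_forall fun u h => absurd hij h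
  set φ : Fin (r + 1) → ((Fin r → ℝ) →ₗ[ℝ] ℝ) := Fin.snoc (fun k => LinearMap.proj k) 0 with hφ
  have hφu : ∀ (k : Fin (r + 1)) (u : Fin r → ℝ), φ k u = (Fin.snoc u 0 : Fin (r + 1) → ℝ) k := by
    intro k u
    refine Fin.lastCases ?_ (fun k => ?_) k
    · rw [hφ, Fin.snoc_last, Fin.snoc_last, LinearMap.zero_apply]
    · rw [hφ, Fin.snoc_castSucc, Fin.snoc_castSucc, LinearMap.proj_apply]
  have hne : LinearMap.ker (φ i - φ j) ≠ ⊤ := by
    intro htop
    have h1 : (fun k : Fin r => ((k : ℕ) : ℝ) + 1) ∈ LinearMap.ker (φ i - φ j) := by rw [htop]; trivial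
    rw [LinearMap.mem_ker, LinearMap.sub_apply, sub_eq_zero, hφu, hφu] at h1
    apply hij
    revert h1
    refine Fin.lastCases ?_ (fun k => ?_) i
    · refine Fin.lastCases (fun _ => rfl) (fun l => ?_) j
      intro h
      rw [Fin.snoc_last, Fin.snoc_castSucc] at h
      have : (0 : ℝ) ≤ ((l : ℕ) : ℝ) := Nat.cast_nonneg _
      linarith
    · refine Fin.lastCases ?_ (fun l => ?_) j
      · intro h
        rw [Fin.snoc_last, Fin.snoc_castSucc] at h
        have : (0 : ℝ) ≤ ((k : ℕ) : ℝ) := Nat.cast_nonneg _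
        linarith
      · intro h
        rw [Fin.snoc_castSucc, Fin.snoc_castSucc] at h
        have h2 : ((k : ℕ) : ℝ) = ((l : ℕ) : ℝ) := by linarith
        have h3 : (k : ℕ) = (l : ℕ) := by exact_mod_cast h2
        rw [Fin.ext h3]
  have h0 := Measure.addHaar_submodule (volume : Measure (Fin r → ℝ)) _ hne
  rw [ae_iff]
  refine measure_mono_null ?_ h0
  intro u hu
  simp only [ne_eq, Set.mem_ofPred_eq, Classical.not_imp, not_not] at hu
  rw [SetLike.mem_coe, LinearMap.mem_ker, LinearMap.sub_apply, hφu, hφu, hu.2, sub_self]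

/-- **the determinant over dilated boxes** -/
theorem det_dilate (r : ℕ) (a b : Fin r → ℝ) (hab : ∀ i, a i ≤ b i) :
    Tendsto (fun x : ℝ => (∫ u in Set.Icc (fun i => x * a i) (fun i => x * b i), dA r u) / x ^ r) atTop (𝓝 (∏ i, (b i - a i))) := by
  have hvol : volume (Set.Icc a b) < ⊤ := isCompact_Icc.measure_lt_top
  have h1 : Tendsto (fun x : ℝ => ∫ u in Set.Icc a b, dA r (fun i => x * u i)) atTop (𝓝 (∫ _u in Set.Icc a b, (1 : ℝ))) := by
    refine tendsto_integral_filter_of_dominated_convergence (fun _ => ((r + 1).factorial : ℝ)) ?_ ?_ ?_ ?_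
    · exact Eventually.of_forall fun x => ((dA_cont r).comp (by fun_prop)).aestronglyMeasurable
    · exact Eventually.of_forall fun x => Eventually.of_forall fun u => by rw [Real.norm_eq_abs]; exact dA_bd _ _
    · exact integrableOn_const hvol.ne
    · exact ae_restrict_of_ae ((ae_sep r).mono fun u hu => lim_sep r u hu)
  have h2 : ∫ _u in Set.Icc a b, (1 : ℝ) = ∏ i, (b i - a i) := by
    rw [setIntegral_const, smul_eq_mul, mul_one, Measure.real, Real.volume_Icc_pi, ENNReal.toReal_prod]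
    exact Finset.prod_congr rfl fun i _ => ENNReal.toReal_ofReal (by linarith [hab i])
  rw [h2] at h1
  refine h1.congr' ?_
  filter_upwards [eventually_gt_atTop (0 : ℝ)] with x hx
  have h3 := Measure.setIntegral_comp_smul (volume : Measure (Fin r → ℝ)) (dA r) (Set.Icc a b) hx.ne'
  have e1 : x • Set.Icc a b = Set.Icc (fun i => x * a i) (fun i => x * b i) := by
    ext u
    rw [Set.mem_smul_set_iff_inv_smul_mem₀ hx.ne', Set.mem_Icc, Set.mem_Icc, Pi.le_def, Pi.le_def, Pi.le_def, Pi.le_def]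
    constructor
    · rintro ⟨g1, g2⟩
      refine ⟨fun i => ?_, fun i => ?_⟩
      · have := g1 i
        rw [Pi.smul_apply, smul_eq_mul, inv_mul_eq_div, le_div_iff₀ hx] at this
        linarith
      · have := g2 i
        rw [Pi.smul_apply, smul_eq_mul, inv_mul_eq_div, div_le_iff₀ hx] at this
        linarith
    · rintro ⟨g1, g2⟩
      refine ⟨fun i => ?_, fun i => ?_⟩
      · rw [Pi.smul_apply, smul_eq_mul, inv_mul_eq_div, le_div_iff₀ hx]
        have := g1 i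
        linarith
      · rw [Pi.smul_apply, smul_eq_mul, inv_mul_eq_div, div_le_iff₀ hx]
        have := g2 i
        linarith
  have e2 : ∀ u : Fin r → ℝ, x • u = fun i => x * u i := fun u => rfl
  rw [e1, Module.finrank_fin_fun] at h3
  simp_rw [e2] at h3
  rw [h3, abs_of_pos (by positivity), smul_eq_mul]
  field_simp

end Pool.Agent.V8H36.KL
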