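import Pool.Agent.V8H36.KL.T1

set_option autoImplicit false

/-! Dilated boxes; the hierarchy of the correlations. -/

open Filter Topology MeasureTheory Complex

namespace Pool.Agent.V8H36.KL

/-- the normalisation -/
noncomputable def DT (T : ℝ) : ℝ := T / (2 * Real.pi) * Real.log T

theorem DT_pos {T : ℝ} (hT : 1 < T) : 0 < DT T := by
  unfold DT
  have := Real.log_pos hT
  have := Real.pi_pos
  positivity

/-- **dilated boxes** -/
theorem dilated (r : ℕ) (a b : Fin r → ℝ) (hab : ∀ i, a i < b i) (ε : ℝ) (hε : 0 < ε) : ∃ Λ : ℝ, 0 < Λ ∧ ∀ x : ℝ, Λ ≤ x →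
    0 < (∫ u in Set.Icc (fun i => x * a i) (fun i => x * b i), dA r u) ∧ ∀ᶠ T : ℝ in atTop,
    |((NkS r T (fun i => x * a i) (fun i => x * b i)).ncard : ℝ) - (∫ u in Set.Icc (fun i => x * a i) (fun i => x * b i), dA r u) * DT T| ≤
      ε * ((∫ u in Set.Icc (fun i => x * a i) (fun i => x * b i), dA r u) * DT T) := by
  obtain ⟨C, hC, hN⟩ := Nk_long r
  set E := ∏ i, (b i - a i) with hE
  have hE0 : 0 < E := Finset.prod_pos fun i _ => by linarith [hab i]
  -- the sum of the errors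
  set Q := ∑ i, (b i - a i) ^ (-(1 / 4) : ℝ) with hQ
  have hQ0 : 0 ≤ Q := Finset.sum_nonneg fun i _ => by
    have := hab i
    apply Real.rpow_nonneg
    linarith
  obtain ⟨e, he⟩ : ∃ e : ℝ, e = min (ε / 16) (1 / 4) := ⟨_, rfl⟩
  have he0 : 0 < e := by rw [he]; positivity
  have he1 : e ≤ ε / 16 := by rw [he]; exact min_le_left _ _
  have he2 : e ≤ 1 / 4 := by rw [he]; exact min_le_right _ _
  have h1 : Tendsto (fun x : ℝ => C * (x ^ (-(1 / 4) : ℝ) * Q)) atTop (𝓝 (C * (0 * Q))) :=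
    ((tendsto_rpow_neg_atTop (by norm_num : (0 : ℝ) < 1 / 4)).mul_const _).const_mul _
  rw [zero_mul, mul_zero] at h1
  have h2 := det_dilate r a b (fun i => (hab i).le)
  have h3 : ∀ᶠ x : ℝ in atTop, |(∫ u in Set.Icc (fun i => x * a i) (fun i => x * b i), dA r u) / x ^ r - E| ≤ e * E := by
    have h4 : Tendsto (fun x : ℝ => |(∫ u in Set.Icc (fun i => x * a i) (fun i => x * b i), dA r u) / x ^ r - E|) atTop (𝓝 |E - E|) :=
      (h2.sub_const E).abs
    rw [sub_self, abs_zero] at h4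
    exact h4.eventually_le_const (by positivity)
  have h4 : ∀ᶠ x : ℝ in atTop, ∀ i, 1 ≤ x * (b i - a i) := by
    rw [Filter.eventually_all]
    intro i
    have : Tendsto (fun x : ℝ => x * (b i - a i)) atTop atTop := tendsto_id.atTop_mul_const (by linarith [hab i])
    exact this.eventually_ge_atTop 1
  obtain ⟨Λ, hΛ⟩ := eventually_atTop.1 ((h1.eventually_le_const he0).and (h3.and (h4.and (eventually_gt_atTop (0 : ℝ)))))
  refine ⟨max Λ 1, by positivity, fun x hx => ?_⟩
  obtain ⟨g1, g2, g3, g4⟩ := hΛ x ((le_max_left _ _).trans hx)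
  set I := ∫ u in Set.Icc (fun i => x * a i) (fun i => x * b i), dA r u with hI
  have hxr : 0 < x ^ r := by positivity
  have hI1 : |I - x ^ r * E| ≤ e * (x ^ r * E) := by
    have e1 : I - x ^ r * E = x ^ r * (I / x ^ r - E) := by field_simp
    rw [e1, abs_mul, abs_of_pos hxr]
    calc x ^ r * |I / x ^ r - E| ≤ x ^ r * (e * E) := by gcongr
      _ = _ := by ring
  set F := x ^ r * E with hF
  have hF0 : 0 < F := by positivity
  obtain ⟨i1, i2⟩ := abs_le.1 hI1
  have hIF : F ≤ 2 * I := by nlinarith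
  have hI0 : 0 < I := by linarith
  refine ⟨hI0, ?_⟩
  have h5 := hN (fun i => x * a i) (fun i => x * b i) (fun i => by rw [← mul_sub]; exact g3 i) (e * F) (by positivity)
  filter_upwards [h5, eventually_gt_atTop (1 : ℝ)] with T h5 hT
  have hD := DT_pos hT
  have e2 : ∏ i, (x * b i - x * a i) = F := by
    rw [hF, hE]
    simp_rw [← mul_sub]
    rw [Finset.prod_mul_distrib, Finset.prod_const, Finset.card_univ, Fintype.card_fin]
  have e3 : ∑ i, (x * b i - x * a i) ^ (-(1 / 4) : ℝ) = x ^ (-(1 / 4) : ℝ) * Q := by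
    rw [hQ, Finset.mul_sum]
    refine Finset.sum_congr rfl fun i _ => ?_
    rw [← mul_sub, Real.mul_rpow g4.le (by linarith [hab i])]
  rw [e2, e3] at h5
  have e4 : T / (2 * Real.pi) * Real.log T = DT T := rfl
  rw [e4] at h5
  set n := ((NkS r T (fun i => x * a i) (fun i => x * b i)).ncard : ℝ) with hn
  have h6 : (C * F * (x ^ (-(1 / 4) : ℝ) * Q) + e * F) * DT T ≤ 2 * e * F * DT T := by
    apply mul_le_mul_of_nonneg_right _ hD.le
    have : C * F * (x ^ (-(1 / 4) : ℝ) * Q) = (C * (x ^ (-(1 / 4) : ℝ) * Q)) * F := by ring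
    rw [this]
    have := mul_le_mul_of_nonneg_right g1 hF0.le
    linarith
  have e5 : n - I * DT T = (n - F * DT T) + -((I - F) * DT T) := by ring
  rw [e5]
  have h7 : |-((I - F) * DT T)| ≤ e * F * DT T := by
    rw [abs_neg, abs_mul, abs_of_pos hD]
    exact mul_le_mul_of_nonneg_right hI1 hD.le
  calc _ ≤ |n - F * DT T| + |-((I - F) * DT T)| := abs_add_le _ _
    _ ≤ 2 * e * F * DT T + e * F * DT T := add_le_add (h5.trans h6) h7
    _ = 3 * e * (F * DT T) := by ring
    _ ≤ 3 * e * (2 * I * DT T) := by gcongr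
    _ ≤ ε * (I * DT T) := by
        have : 0 ≤ I * DT T := by positivity
        nlinarith

/-- the `(r+1)`-level law for a box along a filter -/
def Law (r : ℕ) (F : Filter ℝ) (a b : Fin r → ℝ) : Prop :=
  Tendsto (fun T : ℝ => ((NkS r T a b).ncard : ℝ) / DT T) F (𝓝 (∫ u in Set.Icc a b, dA r u))

/-- **the hierarchy** -/
theorem hierarchy (r : ℕ) (F : Filter ℝ) (hF : F ≤ atTop) (a b : Fin r → ℝ) (hab : ∀ i, a i ≤ b i)
    (h : ∃ᶠ R : ℝ in atTop, Law (r + 1) F (Fin.snoc a 0) (Fin.snoc b R)) : Law r F a b := by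
  obtain ⟨C, hC, hE⟩ := Nk_ext r a b hab
  unfold Law at h ⊢
  rw [Metric.tendsto_nhds]
  intro ε hε
  set I := ∫ u in Set.Icc a b, dA r u with hI
  -- choose `R`
  have h1 : ∀ᶠ R : ℝ in atTop, |(∫ v in Set.Icc (Fin.snoc a 0 : Fin (r + 1) → ℝ) (Fin.snoc b R), dA (r + 1) v) / R - I| < ε / 4 := by
    have := (Metric.tendsto_nhds.1 (det_consistent r a b)) (ε / 4) (by positivity)
    simpa only [Real.dist_eq] using this
  have h2 : ∀ᶠ R : ℝ in atTop, C * R ^ (-(1 / 4) : ℝ) < ε / 4 := by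
    have h3 : Tendsto (fun R : ℝ => C * R ^ (-(1 / 4) : ℝ)) atTop (𝓝 (C * 0)) :=
      (tendsto_rpow_neg_atTop (by norm_num : (0 : ℝ) < 1 / 4)).const_mul _
    rw [mul_zero] at h3
    exact h3.eventually_lt_const (by positivity)
  obtain ⟨R, hR, g1, g2, g3⟩ := (h.and_eventually (h1.and (h2.and (eventually_ge_atTop (1 : ℝ))))).exists
  have hR0 : 0 < R := by linarith
  set J := ∫ v in Set.Icc (Fin.snoc a 0 : Fin (r + 1) → ℝ) (Fin.snoc b R), dA (r + 1) v with hJ
  have h3 := (Metric.tendsto_nhds.1 hR) (ε / 4 * R) (by positivity)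
  filter_upwards [h3, hF (hE R g3), hF (eventually_gt_atTop (1 : ℝ))] with T h3 h4 hT
  have hD := DT_pos hT
  rw [Real.dist_eq] at h3 ⊢
  set n' := ((NkS (r + 1) T (Fin.snoc a 0) (Fin.snoc b R)).ncard : ℝ) with hn'
  set n := ((NkS r T a b).ncard : ℝ) with hn
  have e4 : T / (2 * Real.pi) * Real.log T = DT T := rfl
  rw [e4] at h4
  have hRR : R ^ (-(1 / 4) : ℝ) * R = R ^ (3 / 4 : ℝ) := by
    nth_rewrite 2 [← Real.rpow_one R]
    rw [← Real.rpow_add hR0]; norm_num
  have h5 : |n' / DT T / R - n / DT T| ≤ C * R ^ (-(1 / 4) : ℝ) := by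
    have e5 : n' / DT T / R - n / DT T = (n' - R * n) / (R * DT T) := by field_simp
    rw [e5, abs_div, abs_of_pos (by positivity : 0 < R * DT T), div_le_iff₀ (by positivity)]
    calc |n' - R * n| ≤ C * R ^ (3 / 4 : ℝ) * DT T := h4
      _ = _ := by rw [← hRR]; ring
  have h6 : |n' / DT T / R - J / R| < ε / 4 := by
    rw [← sub_div, abs_div, abs_of_pos hR0, div_lt_iff₀ hR0]
    exact h3
  have e6 : n / DT T - I = -(n' / DT T / R - n / DT T) + ((n' / DT T / R - J / R) + (J / R - I)) := by ring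
  rw [e6]
  calc _ ≤ |n' / DT T / R - n / DT T| + (|n' / DT T / R - J / R| + |J / R - I|) := by
        refine (abs_add_le _ _).trans (add_le_add (by rw [abs_neg]) (abs_add_le _ _))
    _ < ε := by linarith

/-- all lower levels follow -/
theorem hierarchy_all (F : Filter ℝ) (hF : F ≤ atTop) (r r' : ℕ) (hr : r ≤ r')
    (h : ∀ a b : Fin r' → ℝ, (∀ i, a i ≤ b i) → Law r' F a b) : ∀ a b : Fin r → ℝ, (∀ i, a i ≤ b i) → Law r F a b := by
  induction r', hr using Nat.le_induction with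
  | base => exact h
  | succ n hn ih =>
    apply ih
    intro a b hab
    apply hierarchy n F hF a b hab
    apply Eventually.frequently
    filter_upwards [eventually_ge_atTop (0 : ℝ)] with R hR
    apply h
    intro i
    refine Fin.lastCases ?_ (fun k => ?_) i
    · rw [Fin.snoc_last, Fin.snoc_last]; exact hR
    · rw [Fin.snoc_castSucc, Fin.snoc_castSucc]; exact hab k

end Pool.Agent.V8H36.KL
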